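import Pool.Agent.Lib.P4f18dfX.Defs
import Pool.Agent.Lib.P4f18dfW.Chars

/-!
# The covariance of the character vectors, all nonprincipal characters

Module X.CharsX: the sum over `x` of `χ(x + a) conj χ(x + b)` is `-1` for `a ≠ b`, `χ ≠ 1` (substitution as in
`Lib/P4f18dfW/Chars.lean`: `χ(y + d) conj χ(y) = χ(1 + d / y)` for `y ≠ 0`, `MulChar.sum_eq_zero_of_ne_one`); take real parts.
-/

set_option autoImplicit false

namespace Pool.Agent.P4f18dfX

open Finset Pool.Agent.P4f18dfQ Pool.Agent.P4f18dfW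

namespace CharsXAux

lemma conj_mul_self {p : ℕ} [Fact p.Prime] (χ : DirichletCharacter ℂ p) {y : ZMod p} (hy : y ≠ 0) :
    (starRingEnd ℂ) (χ y) * χ y = 1 := by
  have h2 : ‖χ y‖ = 1 := by
    have := χ.unit_norm_eq_one (Units.mk0 _ hy)
    simpa using this
  rw [mul_comm, Complex.mul_conj, Complex.normSq_eq_norm_sq, h2]
  norm_num

lemma sum_shift {p : ℕ} [Fact p.Prime] {χ : DirichletCharacter ℂ p} (hχ : χ ≠ 1) (d : ZMod p)
    (hd : d ≠ 0) :
    ∑ y : ZMod p, (starRingEnd ℂ) (χ y) * χ (y + d) = -1 := by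
  have h0 : (starRingEnd ℂ) (χ (0 : ZMod p)) * χ (0 + d) = 0 := by
    rw [MulChar.map_zero, map_zero, zero_mul]
  rw [← add_sum_erase univ _ (mem_univ (0 : ZMod p)), h0, zero_add]
  have h1 : ∑ y ∈ univ.erase (0 : ZMod p), (starRingEnd ℂ) (χ y) * χ (y + d) =
      ∑ z ∈ univ.erase (1 : ZMod p), χ z := by
    refine sum_nbij' (fun y => 1 + d * y⁻¹) (fun z => d * (z - 1)⁻¹) ?_ ?_ ?_ ?_ ?_
    · intro y hy
      rw [mem_erase] at hy ⊢
      refine ⟨fun h => ?_, mem_univ _⟩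
      have h2 : d * y⁻¹ = 0 := by
        have := congrArg (fun t => t - 1) h
        simpa using this
      rcases mul_eq_zero.1 h2 with h3 | h3
      · exact hd h3
      · exact hy.1 (inv_eq_zero.1 h3)
    · intro z hz
      rw [mem_erase] at hz ⊢
      refine ⟨fun h => ?_, mem_univ _⟩
      rcases mul_eq_zero.1 h with h3 | h3
      · exact hd h3
      · exact hz.1 (sub_eq_zero.1 (inv_eq_zero.1 h3))
    · intro y hy
      rw [mem_erase] at hy
      have hy0 := hy.1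
      rw [add_sub_cancel_left, mul_inv, inv_inv, ← mul_assoc, mul_inv_cancel₀ hd, one_mul]
    · intro z hz
      rw [mem_erase] at hz
      have hz0 : z - 1 ≠ 0 := sub_ne_zero.2 hz.1
      rw [mul_inv, inv_inv, ← mul_assoc, mul_inv_cancel₀ hd, one_mul]
      ring
    · intro y hy
      rw [mem_erase] at hy
      have hy0 := hy.1
      have e : y + d = y * (1 + d * y⁻¹) := by
        rw [mul_add, mul_one, mul_left_comm, mul_inv_cancel₀ hy0, mul_one]
      rw [e, map_mul, ← mul_assoc, conj_mul_self χ hy0, one_mul]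
  rw [h1]
  have h2 : ∑ z : ZMod p, χ z = 0 := MulChar.sum_eq_zero_of_ne_one hχ
  rw [← add_sum_erase univ _ (mem_univ (1 : ZMod p)), map_one] at h2
  linear_combination h2

end CharsXAux

open CharsXAux

theorem jacX {p h : ℕ} {φ : ℕ → ℂ} (hp : p.Prime) (hφ : IsCh p φ) (hh : h ≤ p) [NeZero p]
    {j j' : Fin h} (hj : j ≠ j') :
    ∑ x : ZMod p, (vr h φ x.val j * vr h φ x.val j' + vi h φ x.val j * vi h φ x.val j') = -1 := by
  have : Fact p.Prime := ⟨hp⟩
  obtain ⟨χ, hχ, hφ⟩ := hφ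
  have e : ∀ x : ZMod p, vr h φ x.val j * vr h φ x.val j' + vi h φ x.val j * vi h φ x.val j' =
      ((starRingEnd ℂ) (χ (x + (1 + (j : ℕ) : ZMod p))) *
        χ (x + (1 + (j : ℕ) : ZMod p) + ((j' : ℕ) - (j : ℕ) : ZMod p))).re := by
    intro x
    unfold vr vi
    rw [hφ, hφ]
    have e1 : (((x.val + 1 + (j : ℕ) : ℕ)) : ZMod p) = x + (1 + (j : ℕ) : ZMod p) := by
      push_cast
      rw [ZMod.natCast_zmod_val]
      ring
    have e2 : (((x.val + 1 + (j' : ℕ) : ℕ)) : ZMod p) =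
        x + (1 + (j : ℕ) : ZMod p) + ((j' : ℕ) - (j : ℕ) : ZMod p) := by
      push_cast
      rw [ZMod.natCast_zmod_val]
      ring
    rw [e1, e2, Complex.mul_re, Complex.conj_re, Complex.conj_im]
    ring
  rw [sum_congr rfl fun x _ => e x, ← Complex.re_sum]
  have hd : ((j' : ℕ) - (j : ℕ) : ZMod p) ≠ 0 := by
    intro h0
    have h1 : ((j' : ℕ) : ZMod p) = ((j : ℕ) : ZMod p) := sub_eq_zero.1 h0
    rw [ZMod.natCast_eq_natCast_iff] at h1
    have h2 := Nat.ModEq.eq_of_lt_of_lt h1 (lt_of_lt_of_le j'.2 hh) (lt_of_lt_of_le j.2 hh)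
    exact hj (Fin.ext h2.symm)
  have h3 : ∑ x : ZMod p, (starRingEnd ℂ) (χ (x + (1 + (j : ℕ) : ZMod p))) *
        χ (x + (1 + (j : ℕ) : ZMod p) + ((j' : ℕ) - (j : ℕ) : ZMod p)) = -1 := by
    rw [← sum_shift hχ _ hd]
    exact Fintype.sum_equiv (Equiv.addRight (1 + (j : ℕ) : ZMod p)) _ _ fun x => rfl
  rw [h3]
  simp

end Pool.Agent.P4f18dfX
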