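import Pool.Agent.Lib.P4f18dfX.Defs
import Pool.Agent.Lib.KeZhao.Divisor

/-!
# Pairs of close numbers with a given ratio modulo `q`

Module X.CntD.  `w = (z, z')`, `z = (m + l, m)`, `z' = (m' + l', m')` with `l, l'` nonzero integers, `|l|, |l'| < h`: the condition
`z.1 z'.2 ≡ z.2 z'.1 (mod q)` is `l m' ≡ l' m (mod q)`.  Case `L ≥ q`: for given `l, l', m` the class of `m'` modulo `q` is fixed (`l` is
invertible as `0 < |l| < h < q`), so at most `L / q + 1 ≤ 2 L / q` values: total `≤ (2h)^2 L (2L/q) = 8 h² L² / q`.  Case `L < q`: for given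
`(l', m)` put `t = l' m ≠ 0`, `|t| ≤ h L`; `s = l m'` is a nonzero integer, `|s| ≤ h L`, `s ≡ t (mod q)`: at most `2 h L / q + 1` values of
`s`, and each `s` has at most `card (divisors |s|) ≤ C (h L)^(ε/2) ≤ C q^ε` representations `l m'`.  Total
`≤ 2 h L (2 h L / q + 1) C q^ε`.
-/

set_option autoImplicit false

namespace Pool.Agent.P4f18dfX

open Finset

/-- pairs of different numbers up to `L` at distance less than `h`, prime to `q` -/
def PrD (q L h : ℕ) : Finset (ℕ × ℕ) :=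
  ((Icc 1 L) ×ˢ (Icc 1 L)).filter
    (fun z => z.1 ≠ z.2 ∧ ¬ q ∣ z.1 ∧ ¬ q ∣ z.2 ∧ z.1 < z.2 + h ∧ z.2 < z.1 + h)

namespace CntDAux

theorem cls_card {L q : ℕ} (A : Finset ℕ) (hA : ∀ x ∈ A, x ≤ L)
    (hmod : ∀ x ∈ A, ∀ y ∈ A, x % q = y % q) : A.card ≤ L / q + 1 := by
  have h1 : A.card ≤ (range (L / q + 1)).card := by
    apply Finset.card_le_card_of_injOn (fun x => x / q)
    · intro x hx
      simp only [coe_range, Set.mem_Iio]
      exact Nat.lt_succ_of_le (Nat.div_le_div_right (hA x hx))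
    · intro x hx y hy hxy
      have h2 := hmod x hx y hy
      have h3 := Nat.div_add_mod x q
      have h4 := Nat.div_add_mod y q
      simp only at hxy
      rw [hxy, h2] at h3
      exact h3.symm.trans h4
  simpa using h1

/-- the set to be counted -/
def SS (q L h : ℕ) : Finset ((ℕ × ℕ) × (ℕ × ℕ)) :=
  ((PrD q L h) ×ˢ (PrD q L h)).filter (fun w => (w.1.1 * w.2.2) % q = (w.1.2 * w.2.1) % q)

structure Prop4 (q L h a b c d : ℕ) : Prop where
  b1 : 1 ≤ b
  bL : b ≤ L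
  d1 : 1 ≤ d
  dL : d ≤ L
  ab : (a : ℤ) - b ≠ 0
  l1 : -(h : ℤ) < (a : ℤ) - b
  l2 : (a : ℤ) - b < h
  k1 : -(h : ℤ) < (c : ℤ) - d
  k2 : (c : ℤ) - d < h
  dv : (q : ℤ) ∣ ((a : ℤ) - b) * d - ((c : ℤ) - d) * b

theorem mem_SS {q L h : ℕ} {w : (ℕ × ℕ) × (ℕ × ℕ)} (hw : w ∈ SS q L h) :
    Prop4 q L h w.1.1 w.1.2 w.2.1 w.2.2 := by
  obtain ⟨⟨a, b⟩, ⟨c, d⟩⟩ := w
  unfold SS PrD at hw
  simp only [mem_filter, mem_product, mem_Icc] at hw
  obtain ⟨⟨⟨⟨⟨ha1, haL⟩, hb1, hbL⟩, hab, hqa, hqb, h1, h2⟩, ⟨⟨hc1, hcL⟩, hd1, hdL⟩, hcd, hqc, hqd, h3, h4⟩, hmod⟩ := hw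
  refine ⟨hb1, hbL, hd1, hdL, ?_, ?_, ?_, ?_, ?_, ?_⟩
  · intro h0
    apply hab
    have : (a : ℤ) = b := by linarith
    exact_mod_cast this
  · have : (b : ℤ) < a + h := by exact_mod_cast h2
    show -(h : ℤ) < (a : ℤ) - b
    linarith
  · have : (a : ℤ) < b + h := by exact_mod_cast h1
    show (a : ℤ) - b < h
    linarith
  · have : (d : ℤ) < c + h := by exact_mod_cast h4
    show -(h : ℤ) < (c : ℤ) - d
    linarith
  · have : (c : ℤ) < d + h := by exact_mod_cast h3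
    show (c : ℤ) - d < h
    linarith
  · have h5 : b * c ≡ a * d [MOD q] := hmod.symm
    have h6 := (Nat.modEq_iff_dvd).1 h5
    push_cast at h6
    have e : ((a : ℤ) - b) * d - ((c : ℤ) - d) * b = (a : ℤ) * d - b * c := by ring
    show (q : ℤ) ∣ ((a : ℤ) - b) * d - ((c : ℤ) - d) * b
    rw [e]
    exact h6

theorem card_J (h : ℕ) : (Ioo (-(h : ℤ)) h).card ≤ 2 * h := by
  rw [Int.card_Ioo]
  omega

theorem not_dvd {q h : ℕ} (hq : 2 * h ≤ q) {l : ℤ} (h0 : l ≠ 0) (h1 : -(h : ℤ) < l) (h2 : l < h) :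
    ¬ (q : ℤ) ∣ l := by
  intro hd
  apply h0
  refine Int.eq_zero_of_abs_lt_dvd hd ?_
  rw [abs_lt]
  have : (2 : ℤ) * h ≤ q := by exact_mod_cast hq
  have h3 : (0 : ℤ) ≤ h := Int.natCast_nonneg h
  constructor <;> linarith

/-- case `L ≥ q` -/
theorem case1 {q L h : ℕ} (hq : q.Prime) (hhq : 2 * h ≤ q) :
    (SS q L h).card ≤ (L / q + 1) * ((2 * h) * ((2 * h) * L)) := by
  classical
  set f : (ℕ × ℕ) × (ℕ × ℕ) → ℤ × ℤ × ℕ :=
    fun w => ((w.1.1 : ℤ) - w.1.2, (w.2.1 : ℤ) - w.2.2, w.1.2) with hf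
  have h1 : (SS q L h).card ≤ (L / q + 1) *
      ((Ioo (-(h : ℤ)) h) ×ˢ ((Ioo (-(h : ℤ)) h) ×ˢ (Icc 1 L))).card := by
    refine Finset.card_le_mul_card_image_of_maps_to (f := f) ?_ _ ?_
    · intro w hw
      have hp := mem_SS hw
      simp only [hf, mem_product, mem_Ioo, mem_Icc]
      exact ⟨⟨hp.l1, hp.l2⟩, ⟨hp.k1, hp.k2⟩, hp.b1, hp.bL⟩
    · rintro ⟨l, l', m⟩ _
      set F := (SS q L h).filter (fun w => f w = (l, l', m)) with hF
      have hFe : ∀ w ∈ F, w ∈ SS q L h ∧ (w.1.1 : ℤ) - w.1.2 = l ∧ (w.2.1 : ℤ) - w.2.2 = l' ∧ w.1.2 = m := by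
        intro w hw
        rw [hF, mem_filter] at hw
        simp only [hf, Prod.mk.injEq] at hw
        exact hw
      have hinj : Set.InjOn (fun w : (ℕ × ℕ) × (ℕ × ℕ) => w.2.2) (F : Set ((ℕ × ℕ) × (ℕ × ℕ))) := by
        rintro ⟨⟨a, b⟩, ⟨c, d⟩⟩ hw ⟨⟨a', b'⟩, ⟨c', d'⟩⟩ hw' hd
        obtain ⟨-, e1, e2, e3⟩ := hFe _ hw
        obtain ⟨-, e1', e2', e3'⟩ := hFe _ hw'
        simp only at hd e1 e2 e3 e1' e2' e3'
        subst hd
        have hb : b = b' := e3.trans e3'.symm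
        subst hb
        have ha : (a : ℤ) = a' := by linarith
        have hc : (c : ℤ) = c' := by linarith
        have ha' : a = a' := by exact_mod_cast ha
        have hc' : c = c' := by exact_mod_cast hc
        subst ha' hc'
        rfl
      rw [← Finset.card_image_of_injOn hinj]
      apply cls_card
      · intro x hx
        obtain ⟨w, hw, rfl⟩ := mem_image.1 hx
        exact (mem_SS (hFe w hw).1).dL
      · intro x hx y hy
        obtain ⟨w, hw, rfl⟩ := mem_image.1 hx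
        obtain ⟨w', hw', rfl⟩ := mem_image.1 hy
        obtain ⟨hs, e1, e2, e3⟩ := hFe w hw
        obtain ⟨hs', e1', e2', e3'⟩ := hFe w' hw'
        have hp := mem_SS hs
        have hp' := mem_SS hs'
        have hdv := hp.dv
        have hdv' := hp'.dv
        rw [e1, e2, e3] at hdv
        rw [e1', e2', e3'] at hdv'
        have h5 := dvd_sub hdv' hdv
        have e : l * (w'.2.2 : ℤ) - l' * (m : ℤ) - (l * (w.2.2 : ℤ) - l' * (m : ℤ)) =
            l * ((w'.2.2 : ℤ) - w.2.2) := by ring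
        rw [e] at h5
        have hl : ¬ (q : ℤ) ∣ l := by
          have h6 := hp.ab
          have h7 := hp.l1
          have h8 := hp.l2
          rw [e1] at h6 h7 h8
          exact not_dvd hhq h6 h7 h8
        have h9 := ((Nat.prime_iff_prime_int.1 hq).dvd_or_dvd h5).resolve_left hl
        exact (Nat.modEq_iff_dvd).2 h9
  refine h1.trans ?_
  rw [card_product, card_product, Nat.card_Icc, Nat.add_sub_cancel]
  have := card_J h
  gcongr

theorem case2 {q L h : ℕ} (hhq : 2 * h ≤ q) (hLq : L < q) {D : ℕ}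
    (hD : ∀ n : ℕ, 0 < n → n ≤ q ^ 2 → n.divisors.card ≤ D) :
    (SS q L h).card ≤ D * ((2 * h) * (L * (2 * h * L / q + 1))) := by
  classical
  set g : (ℕ × ℕ) × (ℕ × ℕ) → ℤ × ℕ × ℕ :=
    fun w => ((w.2.1 : ℤ) - w.2.2, w.1.2, ((((w.1.1 : ℤ) - w.1.2) * w.2.2 + h * L) / q).toNat) with hg
  have hqz : (0 : ℤ) < q := by
    have : 0 < q := by omega
    exact_mod_cast this
  have hs : ∀ w ∈ SS q L h, 0 ≤ ((w.1.1 : ℤ) - w.1.2) * w.2.2 + h * L ∧
      ((w.1.1 : ℤ) - w.1.2) * w.2.2 + h * L ≤ 2 * h * L ∧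
      ((w.1.1 : ℤ) - w.1.2) * w.2.2 ≠ 0 ∧ |((w.1.1 : ℤ) - w.1.2) * w.2.2| ≤ h * L := by
    intro w hw
    have hp := mem_SS hw
    have h1 : |((w.1.1 : ℤ) - w.1.2) * w.2.2| ≤ h * L := by
      rw [abs_mul]
      have h2 : |(w.1.1 : ℤ) - w.1.2| ≤ h := abs_le.2 ⟨hp.l1.le, hp.l2.le⟩
      have h3 : |(w.2.2 : ℤ)| ≤ L := by
        rw [abs_of_nonneg (Int.natCast_nonneg _)]
        exact_mod_cast hp.dL
      exact mul_le_mul h2 h3 (abs_nonneg _) (Int.natCast_nonneg _)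
    have h4 := abs_le.1 h1
    refine ⟨by linarith [h4.1], by linarith [h4.2], ?_, h1⟩
    refine mul_ne_zero hp.ab ?_
    have : w.2.2 ≠ 0 := by
      have := hp.d1
      omega
    exact_mod_cast this
  have h1 : (SS q L h).card ≤ D *
      ((Ioo (-(h : ℤ)) h) ×ˢ ((Icc 1 L) ×ˢ (range (2 * h * L / q + 1)))).card := by
    refine Finset.card_le_mul_card_image_of_maps_to (f := g) ?_ _ ?_
    · intro w hw
      have hp := mem_SS hw
      obtain ⟨h2, h3, -, -⟩ := hs w hw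
      simp only [hg, mem_product, mem_Ioo, mem_Icc, mem_range]
      refine ⟨⟨hp.k1, hp.k2⟩, ⟨hp.b1, hp.bL⟩, ?_⟩
      have h4 : (((w.1.1 : ℤ) - w.1.2) * w.2.2 + h * L) / q ≤ ((2 * h * L / q : ℕ) : ℤ) := by
        push_cast
        exact Int.ediv_le_ediv hqz h3
      have h5 := Int.toNat_le_toNat h4
      rw [Int.toNat_natCast] at h5
      omega
    · rintro ⟨l', m, k⟩ _
      set F := (SS q L h).filter (fun w => g w = (l', m, k)) with hF
      have hFe : ∀ w ∈ F, w ∈ SS q L h ∧ (w.2.1 : ℤ) - w.2.2 = l' ∧ w.1.2 = m ∧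
          ((((w.1.1 : ℤ) - w.1.2) * w.2.2 + h * L) / q).toNat = k := by
        intro w hw
        rw [hF, mem_filter] at hw
        simp only [hg, Prod.mk.injEq] at hw
        exact hw
      have hsame : ∀ w ∈ F, ∀ w' ∈ F, ((w.1.1 : ℤ) - w.1.2) * w.2.2 = ((w'.1.1 : ℤ) - w'.1.2) * w'.2.2 := by
        intro w hw w' hw'
        obtain ⟨hm, e1, e2, e3⟩ := hFe w hw
        obtain ⟨hm', e1', e2', e3'⟩ := hFe w' hw'
        have hdv := (mem_SS hm).dv
        have hdv' := (mem_SS hm').dv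
        obtain ⟨s, hsd⟩ : ∃ s : ℤ, s = ((w.1.1 : ℤ) - w.1.2) * w.2.2 := ⟨_, rfl⟩
        obtain ⟨s', hsd'⟩ : ∃ s' : ℤ, s' = ((w'.1.1 : ℤ) - w'.1.2) * w'.2.2 := ⟨_, rfl⟩
        rw [← hsd, e1, e2] at hdv
        rw [← hsd', e1', e2'] at hdv'
        obtain ⟨a1, a2, -, -⟩ := hs w hm
        obtain ⟨a1', a2', -, -⟩ := hs w' hm'
        rw [← e3'] at e3
        have b1 : (0 : ℤ) ≤ (((w.1.1 : ℤ) - w.1.2) * w.2.2 + h * L) / q := Int.ediv_nonneg a1 hqz.le
        have b1' : (0 : ℤ) ≤ (((w'.1.1 : ℤ) - w'.1.2) * w'.2.2 + h * L) / q := Int.ediv_nonneg a1' hqz.le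
        have e4 : (((w.1.1 : ℤ) - w.1.2) * w.2.2 + h * L) / q =
            (((w'.1.1 : ℤ) - w'.1.2) * w'.2.2 + h * L) / q := by
          have := congrArg (fun n : ℕ => (n : ℤ)) e3
          simp only [Int.toNat_of_nonneg b1, Int.toNat_of_nonneg b1'] at this
          exact this
        rw [← hsd, ← hsd'] at e4
        rw [← hsd, ← hsd']
        have h5 : (q : ℤ) ∣ s - s' := by
          have := dvd_sub hdv hdv'
          have e : s - l' * (m : ℤ) - (s' - l' * (m : ℤ)) = s - s' := by ring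
          rwa [e] at this
        have h6 : (s + h * L) % q = (s' + h * L) % q := by
          apply Int.ModEq.symm
          rw [Int.modEq_iff_dvd]
          have e : s + (h : ℤ) * L - (s' + h * L) = s - s' := by ring
          rw [e]
          exact h5
        have h7 := Int.mul_ediv_add_emod (s + h * L) q
        have h8 := Int.mul_ediv_add_emod (s' + h * L) q
        rw [e4, h6] at h7
        linarith
      rcases F.eq_empty_or_nonempty with hemp | ⟨w0, hw0⟩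
      · rw [hemp]
        simp
      · obtain ⟨s0, hs0⟩ : ∃ s0 : ℤ, s0 = ((w0.1.1 : ℤ) - w0.1.2) * w0.2.2 := ⟨_, rfl⟩
        have hall : ∀ w ∈ F, ((w.1.1 : ℤ) - w.1.2) * w.2.2 = s0 := fun w hw => by
          rw [hs0]
          exact hsame w hw w0 hw0
        obtain ⟨-, -, c3, c4⟩ := hs w0 (hFe w0 hw0).1
        rw [← hs0] at c3 c4
        have hinj : Set.InjOn (fun w : (ℕ × ℕ) × (ℕ × ℕ) => w.2.2) (F : Set ((ℕ × ℕ) × (ℕ × ℕ))) := by
          rintro ⟨⟨a, b⟩, ⟨c, d⟩⟩ hw ⟨⟨a', b'⟩, ⟨c', d'⟩⟩ hw' hd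
          have t1 := hall _ hw
          have t2 := hall _ hw'
          obtain ⟨hm, e2, e3, -⟩ := hFe _ hw
          obtain ⟨-, e2', e3', -⟩ := hFe _ hw'
          have hd1 := (mem_SS hm).d1
          simp only at hd e2 e3 e2' e3' t1 t2 hd1
          subst hd
          have hb : b = b' := e3.trans e3'.symm
          subst hb
          have hd0 : (d : ℤ) ≠ 0 := by
            have : d ≠ 0 := by omega
            exact_mod_cast this
          have h9 : ((a : ℤ) - b) = ((a' : ℤ) - b) := mul_right_cancel₀ hd0 (t1.trans t2.symm)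
          have ha : (a : ℤ) = a' := by linarith
          have hc : (c : ℤ) = c' := by linarith
          have ha' : a = a' := by exact_mod_cast ha
          have hc' : c = c' := by exact_mod_cast hc
          subst ha' hc'
          rfl
        rw [← Finset.card_image_of_injOn hinj]
        have hn0 : 0 < s0.natAbs := Int.natAbs_pos.2 c3
        have hnq : s0.natAbs ≤ q ^ 2 := by
          have h10 : (s0.natAbs : ℤ) ≤ h * L := by
            rw [Int.natCast_natAbs]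
            exact c4
          have h11 : s0.natAbs ≤ h * L := by exact_mod_cast h10
          have h12 : h ≤ q := by omega
          calc s0.natAbs ≤ h * L := h11
            _ ≤ q * q := Nat.mul_le_mul h12 hLq.le
            _ = q ^ 2 := (sq q).symm
        refine le_trans (Finset.card_le_card ?_) (hD s0.natAbs hn0 hnq)
        intro x hx
        obtain ⟨w, hw, rfl⟩ := mem_image.1 hx
        rw [Nat.mem_divisors]
        refine ⟨?_, hn0.ne'⟩
        have h13 : (w.2.2 : ℤ) ∣ s0 := ⟨(w.1.1 : ℤ) - w.1.2, by rw [← hall w hw]; ring⟩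
        exact Int.natCast_dvd.1 h13
  refine h1.trans ?_
  rw [card_product, card_product, Nat.card_Icc, Nat.add_sub_cancel, card_range]
  have := card_J h
  gcongr

end CntDAux

open CntDAux

theorem countD (ε : ℝ) (hε : 0 < ε) : ∃ C : ℝ, 0 < C ∧ ∀ q L h : ℕ, q.Prime → 1 ≤ L → 1 ≤ h → h ≤ L →
    2 * h ≤ q →
    ((((PrD q L h) ×ˢ (PrD q L h)).filter
      (fun w => (w.1.1 * w.2.2) % q = (w.1.2 * w.2.1) % q)).card : ℝ) ≤
      C * (q : ℝ) ^ ε * (h * L + (h * L : ℝ) ^ 2 / q) := by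
  obtain ⟨C, hC, hdiv⟩ := Pool.Agent.KeZhao.divisor_bound (ε / 2) (by positivity)
  refine ⟨8 * C, by linarith, ?_⟩
  intro q L h hq hL hh hhL hhq
  have hq0 : 0 < q := hq.pos
  have hqr : (0 : ℝ) < q := by exact_mod_cast hq0
  have hq1 : (1 : ℝ) ≤ q := by exact_mod_cast hq0
  have hLr : (0 : ℝ) ≤ L := Nat.cast_nonneg L
  have hhr : (0 : ℝ) ≤ h := Nat.cast_nonneg h
  have hqe : (1 : ℝ) ≤ (q : ℝ) ^ ε := Real.one_le_rpow hq1 hε.le
  have hX : 0 ≤ (h * L : ℝ) ^ 2 / q := by positivity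
  have hY : (0 : ℝ) ≤ h * L := by positivity
  change ((SS q L h).card : ℝ) ≤ _
  rcases le_or_gt q L with hc | hc
  · have h1 := case1 (L := L) hq hhq
    have h2 : ((SS q L h).card : ℝ) ≤ (((L / q + 1) * ((2 * h) * ((2 * h) * L)) : ℕ) : ℝ) := by
      exact_mod_cast h1
    refine h2.trans ?_
    push_cast
    have h3 : ((L / q : ℕ) : ℝ) + 1 ≤ 2 * (L / q) := by
      have h4 : ((L / q : ℕ) : ℝ) ≤ (L : ℝ) / q := Nat.cast_div_le
      have h5 : (1 : ℝ) ≤ (L : ℝ) / q := by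
        rw [one_le_div hqr]
        exact_mod_cast hc
      linarith
    calc (((L / q : ℕ) : ℝ) + 1) * (2 * h * (2 * h * L)) ≤ (2 * (L / q)) * (2 * h * (2 * h * L)) := by
          gcongr
      _ = 8 * 1 * ((h * L : ℝ) ^ 2 / q) := by
          field_simp
          ring
      _ ≤ 8 * (C * (q : ℝ) ^ ε) * ((h * L : ℝ) ^ 2 / q) := by
          gcongr
          nlinarith
      _ ≤ 8 * (C * (q : ℝ) ^ ε) * (h * L + (h * L : ℝ) ^ 2 / q) := by
          gcongr
          linarith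
      _ = 8 * C * (q : ℝ) ^ ε * (h * L + (h * L : ℝ) ^ 2 / q) := by ring
  · have hD : ∀ n : ℕ, 0 < n → n ≤ q ^ 2 → n.divisors.card ≤ ⌊C * (q : ℝ) ^ ε⌋₊ := by
      intro n hn hnq
      apply Nat.le_floor
      refine (hdiv n hn).trans ?_
      have h1 : (n : ℝ) ≤ (q : ℝ) ^ 2 := by exact_mod_cast hnq
      have h2 : (n : ℝ) ^ (ε / 2) ≤ ((q : ℝ) ^ 2) ^ (ε / 2) :=
        Real.rpow_le_rpow (Nat.cast_nonneg n) h1 (by positivity)
      have h3 : ((q : ℝ) ^ 2) ^ (ε / 2) = (q : ℝ) ^ ε := by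
        rw [← Real.rpow_natCast, ← Real.rpow_mul hqr.le]
        congr 1
        push_cast
        ring
      rw [h3] at h2
      exact mul_le_mul_of_nonneg_left h2 (by linarith)
    have h1 := case2 hhq hc hD
    have h2 : ((SS q L h).card : ℝ) ≤
        ((⌊C * (q : ℝ) ^ ε⌋₊ * ((2 * h) * (L * (2 * h * L / q + 1))) : ℕ) : ℝ) := by
      exact_mod_cast h1
    refine h2.trans ?_
    push_cast
    have h4 : (⌊C * (q : ℝ) ^ ε⌋₊ : ℝ) ≤ C * (q : ℝ) ^ ε := Nat.floor_le (by positivity)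
    have h5 : ((2 * h * L / q : ℕ) : ℝ) ≤ (2 * h * L : ℝ) / q := by
      have := @Nat.cast_div_le ℝ _ _ _ (2 * h * L) q
      push_cast at this
      exact this
    have h6 : (0 : ℝ) ≤ C * (q : ℝ) ^ ε := by positivity
    calc (⌊C * (q : ℝ) ^ ε⌋₊ : ℝ) * (2 * h * (L * (((2 * h * L / q : ℕ) : ℝ) + 1)))
        ≤ (C * (q : ℝ) ^ ε) * (2 * h * (L * ((2 * h * L : ℝ) / q + 1))) := by
          gcongr
      _ = (C * (q : ℝ) ^ ε) * (2 * (h * L) + 4 * ((h * L : ℝ) ^ 2 / q)) := by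
          field_simp
          ring
      _ ≤ (C * (q : ℝ) ^ ε) * (8 * (h * L + (h * L : ℝ) ^ 2 / q)) := by
          gcongr
          linarith
      _ = 8 * C * (q : ℝ) ^ ε * (h * L + (h * L : ℝ) ^ 2 / q) := by ring

end Pool.Agent.P4f18dfX
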