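import Pool.Agent.Lib.P4f18dfW.Norm
import Pool.Agent.Lib.P4f18dfQ.Interp
import Pool.Agent.Lib.P4f18dfQ.IntM

/-!
# Twists of the Möbius function by all characters: definitions
-/

set_option autoImplicit false

namespace Pool.Agent.P4f18dfX

open Finset Pool.Agent.P4f18df Pool.Agent.P4f18dfQ Pool.Agent.P4f18dfW

/-- `φ` is a nonprincipal character modulo `p` (as a function on the natural numbers) -/
def IsCh (p : ℕ) (φ : ℕ → ℂ) : Prop :=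
  ∃ χ : DirichletCharacter ℂ p, χ ≠ 1 ∧ ∀ n : ℕ, φ n = χ (n : ZMod p)

/-- `μ(n) Re φ(n)` -/
noncomputable def fr (φ : ℕ → ℂ) (n : ℕ) : ℝ := (ArithmeticFunction.moebius n : ℝ) * (φ n).re

/-- `μ(n) Im φ(n)` -/
noncomputable def fi (φ : ℕ → ℂ) (n : ℕ) : ℝ := (ArithmeticFunction.moebius n : ℝ) * (φ n).im

/-- `∑_(a ≤ N) |∑_(a < n ≤ a + h) μ(n) φ(n)|²` -/
noncomputable def Uc (φ : ℕ → ℂ) (h N : ℕ) : ℝ := Uk (fr φ) h N + Uk (fi φ) h N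

/-- `(Re φ(a+1), …, Re φ(a+h))` -/
noncomputable def vr (h : ℕ) (φ : ℕ → ℂ) (a : ℕ) : Fin h → ℝ := fun i => (φ (a + 1 + i)).re

/-- `(Im φ(a+1), …, Im φ(a+h))` -/
noncomputable def vi (h : ℕ) (φ : ℕ → ℂ) (a : ℕ) : Fin h → ℝ := fun i => (φ (a + 1 + i)).im

/-- the matrix `Re (φ(a+i) conj φ(a+j))` without diagonal -/
noncomputable def rc (h : ℕ) (φ : ℕ → ℂ) (a : ℕ) : Matrix (Fin h) (Fin h) ℝ :=
  rk (vr h φ a) + rk (vi h φ a)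

/-- the sum over the primes of `B`, one character `φ p` for each -/
noncomputable def Ox (h : ℕ) (B : Finset ℕ) (φ : ℕ → ℕ → ℂ) (a : ℕ) : Matrix (Fin h) (Fin h) ℝ :=
  ∑ p ∈ B, rc h (φ p) a

lemma ch_per {p : ℕ} {φ : ℕ → ℂ} (h : IsCh p φ) (n : ℕ) : φ (n + p) = φ n := by
  obtain ⟨χ, -, h⟩ := h
  rw [h, h]
  simp

lemma ch_norm {p : ℕ} {φ : ℕ → ℂ} (h : IsCh p φ) (n : ℕ) : ‖φ n‖ ≤ 1 := by
  obtain ⟨χ, -, h⟩ := h
  rw [h]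
  exact χ.norm_le_one _

lemma ch_sq {p : ℕ} {φ : ℕ → ℂ} (h : IsCh p φ) (n : ℕ) : (φ n).re ^ 2 + (φ n).im ^ 2 ≤ 1 := by
  have h1 := ch_norm h n
  have h2 : ‖φ n‖ ^ 2 = (φ n).re ^ 2 + (φ n).im ^ 2 := by
    rw [Complex.sq_norm, Complex.normSq_apply]; ring
  rw [← h2]
  have h3 := norm_nonneg (φ n)
  nlinarith

lemma ch_dvd {p : ℕ} (hp : p.Prime) {φ : ℕ → ℂ} (h : IsCh p φ) {n : ℕ} (hn : p ∣ n) : φ n = 0 := by
  obtain ⟨χ, -, h⟩ := h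
  rw [h, (ZMod.natCast_eq_zero_iff n p).2 hn]
  have : Fact p.Prime := ⟨hp⟩
  exact χ.map_nonunit (by simp)

lemma ch_sq_one {p : ℕ} (hp : p.Prime) {φ : ℕ → ℂ} (h : IsCh p φ) {n : ℕ} (hn : ¬ p ∣ n) :
    (φ n).re ^ 2 + (φ n).im ^ 2 = 1 := by
  obtain ⟨χ, -, h⟩ := h
  have : Fact p.Prime := ⟨hp⟩
  have h1 : (n : ZMod p) ≠ 0 := fun h0 => hn ((ZMod.natCast_eq_zero_iff n p).1 h0)
  have h2 : ‖χ (n : ZMod p)‖ = 1 := by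
    have := χ.unit_norm_eq_one (Units.mk0 _ h1)
    simpa using this
  have h3 : ‖φ n‖ ^ 2 = (φ n).re ^ 2 + (φ n).im ^ 2 := by
    rw [Complex.sq_norm, Complex.normSq_apply]; ring
  rw [← h3, h, h2]
  norm_num

lemma abs_fr_le {p : ℕ} {φ : ℕ → ℂ} (h : IsCh p φ) (n : ℕ) : |fr φ n| ≤ 1 := by
  unfold fr
  rw [abs_mul]
  exact mul_le_one₀ (abs_moebius_le n) (abs_nonneg _) ((Complex.abs_re_le_norm _).trans (ch_norm h n))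

lemma abs_fi_le {p : ℕ} {φ : ℕ → ℂ} (h : IsCh p φ) (n : ℕ) : |fi φ n| ≤ 1 := by
  unfold fi
  rw [abs_mul]
  exact mul_le_one₀ (abs_moebius_le n) (abs_nonneg _) ((Complex.abs_im_le_norm _).trans (ch_norm h n))

end Pool.Agent.P4f18dfX
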