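import Pool.Agent.Lib.P4f18dfX.Defs

/-!
# From the integral over real `x` to the cumulative mean squares, for a pair of functions

Module X.IntX: adapt `integral_Ms_sq` of `Lib/P4f18dfQ/IntM.lean` (the lemmas `IntM.cell`, `IntM.integrable_all`, `IntM.part_le`,
`IntM.Uk_sub` for `f` and for `g`; only the last part changes: the two exact formulas are added before the hypothesis is used; the
partial cells contribute at most twice as much, whence the constant 20).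
-/

set_option autoImplicit false

namespace Pool.Agent.P4f18dfX

open Finset Pool.Agent.P4f18df Pool.Agent.P4f18dfQ MeasureTheory

namespace IntXAux

open IntM

/-- The integral over `[p, q]` up to the two partial cells. -/
lemma split {f : ℕ → ℝ} {H : ℝ} (hH : 1 ≤ H) {p q : ℝ} (p0 : 0 ≤ p) (pq : p ≤ q) :
    (∫ y in p..q, (Ms f (y + H / 2) H) ^ 2) =
      (1 - (H - ⌊H⌋₊)) * (Uk f ⌊H⌋₊ ⌊q⌋₊ - Uk f ⌊H⌋₊ ⌊p⌋₊) +
        (H - ⌊H⌋₊) * (Uk f (⌊H⌋₊ + 1) ⌊q⌋₊ - Uk f (⌊H⌋₊ + 1) ⌊p⌋₊) +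
        (∫ y in p..((⌊p⌋₊ + 1 : ℕ) : ℝ), (Ms f (y + H / 2) H) ^ 2) -
        ∫ y in q..((⌊q⌋₊ + 1 : ℕ) : ℝ), (Ms f (y + H / 2) H) ^ 2 := by
  set F : ℝ → ℝ := fun y => (Ms f (y + H / 2) H) ^ 2 with hF
  set A := ⌊p⌋₊ with hA
  set B := ⌊q⌋₊ with hB
  set m := ⌊H⌋₊ with hm
  have q0 : 0 ≤ q := p0.trans pq
  have a2 : p < A + 1 := Nat.lt_floor_add_one _
  have b2 : q < B + 1 := Nat.lt_floor_add_one _
  have AB : A ≤ B := Nat.floor_le_floor pq
  have hAc : ((A + 1 : ℕ) : ℝ) = A + 1 := by push_cast; ring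
  have hBc : ((B + 1 : ℕ) : ℝ) = B + 1 := by push_cast; ring
  have hABr : ((A + 1 : ℕ) : ℝ) ≤ ((B + 1 : ℕ) : ℝ) := by exact_mod_cast (by omega)
  have i1 : IntervalIntegrable F volume p ((A + 1 : ℕ) : ℝ) :=
    integrable_all f hH p0 (by rw [hAc]; exact a2.le)
  have i2 : IntervalIntegrable F volume ((A + 1 : ℕ) : ℝ) ((B + 1 : ℕ) : ℝ) :=
    integrable_all f hH (Nat.cast_nonneg _) hABr
  have i3 : IntervalIntegrable F volume p q := integrable_all f hH p0 pq
  have i4 : IntervalIntegrable F volume q ((B + 1 : ℕ) : ℝ) :=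
    integrable_all f hH q0 (by rw [hBc]; exact b2.le)
  have e2 : (∫ y in p..q, F y) + ∫ y in q..((B + 1 : ℕ) : ℝ), F y =
      (∫ y in p..((A + 1 : ℕ) : ℝ), F y) + ∫ y in ((A + 1 : ℕ) : ℝ)..((B + 1 : ℕ) : ℝ), F y := by
    rw [intervalIntegral.integral_add_adjacent_intervals i3 i4,
      intervalIntegral.integral_add_adjacent_intervals i1 i2]
  have e3 : ∫ y in ((A + 1 : ℕ) : ℝ)..((B + 1 : ℕ) : ℝ), F y =
      (1 - (H - m)) * (Uk f m B - Uk f m A) + (H - m) * (Uk f (m + 1) B - Uk f (m + 1) A) := by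
    have h1 := intervalIntegral.sum_integral_adjacent_intervals_Ico (f := F) (μ := volume)
      (a := fun k : ℕ => (k : ℝ)) (m := A + 1) (n := B + 1) (by omega)
      (fun k _ => (cell f hH k).1)
    rw [← h1, Uk_sub f m AB, Uk_sub f (m + 1) AB, Finset.mul_sum, Finset.mul_sum,
      ← Finset.sum_add_distrib]
    have h2 : Ico (A + 1) (B + 1) = Ioc A B := by
      ext n; simp only [Finset.mem_Ioc, Finset.mem_Ico]; omega
    rw [h2]
    exact Finset.sum_congr rfl fun a _ => (cell f hH a).2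
  rw [e3] at e2
  linarith

/-- Substitution. -/
lemma subst_int (f : ℕ → ℝ) (X H : ℝ) : (∫ x in X..(2 * X), (Ms f x H) ^ 2) =
    ∫ y in (X - H / 2)..(2 * X - H / 2), (Ms f (y + H / 2) H) ^ 2 := by
  have h1 := intervalIntegral.integral_comp_sub_right (a := X) (b := 2 * X)
    (fun y => (Ms f (y + H / 2) H) ^ 2) (H / 2)
  simp only [sub_add_cancel] at h1
  exact h1

lemma intble (f : ℕ → ℝ) {X H : ℝ} (hH : 1 ≤ H) (hHX : H ≤ X) :
    IntervalIntegrable (fun x => (Ms f x H) ^ 2) volume X (2 * X) := by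
  have h1 : IntervalIntegrable (fun y => (Ms f (y + H / 2) H) ^ 2) volume
      (X - H / 2) (2 * X - H / 2) := integrable_all f hH (by linarith) (by linarith)
  have h2 := h1.comp_sub_right (H / 2)
  simpa only [sub_add_cancel] using h2

end IntXAux

open IntM IntXAux

theorem integral_pair {f g : ℕ → ℝ} (hf : ∀ n, |f n| ≤ 1) (hg : ∀ n, |g n| ≤ 1) {X H τ : ℝ}
    (hH : 1 ≤ H) (hHX : H ≤ X) (hτ : 0 ≤ τ)
    (h : ∀ m : ℕ, (m = ⌊H⌋₊ ∨ m = ⌊H⌋₊ + 1) → ∀ N : ℕ, (N = ⌊X - H / 2⌋₊ ∨ N = ⌊2 * X - H / 2⌋₊) →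
      |Uk f m N + Uk g m N - c2 * m * N| ≤ τ * m * N) :
    |(∫ x in X..(2 * X), ((Ms f x H) ^ 2 + (Ms g x H) ^ 2)) / X - c2 * H| ≤
      (3 * τ + 20 * H / X) * H := by
  have e0 : (∫ x in X..(2 * X), ((Ms f x H) ^ 2 + (Ms g x H) ^ 2)) =
      (∫ x in X..(2 * X), (Ms f x H) ^ 2) + ∫ x in X..(2 * X), (Ms g x H) ^ 2 :=
    intervalIntegral.integral_add (intble f hH hHX) (intble g hH hHX)
  rw [e0, subst_int f, subst_int g]
  have p0 : 0 ≤ X - H / 2 := by linarith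
  have pq : X - H / 2 ≤ 2 * X - H / 2 := by linarith
  have sf := split (f := f) hH p0 pq
  have sg := split (f := g) hH p0 pq
  set p := X - H / 2 with hp
  set q := 2 * X - H / 2 with hq
  set A := ⌊p⌋₊ with hA
  set B := ⌊q⌋₊ with hB
  set m := ⌊H⌋₊ with hm
  have hX0 : 0 < X := by linarith
  have q0 : 0 ≤ q := by linarith
  have a1 : (A : ℝ) ≤ p := Nat.floor_le p0
  have a2 : p < A + 1 := Nat.lt_floor_add_one _
  have b1 : (B : ℝ) ≤ q := Nat.floor_le q0
  have b2 : q < B + 1 := Nat.lt_floor_add_one _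
  have m1 : (m : ℝ) ≤ H := Nat.floor_le (by linarith)
  have m2 : H < m + 1 := Nat.lt_floor_add_one _
  have m0 : (0 : ℝ) ≤ m := Nat.cast_nonneg m
  have hA0 : (0 : ℝ) ≤ A := Nat.cast_nonneg A
  have hB0 : (0 : ℝ) ≤ B := Nat.cast_nonneg B
  obtain ⟨u1, u2⟩ := part_le hf hH a1 a2.le
  obtain ⟨v1, v2⟩ := part_le hf hH b1 b2.le
  obtain ⟨u3, u4⟩ := part_le hg hH a1 a2.le
  obtain ⟨v3, v4⟩ := part_le hg hH b1 b2.le
  -- the hypotheses
  have h1 := h m (Or.inl rfl) A (Or.inl rfl)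
  have h2 := h m (Or.inl rfl) B (Or.inr rfl)
  have h3 := h (m + 1) (Or.inr rfl) A (Or.inl rfl)
  have h4 := h (m + 1) (Or.inr rfl) B (Or.inr rfl)
  rw [abs_le] at h1 h2 h3 h4
  push_cast at h3 h4
  set θ := H - (m : ℝ) with hθ
  have t0 : 0 ≤ θ := by linarith
  have t1 : 0 ≤ 1 - θ := by linarith
  have hmH : (m : ℝ) + θ = H := by linarith
  set U1 := Uk f m A
  set U2 := Uk f m B
  set U3 := Uk f (m + 1) A
  set U4 := Uk f (m + 1) B
  set V1 := Uk g m A
  set V2 := Uk g m B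
  set V3 := Uk g (m + 1) A
  set V4 := Uk g (m + 1) B
  have k1 : (1 - θ) * (U2 - U1) + θ * (U4 - U3) + ((1 - θ) * (V2 - V1) + θ * (V4 - V3)) -
      c2 * H * (B - A) ≤ τ * H * (A + B) := by
    have g1 := mul_le_mul_of_nonneg_left h2.2 t1
    have g2 := mul_le_mul_of_nonneg_left h1.1 t1
    have g3 := mul_le_mul_of_nonneg_left h4.2 t0
    have g4 := mul_le_mul_of_nonneg_left h3.1 t0
    have : c2 * H * (B - A) = c2 * (m + θ) * (B - A) := by rw [hmH]
    have e : τ * H * (A + B) = τ * (m + θ) * (A + B) := by rw [hmH]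
    rw [this, e]
    linear_combination g1 + g2 + g3 + g4
  have k2 : -(τ * H * (A + B)) ≤ (1 - θ) * (U2 - U1) + θ * (U4 - U3) +
      ((1 - θ) * (V2 - V1) + θ * (V4 - V3)) - c2 * H * (B - A) := by
    have g1 := mul_le_mul_of_nonneg_left h2.1 t1
    have g2 := mul_le_mul_of_nonneg_left h1.2 t1
    have g3 := mul_le_mul_of_nonneg_left h4.1 t0
    have g4 := mul_le_mul_of_nonneg_left h3.2 t0
    have : c2 * H * (B - A) = c2 * (m + θ) * (B - A) := by rw [hmH]
    have e : τ * H * (A + B) = τ * (m + θ) * (A + B) := by rw [hmH]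
    rw [this, e]
    linear_combination g1 + g2 + g3 + g4
  have k3 : τ * H * (A + B) ≤ 3 * τ * H * X := by
    have : (A : ℝ) + B ≤ 3 * X := by linarith
    have h5 : 0 ≤ τ * H := by positivity
    linear_combination mul_le_mul_of_nonneg_left this h5
  have c0 := c2_pos
  have c1 := c2_le
  have k4 : c2 * H * (B - A) - c2 * H * X ≤ H := by
    have h5 : (B : ℝ) - A - X ≤ 1 := by linarith
    have h6 : 0 ≤ c2 * H := by positivity
    have h7 : c2 * H ≤ H := mul_le_of_le_one_left (by linarith) c1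
    linear_combination mul_le_mul_of_nonneg_left h5 h6 + h7
  have k5 : -H ≤ c2 * H * (B - A) - c2 * H * X := by
    have h5 : -1 ≤ (B : ℝ) - A - X := by linarith
    have h6 : 0 ≤ c2 * H := by positivity
    have h7 : c2 * H ≤ H := mul_le_of_le_one_left (by linarith) c1
    linear_combination mul_le_mul_of_nonneg_left h5 h6 + h7
  have hHH : H ≤ H ^ 2 := by nlinarith
  set I := (∫ y in p..q, (Ms f (y + H / 2) H) ^ 2) + ∫ y in p..q, (Ms g (y + H / 2) H) ^ 2 with hI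
  have key : |I - c2 * H * X| ≤ 3 * τ * H * X + 20 * H ^ 2 := by
    rw [hI, sf, sg, abs_le]
    constructor
    · linear_combination k2 + k3 + k5 + u1 + v2 + u3 + v4 + hHH + 11 * sq_nonneg H
    · linear_combination k1 + k3 + k4 + u2 + v1 + u4 + v3 + hHH + 11 * sq_nonneg H
  have e4 : I / X - c2 * H = (I - c2 * H * X) / X := by
    field_simp
  rw [e4, abs_div, abs_of_pos hX0, div_le_iff₀ hX0]
  refine key.trans (le_of_eq ?_)
  field_simp

end Pool.Agent.P4f18dfX
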