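import Pool.Agent.Lib.P4f18dfX.NetX
import Pool.Agent.Lib.P4f18dfX.IntX

/-!
# The variance for all characters modulo almost all primes
-/

set_option autoImplicit false

namespace Pool.Agent.P4f18dfX

open Finset Filter MeasureTheory Pool.Agent.P4f18dfQ Pool.Agent.P4f18df

/-- the sum of `μ(n) φ(n)` over `|n - x| < H/2` -/
noncomputable def Mc (φ : ℕ → ℂ) (x H : ℝ) : ℂ :=
  ∑ n ∈ (Finset.range (⌊x + H⌋₊ + 1)).filter (fun n : ℕ => |(n : ℝ) - x| < H / 2),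
    (ArithmeticFunction.moebius n : ℂ) * φ n

lemma normSq_Mc (φ : ℕ → ℂ) (x H : ℝ) : ‖Mc φ x H‖ ^ 2 = (Ms (fr φ) x H) ^ 2 + (Ms (fi φ) x H) ^ 2 := by
  have h1 : (Mc φ x H).re = Ms (fr φ) x H := by
    unfold Mc Ms fr
    rw [Complex.re_sum]
    refine Finset.sum_congr rfl fun n _ => ?_
    simp [Complex.mul_re]
  have h2 : (Mc φ x H).im = Ms (fi φ) x H := by
    unfold Mc Ms fi
    rw [Complex.im_sum]
    refine Finset.sum_congr rfl fun n _ => ?_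
    simp [Complex.mul_im]
  rw [Complex.sq_norm, Complex.normSq_apply, h1, h2]
  ring

lemma ev_const (a K : ℝ) (ha : 0 < a) : ∀ᶠ P : ℕ in atTop, K ≤ (P : ℝ) ^ a :=
  ((tendsto_rpow_atTop ha).comp tendsto_natCast_atTop_atTop).eventually_ge_atTop K

/-- the common part: from the cumulative mean squares to the integral -/
lemma finishX {φ : ℕ → ℂ} {X H τ κ : ℝ} (hφ : ∀ n, ‖φ n‖ ≤ 1) (hH : 1 ≤ H) (hHX : H ≤ X) (hτ : 0 ≤ τ)
    (hκ : 3 * τ + 20 * H / X ≤ κ)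
    (h : ∀ m : ℕ, (m = ⌊H⌋₊ ∨ m = ⌊H⌋₊ + 1) → ∀ N : ℕ, (N = ⌊X - H / 2⌋₊ ∨ N = ⌊2 * X - H / 2⌋₊) →
      |Uc φ m N - c2 * m * N| ≤ τ * m * N) :
    |(∫ x in X..(2 * X), ‖Mc φ x H‖ ^ 2) / X - H / (Real.pi ^ 2 / 6)| ≤ κ * H := by
  have hr : ∀ n, |fr φ n| ≤ 1 := fun n => by
    unfold fr
    rw [abs_mul]
    exact mul_le_one₀ (abs_moebius_le n) (abs_nonneg _) ((Complex.abs_re_le_norm _).trans (hφ n))
  have hi : ∀ n, |fi φ n| ≤ 1 := fun n => by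
    unfold fi
    rw [abs_mul]
    exact mul_le_one₀ (abs_moebius_le n) (abs_nonneg _) ((Complex.abs_im_le_norm _).trans (hφ n))
  have h1 := integral_pair (f := fr φ) (g := fi φ) hr hi hH hHX hτ h
  have hc2 : c2 * H = H / (Real.pi ^ 2 / 6) := by
    unfold c2
    have : (Real.pi : ℝ) ≠ 0 := Real.pi_ne_zero
    field_simp
  rw [hc2] at h1
  simp only [normSq_Mc]
  exact h1.trans (mul_le_mul_of_nonneg_right hκ (by linarith))

theorem main_x (α η : ℝ) (hα : 0 < α) (hη : 0 < η) (hα1 : α < 1) : ∃ C c : ℝ, 0 < c ∧ ∃ P₀ : ℕ,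
    ∀ P : ℕ, P₀ ≤ P → ∃ B : Finset ℕ, (B.card : ℝ) ≤ (P : ℝ) ^ (α + η) ∧
      ∀ p : ℕ, p.Prime → P < p → p ≤ 2 * P → p ∉ B → ∀ χ : DirichletCharacter ℂ p, χ ≠ 1 →
        ∀ X : ℝ, (P : ℝ) ^ C ≤ X → X ≤ Real.exp ((P : ℝ) ^ c) →
          ∀ H : ℝ, 1 ≤ H → H ≤ (P : ℝ) ^ α →
            |(∫ x in X..(2 * X), ‖Mc (fun n => χ (n : ZMod p)) x H‖ ^ 2) / X - H / (Real.pi ^ 2 / 6)| ≤
              (P : ℝ) ^ (-c) * H := by
  set η' : ℝ := min η (1 - α) with hη'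
  have hη0 : 0 < η' := lt_min hη (by linarith)
  have hηη : η' ≤ η := min_le_left _ _
  have hη1 : α + η' ≤ 1 := by have := min_le_right η (1 - α); linarith
  obtain ⟨C₁, c₁, hc₁, hL⟩ := bad_x α η' hα hη0 hη1
  set c : ℝ := min c₁ ((1 - α) / 4) with hc
  have hc0 : 0 < c := lt_min hc₁ (by linarith)
  have hcc1 : c ≤ c₁ := min_le_left _ _
  have hcα : c ≤ (1 - α) / 4 := min_le_right _ _
  obtain ⟨P₁, hP₁⟩ := hL c hc0 hcc1
  obtain ⟨P₃, hP₃⟩ := eventually_atTop.1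
    (((ev_const c 6 hc0).and (ev_const ((1 - α) / 2) 40 (by linarith))).and
      ((eventually_ge_atTop P₁).and (eventually_ge_atTop 10)))
  refine ⟨C₁ + 1, c, hc0, P₃, ?_⟩
  intro P hP
  obtain ⟨⟨g1, g2⟩, g3, g4⟩ := hP₃ P hP
  have hPr : (10 : ℝ) ≤ P := by exact_mod_cast g4
  have hP0 : (0 : ℝ) < P := by linarith
  have hP1 : (1 : ℝ) ≤ P := by linarith
  obtain ⟨B, hB, hB'⟩ := hP₁ P g3
  refine ⟨B, ?_, ?_⟩
  · have h1 : (P : ℝ) ^ (α + η') ≤ (P : ℝ) ^ (α + η) :=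
      Real.rpow_le_rpow_of_exponent_le hP1 (by linarith)
    have h2 : 0 ≤ (P : ℝ) ^ (α + η') := by positivity
    linarith
  intro p hp hpP hpP2 hpB χ hχ X hX1 hX2 H hH1 hH2
  have hpPP : p ∈ PP P := mem_PP.2 ⟨⟨hpP, hpP2⟩, hp⟩
  have hch : IsCh p (fun n => χ (n : ZMod p)) := ⟨χ, hχ, fun _ => rfl⟩
  have hH0 : 0 < H := by linarith
  have hcc : (P : ℝ) ^ (-c) * (P : ℝ) ^ c = 1 := by
    rw [← Real.rpow_add hP0]; simp
  have hcpos : 0 < (P : ℝ) ^ (-c) := Real.rpow_pos_of_pos hP0 _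
  have hτ : (P : ℝ) ^ (-(2 * c)) = (P : ℝ) ^ (-c) * (P : ℝ) ^ (-c) := by
    rw [← Real.rpow_add hP0]; congr 1; ring
  have h3τ : 3 * (P : ℝ) ^ (-(2 * c)) ≤ (P : ℝ) ^ (-c) / 2 := by
    rw [hτ]; nlinarith
  have hm : ∀ m : ℕ, (m = ⌊H⌋₊ ∨ m = ⌊H⌋₊ + 1) → 1 ≤ m ∧ (m : ℝ) ≤ 2 * H := by
    intro m hm
    have hfl1 : 1 ≤ ⌊H⌋₊ := Nat.le_floor (by exact_mod_cast hH1)
    have hfl2 : ((⌊H⌋₊ : ℕ) : ℝ) ≤ H := Nat.floor_le hH0.le
    rcases hm with h | h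
    · exact ⟨by omega, by rw [h]; linarith⟩
    · exact ⟨by omega, by rw [h]; push_cast; linarith⟩
  have hC : (P : ℝ) ^ (C₁ + 1 : ℝ) = (P : ℝ) ^ C₁ * P := by
    rw [Real.rpow_add_one hP0.ne', Real.rpow_natCast]
  rw [hC] at hX1
  have hPC : (1 : ℝ) ≤ (P : ℝ) ^ C₁ := one_le_pow₀ hP1
  have hPX : (P : ℝ) ≤ X := by nlinarith
  have hX0 : 0 < X := by linarith
  have hHP : H ≤ P := by
    refine hH2.trans ?_
    calc (P : ℝ) ^ α ≤ (P : ℝ) ^ (1 : ℝ) :=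
          Real.rpow_le_rpow_of_exponent_le hP1 hα1.le
      _ = P := Real.rpow_one _
  have hHX : H ≤ X := by linarith
  have hNr : ∀ N : ℕ, (N = ⌊X - H / 2⌋₊ ∨ N = ⌊2 * X - H / 2⌋₊) → X / 3 ≤ N ∧ (N : ℝ) ≤ 2 * X := by
    intro N hN
    rcases hN with h | h
    · have h1 : X - H / 2 < ((⌊X - H / 2⌋₊ : ℕ) : ℝ) + 1 := Nat.lt_floor_add_one _
      have h2 : ((⌊X - H / 2⌋₊ : ℕ) : ℝ) ≤ X - H / 2 := Nat.floor_le (by linarith)
      rw [h]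
      exact ⟨by linarith, by linarith⟩
    · have h1 : 2 * X - H / 2 < ((⌊2 * X - H / 2⌋₊ : ℕ) : ℝ) + 1 := Nat.lt_floor_add_one _
      have h2 : ((⌊2 * X - H / 2⌋₊ : ℕ) : ℝ) ≤ 2 * X - H / 2 := Nat.floor_le (by linarith)
      rw [h]
      exact ⟨by linarith, by linarith⟩
  refine finishX (ch_norm hch) hH1 hHX (τ := (P : ℝ) ^ (-(2 * c))) (by positivity) ?_ ?_
  · have k1 : 20 * H / X ≤ (P : ℝ) ^ (-c) / 2 := by
      rw [div_le_iff₀ hX0]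
      have a1 : (P : ℝ) ^ α = P * (P : ℝ) ^ (-(1 - α)) := by
        rw [← Real.rpow_one_add' hP0.le (by linarith)]; congr 1; ring
      have a3 : (P : ℝ) ^ (-(1 - α)) * 40 ≤ (P : ℝ) ^ (-c) := by
        calc (P : ℝ) ^ (-(1 - α)) * 40 ≤ (P : ℝ) ^ (-(1 - α)) * (P : ℝ) ^ ((1 - α) / 2) :=
              mul_le_mul_of_nonneg_left g2 (by positivity)
          _ = (P : ℝ) ^ (-(1 - α) + (1 - α) / 2) := by rw [← Real.rpow_add hP0]
          _ ≤ (P : ℝ) ^ (-c) := Real.rpow_le_rpow_of_exponent_le hP1 (by linarith)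
      have a4 : H ≤ X * (P : ℝ) ^ (-(1 - α)) := by
        refine hH2.trans ?_
        rw [a1]
        exact mul_le_mul_of_nonneg_right hPX (by positivity)
      nlinarith
    linarith
  · intro m hm1 N hN1
    obtain ⟨m1, m2⟩ := hm m hm1
    obtain ⟨n1, n2⟩ := hNr N hN1
    refine hB' p hpPP hpB _ hch m m1 ?_ N ?_ ?_
    · linarith
    · nlinarith
    · linarith

end Pool.Agent.P4f18dfX
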