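import Pool.Agent.Lib.P4f18dfX.NetD
import Pool.Agent.Lib.P4f18dfX.FinX

/-!
# The variance for almost all characters modulo one prime
-/

set_option autoImplicit false

namespace Pool.Agent.P4f18dfX

open Finset Filter MeasureTheory Pool.Agent.P4f18dfQ Pool.Agent.P4f18df

theorem main_d (ε : ℝ) (hε : 0 < ε) : ∃ c : ℝ, 0 < c ∧ ∃ Q₀ : ℕ, ∀ q : ℕ, Q₀ ≤ q → q.Prime →
    ∃ B : Finset (DirichletCharacter ℂ q), (B.card : ℝ) ≤ (q : ℝ) ^ (1 - c) ∧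
      ∀ χ : DirichletCharacter ℂ q, χ ∉ B →
        ∀ X : ℝ, (q : ℝ) ^ ε ≤ X → X ≤ Real.exp ((q : ℝ) ^ c) →
          ∀ H : ℝ, 1 ≤ H → H ≤ X ^ (1 - ε) → H ≤ (q : ℝ) ^ (1 / 2 - ε) →
            |(∫ x in X..(2 * X), ‖Mc (fun n => χ (n : ZMod q)) x H‖ ^ 2) / X - H / (Real.pi ^ 2 / 6)| ≤
              (q : ℝ) ^ (-c) * H := by
  set e : ℝ := min ε (1 / 4) with he
  have he0 : 0 < e := lt_min hε (by norm_num)
  have heε : e ≤ ε := min_le_left _ _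
  have he1 : e ≤ 1 / 4 := min_le_right _ _
  obtain ⟨c₁, hc₁, hL⟩ := bad_d (e / 2) (by positivity) (by linarith)
  set c : ℝ := min c₁ (e ^ 2 / 2) with hc
  have hc0 : 0 < c := lt_min hc₁ (by positivity)
  have hcc1 : c ≤ c₁ := min_le_left _ _
  have hce : c ≤ e ^ 2 / 2 := min_le_right _ _
  obtain ⟨P₁, hP₁⟩ := hL c hc0 hcc1
  obtain ⟨P₃, hP₃⟩ := eventually_atTop.1
    (((ev_const c 6 hc0).and (ev_const (e ^ 2 / 2) 40 (by positivity))).and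
      (((ev_const (e / 2) 20 (by positivity)).and (eventually_ge_atTop P₁)).and
      (eventually_ge_atTop 10)))
  refine ⟨c, hc0, P₃, ?_⟩
  intro q hq hqp
  obtain ⟨⟨g1, g2⟩, ⟨g3, g4⟩, g6⟩ := hP₃ q hq
  have hqr : (10 : ℝ) ≤ q := by exact_mod_cast g6
  have hq0 : (0 : ℝ) < q := by linarith
  have hq1 : (1 : ℝ) ≤ q := by linarith
  obtain ⟨B, hB, hB'⟩ := hP₁ q g4 hqp
  refine ⟨B, hB, ?_⟩
  intro χ hχB X hX1 hX2 H hH1 hH2 hH3
  have hH0 : 0 < H := by linarith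
  have hcc : (q : ℝ) ^ (-c) * (q : ℝ) ^ c = 1 := by
    rw [← Real.rpow_add hq0]; simp
  have hcpos : 0 < (q : ℝ) ^ (-c) := Real.rpow_pos_of_pos hq0 _
  have hτ : (q : ℝ) ^ (-(2 * c)) = (q : ℝ) ^ (-c) * (q : ℝ) ^ (-c) := by
    rw [← Real.rpow_add hq0]; congr 1; ring
  have h3τ : 3 * (q : ℝ) ^ (-(2 * c)) ≤ (q : ℝ) ^ (-c) / 2 := by
    rw [hτ]; nlinarith
  have hm : ∀ m : ℕ, (m = ⌊H⌋₊ ∨ m = ⌊H⌋₊ + 1) → 1 ≤ m ∧ (m : ℝ) ≤ 2 * H := by
    intro m hm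
    have hfl1 : 1 ≤ ⌊H⌋₊ := Nat.le_floor (by exact_mod_cast hH1)
    have hfl2 : ((⌊H⌋₊ : ℕ) : ℝ) ≤ H := Nat.floor_le hH0.le
    rcases hm with h | h
    · exact ⟨by omega, by rw [h]; linarith⟩
    · exact ⟨by omega, by rw [h]; push_cast; linarith⟩
  have hXe : (q : ℝ) ^ e ≤ X := (Real.rpow_le_rpow_of_exponent_le hq1 heε).trans hX1
  have h20 : (20 : ℝ) ≤ (q : ℝ) ^ e :=
    g3.trans (Real.rpow_le_rpow_of_exponent_le hq1 (by linarith))
  have hX20 : 20 ≤ X := h20.trans hXe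
  have hX0 : 0 < X := by linarith
  have hX1' : 1 ≤ X := by linarith
  have hHe : H ≤ X ^ (1 - e) :=
    hH2.trans (Real.rpow_le_rpow_of_exponent_le hX1' (by linarith))
  have hHX : H ≤ X := by
    refine hHe.trans ?_
    calc X ^ (1 - e) ≤ X ^ (1 : ℝ) := Real.rpow_le_rpow_of_exponent_le hX1' (by linarith)
      _ = X := Real.rpow_one _
  have hNr : ∀ N : ℕ, (N = ⌊X - H / 2⌋₊ ∨ N = ⌊2 * X - H / 2⌋₊) → X / 3 ≤ N ∧ (N : ℝ) ≤ 2 * X := by
    intro N hN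
    rcases hN with h | h
    · have h1 : X - H / 2 < ((⌊X - H / 2⌋₊ : ℕ) : ℝ) + 1 := Nat.lt_floor_add_one _
      have h2 : ((⌊X - H / 2⌋₊ : ℕ) : ℝ) ≤ X - H / 2 := Nat.floor_le (by linarith)
      rw [h]
      exact ⟨by linarith, by linarith⟩
    · have h1 : 2 * X - H / 2 < ((⌊2 * X - H / 2⌋₊ : ℕ) : ℝ) + 1 := Nat.lt_floor_add_one _
      have h2 : ((⌊2 * X - H / 2⌋₊ : ℕ) : ℝ) ≤ 2 * X - H / 2 := Nat.floor_le (by linarith)
      rw [h]
      exact ⟨by linarith, by linarith⟩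
  -- `X ^ (e / 2) ≥ 40`
  have hXe4 : (40 : ℝ) ≤ X ^ (e / 2) := by
    calc (40 : ℝ) ≤ (q : ℝ) ^ (e ^ 2 / 2) := g2
      _ = ((q : ℝ) ^ e) ^ (e / 2) := by
          rw [← Real.rpow_mul hq0.le]; congr 1; ring
      _ ≤ X ^ (e / 2) := Real.rpow_le_rpow (by positivity) hXe (by positivity)
  refine finishX (fun n => χ.norm_le_one _) hH1 hHX (τ := (q : ℝ) ^ (-(2 * c))) (by positivity) ?_ ?_
  · have k1 : 20 * H / X ≤ (q : ℝ) ^ (-c) / 2 := by
      rw [div_le_iff₀ hX0]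
      have a1 : X ^ (1 - e) = X * X ^ (-e) := by
        rw [← Real.rpow_one_add' hX0.le (by linarith)]; congr 1
      have a2 : X ^ (-e) ≤ (q : ℝ) ^ (-(e ^ 2)) := by
        rw [Real.rpow_neg hX0.le, Real.rpow_neg hq0.le]
        apply inv_anti₀ (by positivity)
        calc (q : ℝ) ^ (e ^ 2) = ((q : ℝ) ^ e) ^ e := by
              rw [← Real.rpow_mul hq0.le]; congr 1; ring
          _ ≤ X ^ e := Real.rpow_le_rpow (by positivity) hXe (by positivity)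
      have a3 : (q : ℝ) ^ (-(e ^ 2)) * 40 ≤ (q : ℝ) ^ (-c) := by
        calc (q : ℝ) ^ (-(e ^ 2)) * 40 ≤ (q : ℝ) ^ (-(e ^ 2)) * (q : ℝ) ^ (e ^ 2 / 2) :=
              mul_le_mul_of_nonneg_left g2 (by positivity)
          _ = (q : ℝ) ^ (-(e ^ 2) + e ^ 2 / 2) := by rw [← Real.rpow_add hq0]
          _ ≤ (q : ℝ) ^ (-c) := Real.rpow_le_rpow_of_exponent_le hq1 (by nlinarith [sq_nonneg e])
      have a4 : H ≤ X * (q : ℝ) ^ (-(e ^ 2)) := by
        refine hHe.trans ?_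
        rw [a1]
        exact mul_le_mul_of_nonneg_left a2 hX0.le
      nlinarith
    linarith
  · intro m hm1 N hN1
    obtain ⟨m1, m2⟩ := hm m hm1
    obtain ⟨n1, n2⟩ := hNr N hN1
    have hN0 : (0 : ℝ) < N := by linarith
    refine hB' χ hχB m N m1 ?_ ?_ ?_ ?_
    · -- `m ≤ N ^ (1 - e / 2)`
      have b1 : X ^ (1 - e) * 40 ≤ X ^ (1 - e / 2) := by
        calc X ^ (1 - e) * 40 ≤ X ^ (1 - e) * X ^ (e / 2) :=
              mul_le_mul_of_nonneg_left hXe4 (by positivity)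
          _ = X ^ (1 - e / 2) := by rw [← Real.rpow_add hX0]; congr 1; ring
      have b2 : X ^ (1 - e / 2) ≤ 3 * (N : ℝ) ^ (1 - e / 2) := by
        have : X ≤ 3 * N := by linarith
        calc X ^ (1 - e / 2) ≤ (3 * (N : ℝ)) ^ (1 - e / 2) :=
              Real.rpow_le_rpow hX0.le this (by linarith)
          _ = 3 ^ (1 - e / 2) * (N : ℝ) ^ (1 - e / 2) := Real.mul_rpow (by norm_num) hN0.le
          _ ≤ 3 * (N : ℝ) ^ (1 - e / 2) := by
              refine mul_le_mul_of_nonneg_right ?_ (by positivity)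
              calc (3 : ℝ) ^ (1 - e / 2) ≤ 3 ^ (1 : ℝ) :=
                    Real.rpow_le_rpow_of_exponent_le (by norm_num) (by linarith)
                _ = 3 := Real.rpow_one _
      have b3 : 0 ≤ (N : ℝ) ^ (1 - e / 2) := by positivity
      linarith
    · -- `m ≤ q ^ (1/2 - e / 2)`
      have b0 : H ≤ (q : ℝ) ^ (1 / 2 - e) :=
        hH3.trans (Real.rpow_le_rpow_of_exponent_le hq1 (by linarith))
      have b1 : (q : ℝ) ^ (1 / 2 - e / 2) = (q : ℝ) ^ (1 / 2 - e) * (q : ℝ) ^ (e / 2) := by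
        rw [← Real.rpow_add hq0]; congr 1; ring
      have b2 : 0 ≤ (q : ℝ) ^ (1 / 2 - e) := by positivity
      rw [b1]
      nlinarith
    · -- `q ^ (e / 2) ≤ N`
      have b1 : (q : ℝ) ^ e = (q : ℝ) ^ (e / 2) * (q : ℝ) ^ (e / 2) := by
        rw [← Real.rpow_add hq0]; congr 1; ring
      have b2 : 0 ≤ (q : ℝ) ^ (e / 2) := by positivity
      have b3 : 20 * (q : ℝ) ^ (e / 2) ≤ X := by
        refine le_trans ?_ hXe
        rw [b1]
        exact mul_le_mul_of_nonneg_right g3 b2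
      linarith
    · linarith

end Pool.Agent.P4f18dfX
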