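import Pool.Agent.Lib.P4f18dfX.Defs

/-!
# From the net to all lengths and all scales, for a pair of functions

Module X.InterpX: `Lib/P4f18dfQ/Interp.lean` (`Uk_all`) for `Uk f m N + Uk g m N` (`Uk_up` and `Interp.cross` are applied to
`f` and `g` separately, since `Uk f ≤ Uk f + Uk g`; this doubles the constant 50).
-/

set_option autoImplicit false

namespace Pool.Agent.P4f18dfX

open Finset Pool.Agent.P4f18dfQ Pool.Agent.P4f18df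

theorem Uk_all2 {f g : ℕ → ℝ} {s E₁ E₂ N₀ : ℕ} {lam : ℝ} (hs : 2 ≤ s) (hlam : 0 ≤ lam)
    (hlam1 : lam ≤ 1)
    (h : ∀ m ∈ Net s E₁, 1 ≤ m → ∀ N ∈ Net s E₂, N₀ ≤ N →
      |Uk f m N + Uk g m N - c2 * m * N| ≤ lam * m * N) :
    ∀ m : ℕ, 1 ≤ m → m < 2 ^ E₁ → ∀ N : ℕ, 2 * N₀ ≤ N → 4 * N < 2 ^ (s + E₂) → m ≤ N →
      |Uk f m N + Uk g m N - c2 * m * N| ≤ (2 * lam + 100 * Real.sqrt (1 / 2 ^ s)) * m * N := by
  intro m hm1 hmE N hN₀ hNE hmN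
  have hc0 := c2_pos
  have hc1 := c2_le
  set r : ℝ := Real.sqrt (1 / 2 ^ s) with hr
  have hr0 : 0 ≤ r := Real.sqrt_nonneg _
  have hr2 : r ^ 2 = 1 / 2 ^ s := Real.sq_sqrt (by positivity)
  have h2s : (4:ℝ) ≤ 2 ^ s := by
    calc (4:ℝ) = 2 ^ 2 := by norm_num
      _ ≤ 2 ^ s := pow_le_pow_right₀ (by norm_num) hs
  have h2s' : 4 ≤ 2 ^ s := by
    calc 4 = 2 ^ 2 := by norm_num
      _ ≤ 2 ^ s := Nat.pow_le_pow_right (by norm_num) hs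
  have hk4 : r ^ 2 ≤ 1 / 4 := by
    rw [hr2]
    exact one_div_le_one_div_of_le (by norm_num) h2s
  have hr12 : r ≤ 1 / 2 := by nlinarith
  have hrr2 : r ^ 2 ≤ 1 / 2 * r := by
    rw [sq]; exact mul_le_mul_of_nonneg_right hr12 hr0
  have hks : r ^ 2 * 2 ^ s = 1 := by
    rw [hr2]; field_simp
  -- the net points
  obtain ⟨n₁, hn₁, n₂, hn₂, hn1, hn2, hn3⟩ := exists_net (s := s) (E := E₂) (n := N) (by omega)
  obtain ⟨k₁, hk₁, k₂, hk₂, hk1, hk2, hk3⟩ := exists_net (s := s) (E := E₂) (n := 2 * N) (by omega)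
  obtain ⟨m₁, hm₁, m₂, hm₂, hm1', hm2', hm3⟩ := exists_net (s := s) (E := E₁) (n := m)
    (lt_of_lt_of_le hmE (Nat.pow_le_pow_right (by norm_num) (by omega)))
  have hN1 : 1 ≤ N := le_trans hm1 hmN
  have hmr : (1:ℝ) ≤ m := by exact_mod_cast hm1
  have hNr : (1:ℝ) ≤ N := by exact_mod_cast hN1
  -- real forms
  have e1 : ((n₂:ℝ) - n₁) ≤ r ^ 2 * N := by
    have : (((n₂ - n₁ : ℕ) : ℝ)) * 2 ^ s ≤ N := by exact_mod_cast hn3
    rw [Nat.cast_sub (le_trans hn1 hn2)] at this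
    have h5 : ((n₂:ℝ) - n₁) = r ^ 2 * (((n₂:ℝ) - n₁) * 2 ^ s) := by
      calc ((n₂:ℝ) - n₁) = (r ^ 2 * 2 ^ s) * ((n₂:ℝ) - n₁) := by rw [hks]; ring
        _ = _ := by ring
    rw [h5]
    exact mul_le_mul_of_nonneg_left this (sq_nonneg r)
  have e2 : ((k₂:ℝ) - k₁) ≤ r ^ 2 * (2 * N) := by
    have : (((k₂ - k₁ : ℕ) : ℝ)) * 2 ^ s ≤ 2 * N := by exact_mod_cast hk3
    rw [Nat.cast_sub (le_trans hk1 hk2)] at this
    have h5 : ((k₂:ℝ) - k₁) = r ^ 2 * (((k₂:ℝ) - k₁) * 2 ^ s) := by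
      calc ((k₂:ℝ) - k₁) = (r ^ 2 * 2 ^ s) * ((k₂:ℝ) - k₁) := by rw [hks]; ring
        _ = _ := by ring
    rw [h5]
    exact mul_le_mul_of_nonneg_left this (sq_nonneg r)
  have e3 : ((m₂:ℝ) - m₁) ≤ r ^ 2 * m := by
    have : (((m₂ - m₁ : ℕ) : ℝ)) * 2 ^ s ≤ m := by exact_mod_cast hm3
    rw [Nat.cast_sub (le_trans hm1' hm2')] at this
    have h5 : ((m₂:ℝ) - m₁) = r ^ 2 * (((m₂:ℝ) - m₁) * 2 ^ s) := by
      calc ((m₂:ℝ) - m₁) = (r ^ 2 * 2 ^ s) * ((m₂:ℝ) - m₁) := by rw [hks]; ring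
        _ = _ := by ring
    rw [h5]
    exact mul_le_mul_of_nonneg_left this (sq_nonneg r)
  have f1 : (n₁:ℝ) ≤ N := by exact_mod_cast hn1
  have f2 : (N:ℝ) ≤ n₂ := by exact_mod_cast hn2
  have f3 : (m₁:ℝ) ≤ m := by exact_mod_cast hm1'
  have f4 : (m:ℝ) ≤ m₂ := by exact_mod_cast hm2'
  have f5 : (k₁:ℝ) ≤ 2 * N := by exact_mod_cast hk1
  have f6 : (2 * N:ℝ) ≤ k₂ := by exact_mod_cast hk2
  have hm₁0 : (0:ℝ) ≤ m₁ := by positivity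
  have hrN : r ^ 2 * (N:ℝ) ≤ 1 / 4 * N := mul_le_mul_of_nonneg_right hk4 (by linarith)
  have hrm : r ^ 2 * (m:ℝ) ≤ 1 / 4 * m := mul_le_mul_of_nonneg_right hk4 (by linarith)
  have g1 : (3 / 4 : ℝ) * N ≤ n₁ := by linarith
  have g2 : (3 / 4 : ℝ) * m ≤ m₁ := by linarith
  have hm₁1 : 1 ≤ m₁ := by
    rcases Nat.eq_zero_or_pos m₁ with h | h
    · rw [h] at g2; norm_num at g2; linarith
    · exact h
  have hN₀r : (2:ℝ) * N₀ ≤ N := by exact_mod_cast hN₀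
  have hN₀0 : (0:ℝ) ≤ N₀ := by positivity
  have hn₁0 : N₀ ≤ n₁ := by
    have : (N₀ : ℝ) ≤ n₁ := by linarith
    exact_mod_cast this
  have hn₂0 : N₀ ≤ n₂ := by omega
  have hk₂0 : N₀ ≤ k₂ := by omega
  -- step (1)
  have hU2 : ∀ e ≤ E₁, Uk f (2 ^ e) (2 * N) + Uk g (2 ^ e) (2 * N) ≤ 8 * 2 ^ e * (N : ℝ) := by
    intro e he
    have h1 := h (2 ^ e) (pow_mem_Net he) Nat.one_le_two_pow k₂ hk₂ hk₂0
    push_cast at h1
    have h2 := (abs_le.1 h1).2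
    have h3 := Interp.Uk_mono f (2 ^ e) hk2
    have h3' := Interp.Uk_mono g (2 ^ e) hk2
    have h4 : (0:ℝ) ≤ 2 ^ e := by positivity
    have h5 : (k₂:ℝ) ≤ 5 / 2 * N := by linarith
    have h6 : (0:ℝ) ≤ k₂ := by positivity
    have h7 : (0:ℝ) ≤ 2 ^ e * k₂ := by positivity
    have h8 : (2:ℝ) ^ e * k₂ ≤ 2 ^ e * (5 / 2 * N) := mul_le_mul_of_nonneg_left h5 h4
    have h9 : c2 * (2 ^ e * (k₂:ℝ)) ≤ 1 * (2 ^ e * k₂) := mul_le_mul_of_nonneg_right hc1 h7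
    have h10 : lam * (2 ^ e * (k₂:ℝ)) ≤ 1 * (2 ^ e * k₂) := mul_le_mul_of_nonneg_right hlam1 h7
    have h11 : (0:ℝ) ≤ 2 ^ e * (N:ℝ) := by positivity
    linarith
  have hBf : ∀ e ≤ E₁, Uk f (2 ^ e) (2 * N) ≤ 8 * 2 ^ e * (N : ℝ) := fun e he => by
    have h1 := hU2 e he
    have h2 := Interp.Uk_nonneg g (2 ^ e) (2 * N)
    linarith
  have hBg : ∀ e ≤ E₁, Uk g (2 ^ e) (2 * N) ≤ 8 * 2 ^ e * (N : ℝ) := fun e he => by
    have h1 := hU2 e he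
    have h2 := Interp.Uk_nonneg f (2 ^ e) (2 * N)
    linarith
  have hYf := Uk_up hBf (m - m₁)
    (lt_of_lt_of_le (by omega : m - m₁ < 2 ^ E₁) (Nat.pow_le_pow_right (by norm_num) (by omega)))
    m₁ (by omega)
  have hYg := Uk_up hBg (m - m₁)
    (lt_of_lt_of_le (by omega : m - m₁ < 2 ^ E₁) (Nat.pow_le_pow_right (by norm_num) (by omega)))
    m₁ (by omega)
  rw [Nat.cast_sub hm1'] at hYf hYg
  obtain ⟨M, hM⟩ : ∃ M : ℝ, M = (m:ℝ) * N := ⟨_, rfl⟩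
  have hM0 : 0 ≤ M := by rw [hM]; positivity
  have hmM : ((m:ℝ) - m₁) * N ≤ r ^ 2 * M := by
    have h1 : ((m:ℝ) - m₁) * N ≤ (r ^ 2 * m) * N :=
      mul_le_mul_of_nonneg_right (by linarith) (by linarith)
    subst hM
    linarith
  have hYf' : ∑ a ∈ Ioc 0 N, (Wd f (m - m₁) (a + m₁)) ^ 2 ≤ 50 * r ^ 2 * M := by
    linarith
  have hYg' : ∑ a ∈ Ioc 0 N, (Wd g (m - m₁) (a + m₁)) ^ 2 ≤ 50 * r ^ 2 * M := by
    linarith
  -- monotonicity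
  have hUu : Uk f m₁ N + Uk g m₁ N ≤ c2 * m₁ * N + (r ^ 2 + 5 / 4 * lam) * M := by
    have h1 := (abs_le.1 (h m₁ hm₁ hm₁1 n₂ hn₂ hn₂0)).2
    have h2 := Interp.Uk_mono f m₁ hn2
    have h2' := Interp.Uk_mono g m₁ hn2
    have h3 : (n₂:ℝ) ≤ N + r ^ 2 * N := by linarith
    have h4 : (n₂:ℝ) ≤ 5 / 4 * N := by linarith
    have h5 : (m₁:ℝ) * n₂ ≤ m₁ * (N + r ^ 2 * N) := mul_le_mul_of_nonneg_left h3 hm₁0
    have h6 : (m₁:ℝ) * n₂ ≤ m * (5 / 4 * N) :=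
      mul_le_mul f3 h4 (by positivity) (by positivity)
    have h7 : c2 * ((m₁:ℝ) * n₂) ≤ c2 * (m₁ * (N + r ^ 2 * N)) :=
      mul_le_mul_of_nonneg_left h5 hc0.le
    have h8 : lam * ((m₁:ℝ) * n₂) ≤ lam * (m * (5 / 4 * N)) :=
      mul_le_mul_of_nonneg_left h6 hlam
    have h9 : (m₁:ℝ) * N ≤ M := by
      rw [hM]; exact mul_le_mul_of_nonneg_right f3 (by linarith)
    have h10 : c2 * (r ^ 2 * ((m₁:ℝ) * N)) ≤ 1 * (r ^ 2 * M) := by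
      apply mul_le_mul hc1 (mul_le_mul_of_nonneg_left h9 (sq_nonneg r)) (by positivity)
        (by norm_num)
    subst hM
    linarith
  have hUl : c2 * m₁ * N - (r ^ 2 + lam) * M ≤ Uk f m₁ N + Uk g m₁ N := by
    have h1 := (abs_le.1 (h m₁ hm₁ hm₁1 n₁ hn₁ hn₁0)).1
    have h2 := Interp.Uk_mono f m₁ hn1
    have h2' := Interp.Uk_mono g m₁ hn1
    have h3 : (N:ℝ) - r ^ 2 * N ≤ n₁ := by linarith
    have h5 : (m₁:ℝ) * (N - r ^ 2 * N) ≤ m₁ * n₁ := mul_le_mul_of_nonneg_left h3 hm₁0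
    have h6 : (m₁:ℝ) * n₁ ≤ m * N :=
      mul_le_mul f3 f1 (by positivity) (by positivity)
    have h7 : c2 * ((m₁:ℝ) * (N - r ^ 2 * N)) ≤ c2 * (m₁ * n₁) :=
      mul_le_mul_of_nonneg_left h5 hc0.le
    have h8 : lam * ((m₁:ℝ) * n₁) ≤ lam * (m * N) :=
      mul_le_mul_of_nonneg_left h6 hlam
    have h9 : (m₁:ℝ) * N ≤ M := by
      rw [hM]; exact mul_le_mul_of_nonneg_right f3 (by linarith)
    have h10 : c2 * (r ^ 2 * ((m₁:ℝ) * N)) ≤ 1 * (r ^ 2 * M) := by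
      apply mul_le_mul hc1 (mul_le_mul_of_nonneg_left h9 (sq_nonneg r)) (by positivity)
        (by norm_num)
    subst hM
    linarith
  have hU52 : Uk f m₁ N + Uk g m₁ N ≤ 5 / 2 * M := by
    have h9 : (m₁:ℝ) * N ≤ M := by
      rw [hM]; exact mul_le_mul_of_nonneg_right f3 (by linarith)
    have h10 : c2 * ((m₁:ℝ) * N) ≤ 1 * M :=
      mul_le_mul hc1 h9 (by positivity) (by norm_num)
    have h11 : r ^ 2 * M ≤ 1 / 4 * M := mul_le_mul_of_nonneg_right hk4 hM0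
    have h12 : lam * M ≤ 1 * M := mul_le_mul_of_nonneg_right hlam1 hM0
    linarith
  -- Minkowski
  have mink : ∀ F : ℕ → ℝ, Uk F m₁ N ≤ 5 / 2 * M →
      ∑ a ∈ Ioc 0 N, (Wd F (m - m₁) (a + m₁)) ^ 2 ≤ 50 * r ^ 2 * M →
      |Uk F m N - Uk F m₁ N - ∑ a ∈ Ioc 0 N, (Wd F (m - m₁) (a + m₁)) ^ 2| ≤ 24 * r * M := by
    intro F hU hY
    have hcr := Interp.cross (Ioc 0 N) (fun a => Wd F m₁ a) (fun a => Wd F (m - m₁) (a + m₁))
      (A := 5 / 2 * M) (B := 50 * r ^ 2 * M) (C := 12 * r * M) hU hY (by positivity) (by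
        have : 0 ≤ r ^ 2 * M ^ 2 := by positivity
        calc 5 / 2 * M * (50 * r ^ 2 * M) = 125 * (r ^ 2 * M ^ 2) := by ring
          _ ≤ 144 * (r ^ 2 * M ^ 2) := by linarith
          _ = (12 * r * M) ^ 2 := by ring)
    beta_reduce at hcr
    have hUm : ∑ a ∈ Ioc 0 N, (Wd F m₁ a + Wd F (m - m₁) (a + m₁)) ^ 2 = Uk F m N := by
      unfold Uk
      apply Finset.sum_congr rfl
      intro a _
      rw [← Interp.Wd_add]
      congr 2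
      omega
    rw [hUm] at hcr
    have hU0 : ∑ a ∈ Ioc 0 N, (Wd F m₁ a) ^ 2 = Uk F m₁ N := rfl
    rw [hU0] at hcr
    linarith
  have hUf0 := Interp.Uk_nonneg f m₁ N
  have hUg0 := Interp.Uk_nonneg g m₁ N
  obtain ⟨c1, c3⟩ := abs_le.1 (mink f (by linarith) hYf')
  obtain ⟨d1, d3⟩ := abs_le.1 (mink g (by linarith) hYg')
  have hYf0 : 0 ≤ ∑ a ∈ Ioc 0 N, (Wd f (m - m₁) (a + m₁)) ^ 2 :=
    Finset.sum_nonneg (fun _ _ => sq_nonneg _)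
  have hYg0 : 0 ≤ ∑ a ∈ Ioc 0 N, (Wd g (m - m₁) (a + m₁)) ^ 2 :=
    Finset.sum_nonneg (fun _ _ => sq_nonneg _)
  have hrr : r ^ 2 * M ≤ (1 / 2 * r) * M := mul_le_mul_of_nonneg_right hrr2 hM0
  have hYfr : ∑ a ∈ Ioc 0 N, (Wd f (m - m₁) (a + m₁)) ^ 2 ≤ 25 * r * M := by
    linarith
  have hYgr : ∑ a ∈ Ioc 0 N, (Wd g (m - m₁) (a + m₁)) ^ 2 ≤ 25 * r * M := by
    linarith
  have hcm : c2 * m₁ * N ≤ c2 * M := by
    have h9 : (m₁:ℝ) * N ≤ M := by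
      rw [hM]; exact mul_le_mul_of_nonneg_right f3 (by linarith)
    have := mul_le_mul_of_nonneg_left h9 hc0.le
    linarith
  have hcm2 : c2 * M - r ^ 2 * M ≤ c2 * m₁ * N := by
    have h1 : ((m:ℝ) - r ^ 2 * m) ≤ m₁ := by linarith
    have h2 : ((m:ℝ) - r ^ 2 * m) * N ≤ m₁ * N := mul_le_mul_of_nonneg_right h1 (by linarith)
    have h3 := mul_le_mul_of_nonneg_left h2 hc0.le
    have h4 : c2 * (r ^ 2 * M) ≤ 1 * (r ^ 2 * M) :=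
      mul_le_mul_of_nonneg_right hc1 (by positivity)
    subst hM
    linarith
  have hlM : 0 ≤ lam * M := by positivity
  have hrM : 0 ≤ r * M := by positivity
  have hgoal : |Uk f m N + Uk g m N - c2 * M| ≤ (2 * lam + 100 * r) * M := by
    rw [abs_le]
    constructor <;> linarith
  rw [hM] at hgoal
  calc |Uk f m N + Uk g m N - c2 * m * N| = |Uk f m N + Uk g m N - c2 * (m * N)| := by
        rw [mul_assoc]
    _ ≤ (2 * lam + 100 * r) * (m * N) := hgoal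
    _ = _ := by ring

end Pool.Agent.P4f18dfX
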