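import Pool.Agent.Lib.P4f18dfX.Defs
import Pool.Agent.Lib.P4f18dfW.Quad

/-!
# The sum of the mean squares over a set of primes, complex characters

Module X.QuadX: adapt `Lib/P4f18dfW/Quad.lean` (`QuadAux` may be used): `Wd (fr φ) h a ^ 2 + Wd (fi φ) h a ^ 2 =
diagonal + ∑_ij μ_i (rc h φ a)_ij μ_j`, the diagonal is `∑_i μ(a+1+i)^2 (Re² + Im²)` with `Re² + Im² = 1` if `p ∤ a+1+i`
(`ch_sq_one`) and `0` otherwise (`ch_dvd`).
-/

set_option autoImplicit false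

namespace Pool.Agent.P4f18dfX

open Matrix Finset Pool.Agent.P4f18dfQ Pool.Agent.P4f18df Pool.Agent.P4f18dfW

namespace QuadXAux

open Pool.Agent.P4f18dfW.QuadAux

lemma rk_symm {h : ℕ} (v : Fin h → ℝ) : (rk v).IsHermitian := by
  apply Matrix.IsHermitian.ext
  intro i j
  rw [star_trivial]
  simp only [rk, Matrix.of_apply]
  by_cases hij : i = j
  · subst hij; rfl
  · rw [if_neg hij, if_neg (Ne.symm hij), mul_comm]

lemma Ox_symm (h : ℕ) (B : Finset ℕ) (φ : ℕ → ℕ → ℂ) (a : ℕ) : (Ox h B φ a).IsHermitian := by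
  unfold Ox
  apply Matrix.IsHermitian.ext
  intro i j
  rw [star_trivial, Matrix.sum_apply, Matrix.sum_apply]
  refine Finset.sum_congr rfl fun p _ => ?_
  have h1 : (rc h (φ p) a).IsHermitian := (rk_symm _).add (rk_symm _)
  have h2 := h1.apply i j
  rwa [star_trivial] at h2

/-- the diagonal -/
noncomputable def dc (h : ℕ) (φ : ℕ → ℂ) (a : ℕ) : ℝ :=
  ∑ i : Fin h, ((mv h a i * vr h φ a i) ^ 2 + (mv h a i * vi h φ a i) ^ 2)

lemma lin_sq {h : ℕ} (m v : Fin h → ℝ) : (∑ i, m i * v i) ^ 2 =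
    ∑ i, (m i * v i) ^ 2 + ∑ i, ∑ j, m i * rk v i j * m j := by
  rw [sq, Finset.sum_mul_sum, ← Finset.sum_add_distrib]
  refine Finset.sum_congr rfl fun i _ => ?_
  have h1 : (m i * v i) ^ 2 =
      ∑ j, if i = j then (m i * v i) * (m j * v j) else 0 := by
    rw [Finset.sum_ite_eq Finset.univ i, if_pos (mem_univ i), sq]
  rw [h1, ← Finset.sum_add_distrib]
  refine Finset.sum_congr rfl fun j _ => ?_
  simp only [rk, Matrix.of_apply]
  by_cases hij : i = j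
  · rw [if_pos hij, if_pos hij]; ring
  · rw [if_neg hij, if_neg hij]; ring

lemma Wd_fr (φ : ℕ → ℂ) (h a : ℕ) : Wd (fr φ) h a = ∑ i : Fin h, mv h a i * vr h φ a i := by
  unfold Wd
  rw [sum_Ioc_eq]
  rfl

lemma Wd_fi (φ : ℕ → ℂ) (h a : ℕ) : Wd (fi φ) h a = ∑ i : Fin h, mv h a i * vi h φ a i := by
  unfold Wd
  rw [sum_Ioc_eq]
  rfl

lemma Wd_sq (φ : ℕ → ℂ) (h a : ℕ) : Wd (fr φ) h a ^ 2 + Wd (fi φ) h a ^ 2 =
    dc h φ a + ∑ i, ∑ j, mv h a i * rc h φ a i j * mv h a j := by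
  rw [Wd_fr, Wd_fi, lin_sq, lin_sq]
  unfold dc rc
  have h1 : ∑ i, ∑ j, mv h a i * (rk (vr h φ a) + rk (vi h φ a)) i j * mv h a j =
      ∑ i, ∑ j, mv h a i * rk (vr h φ a) i j * mv h a j +
        ∑ i, ∑ j, mv h a i * rk (vi h φ a) i j * mv h a j := by
    rw [← Finset.sum_add_distrib]
    refine Finset.sum_congr rfl fun i _ => ?_
    rw [← Finset.sum_add_distrib]
    refine Finset.sum_congr rfl fun j _ => ?_
    rw [Matrix.add_apply]
    ring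
  rw [h1, Finset.sum_add_distrib]
  ring

lemma sum_Wd_sq (B : Finset ℕ) (φ : ℕ → ℕ → ℂ) (h a : ℕ) :
    ∑ p ∈ B, (Wd (fr (φ p)) h a ^ 2 + Wd (fi (φ p)) h a ^ 2) =
    ∑ p ∈ B, dc h (φ p) a + ∑ i, ∑ j, mv h a i * Ox h B φ a i j * mv h a j := by
  rw [Finset.sum_congr rfl fun p _ => Wd_sq (φ p) h a, Finset.sum_add_distrib]
  congr 1
  rw [Finset.sum_comm]
  refine Finset.sum_congr rfl fun i _ => ?_
  rw [Finset.sum_comm]
  refine Finset.sum_congr rfl fun j _ => ?_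
  unfold Ox
  rw [Matrix.sum_apply, Finset.mul_sum, Finset.sum_mul]

lemma abs_quad (B : Finset ℕ) (φ : ℕ → ℕ → ℂ) (h a : ℕ) :
    |∑ i, ∑ j, mv h a i * Ox h B φ a i j * mv h a j| ≤ nr (Ox h B φ a) * h :=
  (abs_quad_le (Ox_symm h B φ a) _).trans
    (mul_le_mul_of_nonneg_left (sum_mv_sq_le h a) (nr_nonneg _))

/-- the diagonal is the one of the real case -/
lemma dc_eq {p : ℕ} (hp : p.Prime) {φ : ℕ → ℂ} (hφ : IsCh p φ) (h a : ℕ) :
    dc h φ a = dg h p a := by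
  rw [dg_eq hp]
  unfold dc
  refine Finset.sum_congr rfl fun i _ => ?_
  unfold mv vr vi
  rw [mul_pow, mul_pow, ← mul_add]
  by_cases hd : p ∣ a + 1 + i
  · rw [ch_dvd hp hφ hd, if_neg (fun h => h.2 hd)]
    simp
  · rw [ch_sq_one hp hφ hd, mul_one]
    by_cases hs : Squarefree (a + 1 + (i : ℕ))
    · rw [if_pos ⟨hs, hd⟩]
      have := ArithmeticFunction.moebius_sq_eq_one_of_squarefree hs
      exact_mod_cast this
    · rw [if_neg (fun h => hs h.1), ArithmeticFunction.moebius_eq_zero_of_not_squarefree hs]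
      simp

lemma sum_nr_le {h N k : ℕ} {R : ℝ} (B : Finset ℕ) (φ : ℕ → ℕ → ℂ) (hN : 1 ≤ N) (hk : 1 ≤ k)
    (hR : 0 ≤ R)
    (hT : (∑ a ∈ Ioc 0 N, (Ox h B φ a ^ (2 * k)).trace) / N ≤ R ^ (2 * k)) :
    ∑ a ∈ Ioc 0 N, nr (Ox h B φ a) ≤ N * R := by
  have hN0 : (0 : ℝ) < N := by exact_mod_cast hN
  have hcard : ((Ioc 0 N).card : ℝ) = N := by rw [Nat.card_Ioc]; simp
  have h1 := Real.pow_arith_mean_le_arith_mean_pow (Ioc 0 N) (fun _ => (N : ℝ)⁻¹)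
    (fun a => nr (Ox h B φ a)) (fun _ _ => by positivity)
    (by rw [Finset.sum_const, nsmul_eq_mul, hcard, mul_inv_cancel₀ hN0.ne'])
    (fun a _ => nr_nonneg _) (2 * k)
  rw [← Finset.mul_sum, ← Finset.mul_sum] at h1
  have h2 : (N : ℝ)⁻¹ * ∑ a ∈ Ioc 0 N, nr (Ox h B φ a) ^ (2 * k) ≤ R ^ (2 * k) := by
    refine le_trans ?_ hT
    rw [div_eq_inv_mul]
    exact mul_le_mul_of_nonneg_left (Finset.sum_le_sum fun a _ =>
      pow_le_trace (Ox_symm h B φ a) hk) (by positivity)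
  have h3 := le_of_pow_le_pow_left₀ (by omega : 2 * k ≠ 0) hR (h1.trans h2)
  rw [inv_mul_le_iff₀ hN0] at h3
  exact h3

lemma Uc_eq (φ : ℕ → ℂ) (h N : ℕ) : Uc φ h N =
    ∑ a ∈ Ioc 0 N, (Wd (fr φ) h a ^ 2 + Wd (fi φ) h a ^ 2) := by
  unfold Uc Uk
  rw [Finset.sum_add_distrib]

end QuadXAux

open QuadXAux Pool.Agent.P4f18dfW.QuadAux in
theorem sum_Uc {P h N k : ℕ} {R : ℝ} (B : Finset ℕ) (φ : ℕ → ℕ → ℂ) (hB : B ⊆ PP P)
    (hφ : ∀ p ∈ B, IsCh p (φ p)) (hP : 1 ≤ P) (hh : 1 ≤ h)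
    (hhN : h ≤ N) (hk : 1 ≤ k) (hR : 0 ≤ R)
    (hT : (∑ a ∈ Ioc 0 N, (Ox h B φ a ^ (2 * k)).trace) / N ≤ R ^ (2 * k)) :
    |∑ p ∈ B, (Uc (φ p) h N - c2 * h * N)| ≤
      h * N * R + B.card * (10 * h * Real.sqrt N + 2 * h * N / P) := by
  have h0 : ∀ p ∈ B, ∀ a, dc h (φ p) a = dg h p a := fun p hp a =>
    dc_eq ((mem_PP.1 (hB hp)).2) (hφ p hp) h a
  have h1 : ∑ p ∈ B, (Uc (φ p) h N - c2 * h * N) =
      ∑ p ∈ B, (∑ a ∈ Ioc 0 N, dg h p a - c2 * h * N) +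
        ∑ a ∈ Ioc 0 N, ∑ i, ∑ j, mv h a i * Ox h B φ a i j * mv h a j := by
    rw [Finset.sum_sub_distrib, Finset.sum_sub_distrib]
    have h2 : ∑ p ∈ B, Uc (φ p) h N = ∑ p ∈ B, ∑ a ∈ Ioc 0 N, dg h p a +
        ∑ a ∈ Ioc 0 N, ∑ i, ∑ j, mv h a i * Ox h B φ a i j * mv h a j := by
      rw [Finset.sum_congr rfl fun p _ => Uc_eq (φ p) h N]
      rw [Finset.sum_comm, Finset.sum_congr rfl fun a _ => QuadXAux.sum_Wd_sq B φ h a,
        Finset.sum_add_distrib, Finset.sum_comm]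
      congr 1
      refine Finset.sum_congr rfl fun p hp => Finset.sum_congr rfl fun a _ => ?_
      rw [h0 p hp a]
    rw [h2]
    ring
  rw [h1]
  refine (abs_add_le _ _).trans ?_
  have h3 : |∑ p ∈ B, (∑ a ∈ Ioc 0 N, dg h p a - c2 * h * N)| ≤
      B.card * (10 * h * Real.sqrt N + 2 * h * N / P) := by
    refine (Finset.abs_sum_le_sum_abs _ _).trans ?_
    refine (Finset.sum_le_sum fun p hp => abs_diag (hB hp) hP hhN).trans ?_
    rw [Finset.sum_const, nsmul_eq_mul]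
  have h4 : |∑ a ∈ Ioc 0 N, ∑ i, ∑ j, mv h a i * Ox h B φ a i j * mv h a j| ≤ h * N * R := by
    refine (Finset.abs_sum_le_sum_abs _ _).trans ?_
    refine (Finset.sum_le_sum fun a _ => QuadXAux.abs_quad B φ h a).trans ?_
    rw [← Finset.sum_mul]
    have := QuadXAux.sum_nr_le B φ (hh.trans hhN) hk hR hT
    calc (∑ a ∈ Ioc 0 N, nr (Ox h B φ a)) * h ≤ (N * R) * h :=
          mul_le_mul_of_nonneg_right this (Nat.cast_nonneg _)
      _ = h * N * R := by ring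
  linarith

end Pool.Agent.P4f18dfX
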