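import Pool.Agent.Lib.P4f18dfX.MomX
import Pool.Agent.Lib.P4f18dfX.QuadX
import Pool.Agent.Lib.P4f18dfW.LargeA

/-!
# The exceptional primes for one length and one scale, all characters

Module X.LargeX: as `Lib/P4f18dfW/LargeA.lean`; if more than `b` primes have a bad character, choose one for each.
-/

set_option autoImplicit false

namespace Pool.Agent.P4f18dfX

open Finset Pool.Agent.P4f18dfQ Pool.Agent.P4f18df Pool.Agent.P4f18dfW

namespace LargeXAux

lemma arithX {x α η h b N : ℝ} {k : ℕ} (hx : 1 ≤ x) (hα : 0 < α) (hη : 0 < η) (hαη : α + η ≤ 1)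
    (hk : 16 ≤ k * η) (hh0 : 0 ≤ h) (hh : h ≤ x ^ α) (hb : x ^ (α + η / 2) ≤ b) (hbx : b ≤ x)
    (hN : x ^ (6 * k + 2) ≤ N) (hK : 3 * (4 ^ k * (200 * k : ℝ) ^ (2 * k)) ≤ x) :
    h * 4 ^ k * ((200 * k : ℝ) ^ (2 * k) * h ^ (k + 2) * b ^ k + (b * h / x) ^ (2 * k)) +
      (2 * h * b) ^ (2 * k) * (2 * x) ^ (2 * k) / N ≤ (b * x ^ (-(η / 10))) ^ (2 * k) := by
  have hx0 : 0 < x := by linarith
  have hα1 : α ≤ 1 := by linarith
  have hb1 : 1 ≤ b := le_trans (Real.one_le_rpow hx (by positivity)) hb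
  have hb0 : 0 < b := by linarith
  have hk1 : 1 ≤ k := by
    by_contra h0
    have : k = 0 := by omega
    subst this
    norm_num at hk
  have hkr : (1 : ℝ) ≤ k := by exact_mod_cast hk1
  set K : ℝ := 4 ^ k * (200 * k : ℝ) ^ (2 * k) with hKdef
  have h16K : (16 : ℝ) ^ k ≤ K := by
    rw [hKdef, pow_mul, ← mul_pow]
    refine pow_le_pow_left₀ (by norm_num) ?_ k
    nlinarith
  have h4K : (4 : ℝ) ^ k ≤ K := (pow_le_pow_left₀ (by norm_num) (by norm_num) k).trans h16K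
  have hy : (x ^ (-(η / 10))) ^ (2 * k) = x ^ (-(k * η / 5)) := by
    rw [← Real.rpow_natCast, ← Real.rpow_mul hx0.le]
    congr 1
    push_cast
    ring
  have hR : (b * x ^ (-(η / 10))) ^ (2 * k) = b ^ (2 * k) * x ^ (-(k * η / 5)) := by
    rw [mul_pow, hy]
  have hbk : x ^ ((k : ℝ) * (α + η / 2)) ≤ b ^ k := by
    rw [mul_comm, Real.rpow_mul hx0.le, Real.rpow_natCast]
    exact pow_le_pow_left₀ (Real.rpow_nonneg hx0.le _) hb k
  have hxx : 3 * K ≤ x ^ (1 : ℝ) := by rw [Real.rpow_one]; exact hK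
  -- term 1
  have t1 : 3 * (h * 4 ^ k * ((200 * k : ℝ) ^ (2 * k) * h ^ (k + 2) * b ^ k)) ≤
      b ^ (2 * k) * x ^ (-(k * η / 5)) := by
    have e1 : h ^ (k + 3) ≤ x ^ (α * (k + 3)) := by
      rw [Real.rpow_mul hx0.le]
      have : (x ^ α) ^ ((k : ℝ) + 3) = (x ^ α) ^ (k + 3) := by
        rw [← Real.rpow_natCast]; congr 1; push_cast; ring
      rw [this]
      exact pow_le_pow_left₀ hh0 hh _
    have e2 : 3 * K * x ^ (α * (k + 3)) ≤ b ^ k * x ^ (-(k * η / 5)) := by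
      calc 3 * K * x ^ (α * (k + 3)) ≤ x ^ (1 : ℝ) * x ^ (α * (k + 3)) :=
            mul_le_mul_of_nonneg_right hxx (Real.rpow_nonneg hx0.le _)
        _ = x ^ (1 + α * (k + 3)) := by rw [← Real.rpow_add hx0]
        _ ≤ x ^ ((k : ℝ) * (α + η / 2) + -(k * η / 5)) := by
            refine Real.rpow_le_rpow_of_exponent_le hx ?_
            nlinarith
        _ = x ^ ((k : ℝ) * (α + η / 2)) * x ^ (-(k * η / 5)) := by rw [Real.rpow_add hx0]
        _ ≤ b ^ k * x ^ (-(k * η / 5)) :=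
            mul_le_mul_of_nonneg_right hbk (Real.rpow_nonneg hx0.le _)
    calc 3 * (h * 4 ^ k * ((200 * k : ℝ) ^ (2 * k) * h ^ (k + 2) * b ^ k))
        = 3 * K * h ^ (k + 3) * b ^ k := by rw [hKdef]; ring
      _ ≤ 3 * K * x ^ (α * (k + 3)) * b ^ k := by
          have hK0 : 0 ≤ 3 * K := by positivity
          exact mul_le_mul_of_nonneg_right (mul_le_mul_of_nonneg_left e1 hK0) (by positivity)
      _ ≤ (b ^ k * x ^ (-(k * η / 5))) * b ^ k := mul_le_mul_of_nonneg_right e2 (by positivity)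
      _ = b ^ (2 * k) * x ^ (-(k * η / 5)) := by rw [two_mul k, pow_add]; ring
  -- term 2
  have t2 : 3 * (h * 4 ^ k * (b * h / x) ^ (2 * k)) ≤ b ^ (2 * k) * x ^ (-(k * η / 5)) := by
    have e1 : (h / x) ^ (2 * k) ≤ x ^ ((α - 1) * (2 * k)) := by
      rw [Real.rpow_mul hx0.le]
      have e0 : (x ^ (α - 1)) ^ ((2 : ℝ) * k) = (x ^ (α - 1)) ^ (2 * k) := by
        rw [← Real.rpow_natCast]; congr 1; push_cast; ring
      rw [e0]
      refine pow_le_pow_left₀ (by positivity) ?_ _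
      rw [Real.rpow_sub hx0, Real.rpow_one]
      exact div_le_div_of_nonneg_right hh hx0.le
    have e2 : 3 * (h * 4 ^ k) * (h / x) ^ (2 * k) ≤ x ^ (-(k * η / 5)) := by
      have e3 : 3 * (h * 4 ^ k) ≤ x ^ (1 : ℝ) * x ^ α := by
        have h4 : (0 : ℝ) ≤ 4 ^ k := by positivity
        calc 3 * (h * 4 ^ k) = (3 * 4 ^ k) * h := by ring
          _ ≤ (3 * K) * h := mul_le_mul_of_nonneg_right (by linarith) hh0
          _ ≤ x ^ (1 : ℝ) * x ^ α := mul_le_mul hxx hh hh0 (Real.rpow_nonneg hx0.le _)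
      calc 3 * (h * 4 ^ k) * (h / x) ^ (2 * k) ≤ (x ^ (1 : ℝ) * x ^ α) * x ^ ((α - 1) * (2 * k)) :=
            mul_le_mul e3 e1 (by positivity) (by positivity)
        _ = x ^ (1 + α + (α - 1) * (2 * k)) := by rw [← Real.rpow_add hx0, ← Real.rpow_add hx0]
        _ ≤ x ^ (-(k * η / 5)) := by
            refine Real.rpow_le_rpow_of_exponent_le hx ?_
            have h5 : (k : ℝ) * η ≤ k * (1 - α) := mul_le_mul_of_nonneg_left (by linarith) (by positivity)
            nlinarith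
    calc 3 * (h * 4 ^ k * (b * h / x) ^ (2 * k)) = b ^ (2 * k) * (3 * (h * 4 ^ k) * (h / x) ^ (2 * k)) := by
          rw [mul_div_assoc, mul_pow]; ring
      _ ≤ b ^ (2 * k) * x ^ (-(k * η / 5)) := mul_le_mul_of_nonneg_left e2 (by positivity)
  -- term 3
  have t3 : 3 * ((2 * h * b) ^ (2 * k) * (2 * x) ^ (2 * k) / N) ≤ b ^ (2 * k) * x ^ (-(k * η / 5)) := by
    have hN0 : 0 < N := lt_of_lt_of_le (by positivity) hN
    have hhx : h ≤ x := hh.trans (by
      calc x ^ α ≤ x ^ (1 : ℝ) := Real.rpow_le_rpow_of_exponent_le hx hα1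
        _ = x := Real.rpow_one x)
    have e1 : 3 * ((2 * h * b) ^ (2 * k) * (2 * x) ^ (2 * k) / N) ≤ 1 := by
      rw [← mul_div_assoc, div_le_one hN0]
      refine le_trans ?_ hN
      calc 3 * ((2 * h * b) ^ (2 * k) * (2 * x) ^ (2 * k)) ≤
            3 * ((2 * x * x) ^ (2 * k) * (2 * x) ^ (2 * k)) := by gcongr
        _ = (3 * 16 ^ k) * x ^ (6 * k) := by
            have : (16 : ℝ) ^ k = 2 ^ (2 * k) * 2 ^ (2 * k) := by
              rw [← pow_add, ← two_mul, ← mul_assoc, pow_mul]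
              norm_num
            rw [this]
            ring
        _ ≤ x * x ^ (6 * k) := by
            refine mul_le_mul_of_nonneg_right ?_ (by positivity)
            linarith
        _ ≤ x ^ (6 * k + 2) := by
            have : x ^ (6 * k + 2) = x * x ^ (6 * k) * x := by ring
            rw [this]
            nlinarith [show 0 ≤ x * x ^ (6 * k) by positivity]
    refine e1.trans ?_
    have e2 : 1 ≤ b ^ k * x ^ (-(k * η / 5)) := by
      calc (1 : ℝ) ≤ x ^ ((k : ℝ) * (α + η / 2) + -(k * η / 5)) := by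
            refine Real.one_le_rpow hx ?_
            nlinarith [show 0 < (k : ℝ) * α by positivity, show 0 < (k : ℝ) * η by positivity]
        _ = x ^ ((k : ℝ) * (α + η / 2)) * x ^ (-(k * η / 5)) := by rw [Real.rpow_add hx0]
        _ ≤ b ^ k * x ^ (-(k * η / 5)) :=
            mul_le_mul_of_nonneg_right hbk (Real.rpow_nonneg hx0.le _)
    calc (1 : ℝ) ≤ b ^ k * x ^ (-(k * η / 5)) := e2
      _ ≤ b ^ (2 * k) * x ^ (-(k * η / 5)) := by
          refine mul_le_mul_of_nonneg_right ?_ (Real.rpow_nonneg hx0.le _)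
          exact pow_le_pow_right₀ hb1 (by omega)
  rw [hR]
  have e := mul_add (h * 4 ^ k) ((200 * k : ℝ) ^ (2 * k) * h ^ (k + 2) * b ^ k) ((b * h / x) ^ (2 * k))
  rw [e]
  linarith

open Classical in
/-- one sign -/
lemma one_sideX {k P h N b : ℕ} {lam R : ℝ} (hP : 1 ≤ P) (hh : 1 ≤ h) (hhN : h ≤ N) (hk : 1 ≤ k)
    (hR : 0 ≤ R)
    (hT : ∀ B ⊆ PP P, ∀ φ : ℕ → ℕ → ℂ, (∀ p ∈ B, IsCh p (φ p)) → B.card = b →
      (∑ a ∈ Ioc 0 N, (Ox h B φ a ^ (2 * k)).trace) / N ≤ R ^ (2 * k))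
    (hc : h * N * R + b * (10 * h * Real.sqrt N + 2 * h * N / P) ≤ b * (lam * h * N))
    (hb : 1 ≤ b) (s : ℝ) (hs : s = 1 ∨ s = -1) :
    ((PP P).filter (fun p => ∃ φ : ℕ → ℂ, IsCh p φ ∧ lam * h * N < s * (Uc φ h N - c2 * h * N))).card ≤ b := by
  by_contra hcon
  push Not at hcon
  obtain ⟨B, hB1, hB2⟩ := Finset.exists_subset_card_eq hcon.le
  have hBP : B ⊆ PP P := hB1.trans (filter_subset _ _)
  have hex : ∀ p : ℕ, ∃ φ : ℕ → ℂ, p ∈ B → IsCh p φ ∧ lam * h * N < s * (Uc φ h N - c2 * h * N) := by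
    intro p
    by_cases hp : p ∈ B
    · obtain ⟨φ, hφ⟩ := (mem_filter.1 (hB1 hp)).2
      exact ⟨φ, fun _ => hφ⟩
    · exact ⟨fun _ => 0, fun h => absurd h hp⟩
  choose φ hφ using hex
  have hφ1 : ∀ p ∈ B, IsCh p (φ p) := fun p hp => (hφ p hp).1
  have h1 := sum_Uc B φ hBP hφ1 hP hh hhN hk hR (hT B hBP φ hφ1 hB2)
  have h2 : ∑ p ∈ B, (lam * h * N) < ∑ p ∈ B, s * (Uc (φ p) h N - c2 * h * N) := by
    refine Finset.sum_lt_sum_of_nonempty ?_ (fun p hp => (hφ p hp).2)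
    rw [← Finset.card_pos]
    omega
  rw [Finset.sum_const, hB2, nsmul_eq_mul, ← Finset.mul_sum] at h2
  rw [hB2] at h1
  have h3 : s * ∑ p ∈ B, (Uc (φ p) h N - c2 * h * N) ≤ |∑ p ∈ B, (Uc (φ p) h N - c2 * h * N)| := by
    rcases hs with rfl | rfl
    · rw [one_mul]; exact le_abs_self _
    · rw [neg_one_mul]; exact neg_le_abs _
  linarith

end LargeXAux

open LargeXAux

open Classical in
theorem large_x (α η : ℝ) (hα : 0 < α) (hη : 0 < η) (hαη : α + η ≤ 1) : ∃ C : ℕ, ∃ P₀ : ℕ,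
    ∀ P : ℕ, P₀ ≤ P → ∀ h : ℕ, 1 ≤ h → (h : ℝ) ≤ (P : ℝ) ^ α → ∀ N : ℕ, P ^ C ≤ N →
      ∃ B : Finset ℕ, (B.card : ℝ) ≤ (P : ℝ) ^ (α + η) ∧
        ∀ p ∈ PP P, p ∉ B → ∀ φ : ℕ → ℂ, IsCh p φ →
          |Uc φ h N - c2 * h * N| ≤ (P : ℝ) ^ (-(η / 20)) * h * N := by
  obtain ⟨k, hk⟩ := exists_nat_ge (16 / η)
  have hk' : 16 ≤ k * η := by rwa [div_le_iff₀ hη] at hk
  have hk1 : 1 ≤ k := by
    by_contra h0
    have : k = 0 := by omega
    subst this
    norm_num at hk'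
  have hev : ∀ a K : ℝ, 0 < a → ∀ᶠ P : ℕ in Filter.atTop, K ≤ (P : ℝ) ^ a := fun a K ha =>
    ((tendsto_rpow_atTop ha).comp tendsto_natCast_atTop_atTop).eventually_ge_atTop K
  obtain ⟨P₀, hP₀⟩ := Filter.eventually_atTop.1
    (((hev (η / 2) 4 (by positivity)).and (hev (η / 20) 3 (by positivity))).and
      ((hev (1 / 2) 60 (by norm_num)).and (hev 1 (3 * (4 ^ k * (200 * k : ℝ) ^ (2 * k))) (by norm_num))))
  refine ⟨6 * k + 2, max P₀ 2, fun P hP h hh1 hhα N hN => ?_⟩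
  obtain ⟨⟨g1, g2⟩, g3, g4⟩ := hP₀ P ((le_max_left _ _).trans hP)
  have hP2 : 2 ≤ P := (le_max_right _ _).trans hP
  rw [Real.rpow_one] at g4
  set x : ℝ := (P : ℝ) with hx
  have hx1 : 1 ≤ x := by rw [hx]; exact_mod_cast (by omega : 1 ≤ P)
  have hx0 : 0 < x := by linarith
  set b : ℕ := ⌈x ^ (α + η / 2)⌉₊ with hb
  have hpw1 : 1 ≤ x ^ (α + η / 2) := Real.one_le_rpow hx1 (by positivity)
  have hb1 : x ^ (α + η / 2) ≤ b := Nat.le_ceil _
  have hb2 : (b : ℝ) ≤ 2 * x ^ (α + η / 2) := by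
    have := (Nat.ceil_lt_add_one (by positivity : 0 ≤ x ^ (α + η / 2))).le
    linarith
  have hsplit : x ^ (α + η) = x ^ (α + η / 2) * x ^ (η / 2) := by
    rw [← Real.rpow_add hx0]; congr 1; ring
  have hb3 : 2 * (b : ℝ) ≤ x ^ (α + η) := by
    rw [hsplit]
    nlinarith
  have hbx : (b : ℝ) ≤ x := by
    have h1 : x ^ (α + η) ≤ x ^ (1 : ℝ) := Real.rpow_le_rpow_of_exponent_le hx1 hαη
    rw [Real.rpow_one] at h1
    have : (0 : ℝ) ≤ b := Nat.cast_nonneg _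
    linarith
  have hb1' : 1 ≤ b := by
    have : (1 : ℝ) ≤ b := hpw1.trans hb1
    exact_mod_cast this
  have hhb : (h : ℝ) ≤ b := by
    refine hhα.trans (le_trans ?_ hb1)
    exact Real.rpow_le_rpow_of_exponent_le hx1 (by linarith)
  have hhb' : h ≤ b := by exact_mod_cast hhb
  have hhP : h ≤ P := by
    have : (h : ℝ) ≤ P := hhb.trans hbx
    exact_mod_cast this
  have hNr : x ^ (6 * k + 2) ≤ (N : ℝ) := by rw [hx]; exact_mod_cast hN
  have hPN : x ^ 2 ≤ (N : ℝ) := (pow_le_pow_right₀ hx1 (by omega)).trans hNr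
  have hN1 : 1 ≤ N := by
    have : (1 : ℝ) ≤ N := (one_le_pow₀ hx1).trans hNr
    exact_mod_cast this
  have hhN : h ≤ N := by
    have : (h : ℝ) ≤ N := by
      calc (h : ℝ) ≤ x := hhb.trans hbx
        _ ≤ x ^ 2 := by nlinarith
        _ ≤ N := hPN
    exact_mod_cast this
  have hN0 : (0 : ℝ) < N := by exact_mod_cast hN1
  have hh0 : (1 : ℝ) ≤ h := by exact_mod_cast hh1
  set R : ℝ := b * x ^ (-(η / 10)) with hR
  have hR0 : 0 ≤ R := by positivity
  have hT : ∀ B ⊆ PP P, ∀ φ : ℕ → ℕ → ℂ, (∀ p ∈ B, IsCh p (φ p)) → B.card = b →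
      (∑ a ∈ Ioc 0 N, (Ox h B φ a ^ (2 * k)).trace) / N ≤ R ^ (2 * k) := by
    intro B hB φ hφ hcard
    have h1 := momX (N := N) B φ hB hφ hP2 hh1 hhP hk1 hN1 (by rw [hcard]; exact hhb')
    rw [hcard] at h1
    refine h1.trans ?_
    have h2 := arithX (x := x) (h := h) (b := b) (N := N) (k := k) hx1 hα hη hαη hk' (by positivity) hhα
      hb1 hbx hNr g4
    exact h2
  have hlam : x ^ (-(η / 10)) * 3 ≤ x ^ (-(η / 20)) := by
    have e1 : x ^ (-(η / 20)) = x ^ (-(η / 10)) * x ^ (η / 20) := by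
      rw [← Real.rpow_add hx0]; congr 1; ring
    rw [e1]
    exact mul_le_mul_of_nonneg_left g2 (Real.rpow_nonneg hx0.le _)
  have hhalf : x ^ (-(1 / 2 : ℝ)) ≤ x ^ (-(η / 20)) :=
    Real.rpow_le_rpow_of_exponent_le hx1 (by linarith)
  have h60 : 60 * x ^ (-(1 : ℝ)) ≤ x ^ (-(1 / 2 : ℝ)) := by
    have e1 : x ^ (-(1 / 2 : ℝ)) = x ^ (-(1 : ℝ)) * x ^ (1 / 2 : ℝ) := by
      rw [← Real.rpow_add hx0]; congr 1; norm_num
    rw [e1, mul_comm]
    exact mul_le_mul_of_nonneg_left g3 (Real.rpow_nonneg hx0.le _)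
  have hinv : x ^ (-(1 : ℝ)) = 1 / x := by rw [Real.rpow_neg_one, one_div]
  set lam : ℝ := x ^ (-(η / 20)) with hlamdef
  have h60' : 60 / x ≤ lam := by
    have : 60 / x = 60 * x ^ (-(1 : ℝ)) := by rw [hinv]; ring
    rw [this]
    linarith
  have hsq : x ≤ Real.sqrt N := by
    rw [← Real.sqrt_sq hx0.le]
    exact Real.sqrt_le_sqrt hPN
  have hsN : Real.sqrt N * Real.sqrt N = N := Real.mul_self_sqrt hN0.le
  have hs0 : 0 < Real.sqrt N := by linarith
  have hc : h * N * R + b * (10 * h * Real.sqrt N + 2 * h * N / P) ≤ b * (lam * h * N) := by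
    have a1 : (h : ℝ) * N * R ≤ b * (lam * h * N) / 3 := by
      have : (h : ℝ) * N * R = (b * h * N) * x ^ (-(η / 10)) := by rw [hR]; ring
      rw [this]
      have h5 : (0 : ℝ) ≤ b * h * N := by positivity
      nlinarith
    have a2 : (b : ℝ) * (10 * h * Real.sqrt N) ≤ b * (lam * h * N) / 3 := by
      have e1 : 10 * Real.sqrt N ≤ lam * N / 3 := by
        have e2 : 60 / x * x ≤ lam * Real.sqrt N := mul_le_mul h60' hsq hx0.le (by positivity)
        rw [div_mul_cancel₀ _ hx0.ne'] at e2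
        have e3 : lam * N = lam * Real.sqrt N * Real.sqrt N := by rw [mul_assoc, hsN]
        rw [e3]
        nlinarith
      calc (b : ℝ) * (10 * h * Real.sqrt N) = (b * h) * (10 * Real.sqrt N) := by ring
        _ ≤ (b * h) * (lam * N / 3) := mul_le_mul_of_nonneg_left e1 (by positivity)
        _ = b * (lam * h * N) / 3 := by ring
    have a3 : (b : ℝ) * (2 * h * N / P) ≤ b * (lam * h * N) / 3 := by
      have e1 : 2 / x ≤ lam / 3 := by
        have : 2 / x = (60 / x) / 30 := by ring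
        rw [this]
        have : 0 < lam := by positivity
        linarith
      calc (b : ℝ) * (2 * h * N / P) = (b * h * N) * (2 / x) := by rw [hx]; ring
        _ ≤ (b * h * N) * (lam / 3) := mul_le_mul_of_nonneg_left e1 (by positivity)
        _ = b * (lam * h * N) / 3 := by ring
    linarith
  have s1 := one_sideX (N := N) (by omega : 1 ≤ P) hh1 hhN hk1 hR0 hT hc hb1' 1 (Or.inl rfl)
  have s2 := one_sideX (N := N) (by omega : 1 ≤ P) hh1 hhN hk1 hR0 hT hc hb1' (-1) (Or.inr rfl)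
  refine ⟨(PP P).filter (fun p => ∃ φ : ℕ → ℂ, IsCh p φ ∧ lam * h * N < 1 * (Uc φ h N - c2 * h * N)) ∪
    (PP P).filter (fun p => ∃ φ : ℕ → ℂ, IsCh p φ ∧ lam * h * N < -1 * (Uc φ h N - c2 * h * N)), ?_, ?_⟩
  · have hcard := Finset.card_union_le
      ((PP P).filter (fun p => ∃ φ : ℕ → ℂ, IsCh p φ ∧ lam * h * N < 1 * (Uc φ h N - c2 * h * N)))
      ((PP P).filter (fun p => ∃ φ : ℕ → ℂ, IsCh p φ ∧ lam * h * N < -1 * (Uc φ h N - c2 * h * N)))
    refine le_trans ?_ hb3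
    exact_mod_cast hcard.trans (by omega)
  · intro p hp hpB φ hφ
    rw [mem_union, mem_filter, mem_filter, not_or] at hpB
    by_contra hcon
    push Not at hcon
    rcases lt_abs.1 hcon with h1 | h1
    · exact hpB.1 ⟨hp, φ, hφ, by rw [one_mul]; exact h1⟩
    · exact hpB.2 ⟨hp, φ, hφ, by rw [neg_one_mul]; exact h1⟩

end Pool.Agent.P4f18dfX
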