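import Pool.Agent.Lib.P4f18dfX.Defs
import Pool.Agent.Lib.P4f18dfW.Model

/-!
# The trace moment in the product model, complex vectors

Module X.ModelX: `Lib/P4f18dfW/Model.lean` with `C = rk x + rk y` (`x² + y² ≤ 1`).
-/

set_option autoImplicit false

namespace Pool.Agent.P4f18dfX

open Matrix Finset Pool.Agent.P4f18dfW Pool.Agent.P4f18dfW.ModelAux

namespace ModelXAux

lemma cc_symm {h : ℕ} (x y : Fin h → ℝ) : (rk x + rk y).IsHermitian := (rk_symm x).add (rk_symm y)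

lemma cc_sq_le {h : ℕ} (x y : Fin h → ℝ) (hx : ∀ j, |x j| ≤ 1) (hy : ∀ j, |y j| ≤ 1) :
    (((4 : ℝ) * h) • (vecMulVec x x + vecMulVec y y) + (8 : ℝ) • (1 : Matrix (Fin h) (Fin h) ℝ) -
      (rk x + rk y) * (rk x + rk y)).PosSemidef := by
  have p1 := sq_le x hx
  have p2 := sq_le y hy
  have p3 : ((rk x - rk y) * (rk x - rk y)).PosSemidef := by
    refine sq_psd ?_
    have h1 : (rk x)ᵀ = rk x := by
      rw [← Matrix.conjTranspose_eq_transpose_of_trivial]; exact rk_symm x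
    have h2 : (rk y)ᵀ = rk y := by
      rw [← Matrix.conjTranspose_eq_transpose_of_trivial]; exact rk_symm y
    rw [Matrix.transpose_sub, h1, h2]
  have e : ((4 : ℝ) * h) • (vecMulVec x x + vecMulVec y y) + (8 : ℝ) • (1 : Matrix (Fin h) (Fin h) ℝ) -
      (rk x + rk y) * (rk x + rk y) =
      (2 : ℝ) • (((2 : ℝ) * h) • vecMulVec x x + (2 : ℝ) • (1 : Matrix (Fin h) (Fin h) ℝ) - rk x * rk x) +
      (2 : ℝ) • (((2 : ℝ) * h) • vecMulVec y y + (2 : ℝ) • (1 : Matrix (Fin h) (Fin h) ℝ) - rk y * rk y) +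
      (rk x - rk y) * (rk x - rk y) := by
    have e1 : (rk x + rk y) * (rk x + rk y) = rk x * rk x + rk x * rk y + rk y * rk x + rk y * rk y := by
      noncomm_ring
    have e2 : (rk x - rk y) * (rk x - rk y) = rk x * rk x - rk x * rk y - rk y * rk x + rk y * rk y := by
      noncomm_ring
    rw [e1, e2]
    module
  rw [e]
  exact ((smul_psd p1 (by norm_num)).add (smul_psd p2 (by norm_num))).add p3

/-- the variance matrix -/
lemma cvar_psd {ι : Type*} [Fintype ι] {h : ℕ} (hh : 1 ≤ h) (x y : ι → Fin h → ℝ)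
    (hxy : ∀ i j, x i j ^ 2 + y i j ^ 2 ≤ 1) {lam : ℝ}
    (hlam : 4 * h * nr (∑ i, (rk (x i) + rk (y i))) + 12 * h * Fintype.card ι ≤ lam) :
    (lam • (1 : Matrix (Fin h) (Fin h) ℝ) -
      ∑ i, (rk (x i) + rk (y i)) * (rk (x i) + rk (y i))).PosSemidef := by
  have hx : ∀ i j, |x i j| ≤ 1 := fun i j => by
    have := hxy i j
    refine abs_le_one_iff_mul_self_le_one.2 ?_
    nlinarith [sq_nonneg (y i j)]
  have hy : ∀ i j, |y i j| ≤ 1 := fun i j => by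
    have := hxy i j
    refine abs_le_one_iff_mul_self_le_one.2 ?_
    nlinarith [sq_nonneg (x i j)]
  set b : ℝ := (Fintype.card ι : ℝ) with hb
  set O := ∑ i, (rk (x i) + rk (y i)) with hO
  have hOs : O.IsHermitian := by
    unfold Matrix.IsHermitian
    rw [hO, Matrix.conjTranspose_sum]
    exact Finset.sum_congr rfl fun i _ => cc_symm (x i) (y i)
  set DD := ∑ i, diagonal (fun j => x i j ^ 2 + y i j ^ 2) with hDD
  have hW : ∑ i, (vecMulVec (x i) (x i) + vecMulVec (y i) (y i)) = O + DD := by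
    rw [hO, hDD, ← Finset.sum_add_distrib]
    refine Finset.sum_congr rfl fun i _ => ?_
    rw [rk_eq, rk_eq]
    have : diagonal (fun j => x i j ^ 2 + y i j ^ 2) =
        diagonal (fun j => x i j ^ 2) + diagonal (fun j => y i j ^ 2) := by
      rw [Matrix.diagonal_add]
    rw [this]
    abel
  have p1 : (∑ i, (((4 : ℝ) * h) • (vecMulVec (x i) (x i) + vecMulVec (y i) (y i)) +
      (8 : ℝ) • (1 : Matrix (Fin h) (Fin h) ℝ) -
      (rk (x i) + rk (y i)) * (rk (x i) + rk (y i)))).PosSemidef :=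
    Matrix.posSemidef_sum _ fun i _ => cc_sq_le (x i) (y i) (hx i) (hy i)
  have e1 : ∑ i, (((4 : ℝ) * h) • (vecMulVec (x i) (x i) + vecMulVec (y i) (y i)) +
      (8 : ℝ) • (1 : Matrix (Fin h) (Fin h) ℝ) -
      (rk (x i) + rk (y i)) * (rk (x i) + rk (y i))) =
      ((4 : ℝ) * h) • (O + DD) + (8 * b) • (1 : Matrix (Fin h) (Fin h) ℝ) -
      ∑ i, (rk (x i) + rk (y i)) * (rk (x i) + rk (y i)) := by
    rw [Finset.sum_sub_distrib, Finset.sum_add_distrib, ← Finset.smul_sum, hW, Finset.sum_const,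
      card_univ, ← Nat.cast_smul_eq_nsmul ℝ, smul_smul, mul_comm (8 : ℝ) b]
  have p2 : (b • (1 : Matrix (Fin h) (Fin h) ℝ) - DD).PosSemidef := by
    have e2 : b • (1 : Matrix (Fin h) (Fin h) ℝ) - DD =
        ∑ i, ((1 : Matrix (Fin h) (Fin h) ℝ) - diagonal (fun j => x i j ^ 2 + y i j ^ 2)) := by
      rw [Finset.sum_sub_distrib, Finset.sum_const, card_univ, ← Nat.cast_smul_eq_nsmul ℝ]
    rw [e2]
    refine Matrix.posSemidef_sum _ fun i _ => ?_
    rw [← Matrix.diagonal_one, Matrix.diagonal_sub]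
    refine Matrix.PosSemidef.diagonal (fun j => ?_)
    simp only [Pi.zero_apply]
    have h1 := hxy i j
    linarith
  have p3 : (nr O • (1 : Matrix (Fin h) (Fin h) ℝ) - O).PosSemidef := psd_of_nr hOs le_rfl
  have hh' : (1 : ℝ) ≤ h := by exact_mod_cast hh
  have hb0 : 0 ≤ b := by positivity
  have p4 : ((lam - 8 * b - 4 * h * nr O - 4 * h * b) • (1 : Matrix (Fin h) (Fin h) ℝ)).PosSemidef := by
    refine smul_psd Matrix.PosSemidef.one ?_
    nlinarith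
  have e5 : lam • (1 : Matrix (Fin h) (Fin h) ℝ) - ∑ i, (rk (x i) + rk (y i)) * (rk (x i) + rk (y i)) =
      (((4 : ℝ) * h) • (O + DD) + (8 * b) • (1 : Matrix (Fin h) (Fin h) ℝ) -
        ∑ i, (rk (x i) + rk (y i)) * (rk (x i) + rk (y i))) +
      ((4 : ℝ) * h) • (nr O • (1 : Matrix (Fin h) (Fin h) ℝ) - O) +
      ((4 : ℝ) * h) • (b • (1 : Matrix (Fin h) (Fin h) ℝ) - DD) +
      (lam - 8 * b - 4 * h * nr O - 4 * h * b) • (1 : Matrix (Fin h) (Fin h) ℝ) := by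
    module
  rw [e5, ← e1]
  exact (((p1.add (smul_psd p3 (by positivity))).add (smul_psd p2 (by positivity))).add p4)

/-- the scalarX inequality behind the self-bounding argument -/
lemma scalarX {h k : ℕ} {y b : ℝ} (hk : 1 ≤ k) (hy : 0 ≤ y) (hb : 0 ≤ b) :
    (2 : ℝ) ^ (2 * k) * ((2 * k : ℝ) ^ k * (4 * h * y + 16 * h * b) ^ k * h) ≤
      1 / 2 * y ^ (2 * k) + (1 / 2 * ((h : ℝ) ^ 2 * (64 * k * h) ^ (2 * k)) + h * (256 * k * h * b) ^ k) := by
  have h1 : (4 * h * y + 16 * h * b : ℝ) ^ k ≤ 2 ^ k * ((4 * h * y) ^ k + (16 * h * b) ^ k) := by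
    have a1 : 0 ≤ 4 * h * y := by positivity
    have a2 : 0 ≤ 16 * h * b := by positivity
    have := add_pow_le a1 a2 k
    refine this.trans ?_
    have h3 : (2 : ℝ) ^ (k - 1) ≤ 2 ^ k := pow_le_pow_right₀ (by norm_num) (by omega)
    exact mul_le_mul_of_nonneg_right h3 (by positivity)
  have h2 : (2 : ℝ) ^ (2 * k) * ((2 * k : ℝ) ^ k * (2 ^ k * ((4 * h * y) ^ k + (16 * h * b) ^ k)) * h) =
      h * (64 * k * h) ^ k * y ^ k + h * (256 * k * h * b) ^ k := by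
    have e1 : (64 * k * h : ℝ) ^ k = 2 ^ (2 * k) * (2 * k) ^ k * 2 ^ k * (4 * h) ^ k := by
      rw [pow_mul, ← mul_pow, ← mul_pow, ← mul_pow]
      congr 1; ring
    have e2 : (256 * k * h * b : ℝ) ^ k = 2 ^ (2 * k) * (2 * k) ^ k * 2 ^ k * (16 * h * b) ^ k := by
      rw [pow_mul, ← mul_pow, ← mul_pow, ← mul_pow]
      congr 1; ring
    rw [e1, e2, mul_pow (4 * (h : ℝ)) y k]
    ring
  calc (2 : ℝ) ^ (2 * k) * ((2 * k : ℝ) ^ k * (4 * h * y + 16 * h * b) ^ k * h)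
      ≤ (2 : ℝ) ^ (2 * k) * ((2 * k : ℝ) ^ k * (2 ^ k * ((4 * h * y) ^ k + (16 * h * b) ^ k)) * h) := by
        gcongr
    _ = h * (64 * k * h) ^ k * y ^ k + h * (256 * k * h * b) ^ k := h2
    _ ≤ 1 / 2 * y ^ (2 * k) + (1 / 2 * ((h : ℝ) ^ 2 * (64 * k * h) ^ (2 * k)) + h * (256 * k * h * b) ^ k) := by
        have e3 : y ^ (2 * k) = (y ^ k) ^ 2 := by rw [← pow_mul, mul_comm]
        have e4 : (64 * k * h : ℝ) ^ (2 * k) = ((64 * k * h) ^ k) ^ 2 := by rw [← pow_mul, mul_comm k 2]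
        rw [e3, e4]
        nlinarith [sq_nonneg (y ^ k - h * (64 * k * h : ℝ) ^ k)]

lemma scalarX2 {h k : ℕ} {b : ℝ} (hh : 1 ≤ h) (hk : 1 ≤ k) (hb : (h : ℝ) ≤ b) :
    2 * (1 / 2 * ((h : ℝ) ^ 2 * (64 * k * h) ^ (2 * k)) + h * (256 * k * h * b) ^ k) ≤
      (200 * k : ℝ) ^ (2 * k) * (h : ℝ) ^ (k + 2) * b ^ k := by
  have hh' : (1 : ℝ) ≤ h := by exact_mod_cast hh
  have hk' : (1 : ℝ) ≤ k := by exact_mod_cast hk
  have hb0 : 0 ≤ b := by linarith
  have e1 : (h : ℝ) ^ 2 * (64 * k * h) ^ (2 * k) = (4096 * k ^ 2 : ℝ) ^ k * (h ^ (k + 2) * h ^ k) := by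
    have : (64 * k * h : ℝ) ^ (2 * k) = (4096 * k ^ 2 : ℝ) ^ k * (h ^ k * h ^ k) := by
      rw [pow_mul, ← mul_pow, ← mul_pow]
      congr 1; ring
    rw [this]; ring
  have e2 : (h : ℝ) * (256 * k * h * b) ^ k = (256 * k : ℝ) ^ k * (h ^ (k + 1) * b ^ k) := by
    have : (256 * k * h * b : ℝ) ^ k = (256 * k) ^ k * h ^ k * b ^ k := by
      rw [← mul_pow, ← mul_pow]
    rw [this]; ring
  rw [e1, e2]
  have h1 : (h : ℝ) ^ k ≤ b ^ k := pow_le_pow_left₀ (by positivity) hb k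
  have h2 : (h : ℝ) ^ (k + 1) ≤ h ^ (k + 2) := pow_le_pow_right₀ hh' (by omega)
  have h3 : (4096 * k ^ 2 : ℝ) ^ k + 2 * (256 * k : ℝ) ^ k ≤ (200 * k : ℝ) ^ (2 * k) := by
    have a1 : (256 * k : ℝ) ^ k ≤ (256 * k ^ 2 : ℝ) ^ k := by
      refine pow_le_pow_left₀ (by positivity) ?_ k
      nlinarith
    have a2 : 2 * (256 * k ^ 2 : ℝ) ^ k ≤ (512 * k ^ 2 : ℝ) ^ k := by
      have : (512 * k ^ 2 : ℝ) ^ k = 2 ^ k * (256 * k ^ 2) ^ k := by
        rw [← mul_pow]; congr 1; ring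
      rw [this]
      refine mul_le_mul_of_nonneg_right ?_ (by positivity)
      calc (2 : ℝ) = 2 ^ 1 := by norm_num
        _ ≤ 2 ^ k := pow_le_pow_right₀ (by norm_num) hk
    have a3 : (4096 * k ^ 2 : ℝ) ^ k + (512 * k ^ 2 : ℝ) ^ k ≤ (4096 * k ^ 2 + 512 * k ^ 2 : ℝ) ^ k :=
      pow_add_pow_le (by positivity) (by positivity) (by omega)
    have a4 : (4096 * k ^ 2 + 512 * k ^ 2 : ℝ) ^ k ≤ (200 * k : ℝ) ^ (2 * k) := by
      rw [pow_mul]
      refine pow_le_pow_left₀ (by positivity) ?_ k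
      nlinarith
    linarith
  calc 2 * (1 / 2 * ((4096 * k ^ 2 : ℝ) ^ k * (h ^ (k + 2) * h ^ k)) + (256 * k : ℝ) ^ k * (h ^ (k + 1) * b ^ k))
      = (4096 * k ^ 2 : ℝ) ^ k * (h ^ (k + 2) * h ^ k) + 2 * (256 * k : ℝ) ^ k * (h ^ (k + 1) * b ^ k) := by ring
    _ ≤ (4096 * k ^ 2 : ℝ) ^ k * (h ^ (k + 2) * b ^ k) + 2 * (256 * k : ℝ) ^ k * (h ^ (k + 2) * b ^ k) := by
        gcongr
    _ = ((4096 * k ^ 2 : ℝ) ^ k + 2 * (256 * k : ℝ) ^ k) * (h ^ (k + 2) * b ^ k) := by ring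
    _ ≤ (200 * k : ℝ) ^ (2 * k) * (h ^ (k + 2) * b ^ k) := by
        refine mul_le_mul_of_nonneg_right h3 (by positivity)
    _ = _ := by ring

end ModelXAux

open ModelXAux

theorem modelX {ι : Type*} [Fintype ι] [DecidableEq ι] {Ω : ι → Type*} [∀ i, Fintype (Ω i)]
    [∀ i, Nonempty (Ω i)] {h k : ℕ} (hh : 1 ≤ h) (hk : 1 ≤ k) (x y : ∀ i, Ω i → Fin h → ℝ)
    (hxy : ∀ i w j, x i w j ^ 2 + y i w j ^ 2 ≤ 1) {δ : ℝ} (hδ : 0 ≤ δ) (hδ1 : h * δ ≤ 1)
    (hmean : ∀ i, ∀ j j' : Fin h, j ≠ j' →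
      |(∑ w, (x i w j * x i w j' + y i w j * y i w j')) / (Fintype.card (Ω i) : ℝ)| ≤ δ)
    (hb : h ≤ Fintype.card ι) :
    (∑ ω : ∀ i, Ω i, ((∑ i, (rk (x i (ω i)) + rk (y i (ω i)))) ^ (2 * k)).trace) /
        (Fintype.card (∀ i, Ω i) : ℝ) ≤
      h * 4 ^ k * ((200 * k : ℝ) ^ (2 * k) * (h : ℝ) ^ (k + 2) * (Fintype.card ι : ℝ) ^ k +
        ((Fintype.card ι : ℝ) * h * δ) ^ (2 * k)) := by
  set b : ℝ := (Fintype.card ι : ℝ) with hbdef
  have hb' : (h : ℝ) ≤ b := by rw [hbdef]; exact_mod_cast hb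
  have hh' : (1 : ℝ) ≤ h := by exact_mod_cast hh
  have hb0 : 0 ≤ b := by linarith
  set T : ℝ := (Fintype.card (∀ i, Ω i) : ℝ) with hT
  have hT0 : 0 < T := by
    rw [hT]
    exact_mod_cast Fintype.card_pos
  obtain ⟨C, hC⟩ : ∃ C : ∀ i, Ω i → Matrix (Fin h) (Fin h) ℝ, C = fun i w => rk (x i w) + rk (y i w) :=
    ⟨_, rfl⟩
  have hCs : ∀ i w, (C i w).IsHermitian := fun i w => by rw [hC]; exact cc_symm _ _
  have hgoal : ∀ ω : ∀ i, Ω i, ∑ i, (rk (x i (ω i)) + rk (y i (ω i))) = ∑ i, C i (ω i) := fun ω => by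
    rw [hC]
  simp only [hgoal]
  -- the means
  set M : ι → Matrix (Fin h) (Fin h) ℝ := fun i => (1 / (Fintype.card (Ω i) : ℝ)) • ∑ w, C i w with hM
  have hMs : ∀ i, (M i).IsHermitian := by
    intro i
    unfold Matrix.IsHermitian
    simp only [hM]
    rw [Matrix.conjTranspose_smul, Matrix.conjTranspose_sum, star_trivial]
    congr 1
    exact Finset.sum_congr rfl fun w _ => hCs i w
  have hMe : ∀ i j j', |M i j j'| ≤ δ := by
    intro i j j'
    simp only [hM]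
    rw [Matrix.smul_apply, Matrix.sum_apply, smul_eq_mul]
    by_cases hj : j = j'
    · subst hj
      have : ∑ w, C i w j j = 0 := Finset.sum_eq_zero fun w _ => by
        rw [hC]
        simp [rk]
      rw [this]
      simpa using hδ
    · have h1 := hmean i j j' hj
      have : ∑ w, C i w j j' = ∑ w, (x i w j * x i w j' + y i w j * y i w j') :=
        Finset.sum_congr rfl fun w _ => by
          rw [hC]
          simp [rk, hj]
      rw [this, one_div, inv_mul_eq_div]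
      exact h1
  have hMn : ∀ i, nr (M i) ≤ h * δ := by
    intro i
    have := nr_le_of_entries (hMs i) hδ (hMe i)
    rwa [Fintype.card_fin] at this
  have hMsum : nr (∑ i, M i) ≤ b * h * δ := by
    refine (nr_sum_le _ _).trans ?_
    calc ∑ i, nr (M i) ≤ ∑ _i : ι, (h * δ : ℝ) := Finset.sum_le_sum fun i _ => hMn i
      _ = b * h * δ := by rw [Finset.sum_const, card_univ, nsmul_eq_mul, ← hbdef]; ring
  set z : (∀ i, Ω i) → ℝ := fun ω => nr (∑ i, (C i (ω i) - M i)) with hz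
  have hz0 : ∀ ω, 0 ≤ z ω := fun ω => nr_nonneg _
  have hO : ∀ ω : ∀ i, Ω i, nr (∑ i, C i (ω i)) ≤ z ω + b * h * δ := by
    intro ω
    have e1 : ∑ i, C i (ω i) = ∑ i, (C i (ω i) - M i) + ∑ i, M i := by
      rw [Finset.sum_sub_distrib]; abel
    rw [e1]
    exact (nr_add_le _ _).trans (by simp only [hz]; linarith)
  have hbd : b * h * δ ≤ b := by nlinarith
  -- symmetrization and Khintchine
  have key : ∑ ω, z ω ^ (2 * k) ≤ T * ((200 * k : ℝ) ^ (2 * k) * (h : ℝ) ^ (k + 2) * b ^ k) := by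
    have s1 := symmetrize C (m := 2 * k) (by omega)
    have s2 : ∀ ω : ∀ i, Ω i, ∑ e : ι → Bool, nr (∑ i, sg (e i) • C i (ω i)) ^ (2 * k) ≤
        2 ^ Fintype.card ι * ((2 * k : ℝ) ^ k * (4 * h * z ω + 16 * h * b) ^ k * h) := by
      intro ω
      have h1 : ∀ e : ι → Bool, nr (∑ i, sg (e i) • C i (ω i)) ^ (2 * k) ≤
          ((∑ i, sg (e i) • C i (ω i)) ^ (2 * k)).trace := by
        intro e
        refine pow_le_trace ?_ hk
        unfold Matrix.IsHermitian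
        rw [Matrix.conjTranspose_sum]
        refine Finset.sum_congr rfl fun i _ => ?_
        rw [Matrix.conjTranspose_smul, star_trivial, hCs i (ω i)]
      refine (Finset.sum_le_sum fun e _ => h1 e).trans ?_
      have hpsd := cvar_psd hh (fun i => x i (ω i)) (fun i => y i (ω i)) (fun i j => hxy i (ω i) j)
        (lam := 4 * h * z ω + 16 * h * b) (by
          have := hO ω
          rw [← hbdef]
          have e : ∑ i, (rk (x i (ω i)) + rk (y i (ω i))) = ∑ i, C i (ω i) := hgoal ω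
          rw [e]
          nlinarith)
      have hpsd' : ((4 * h * z ω + 16 * h * b) • (1 : Matrix (Fin h) (Fin h) ℝ) -
          ∑ i, C i (ω i) * C i (ω i)).PosSemidef := by
        rw [hC]
        exact hpsd
      have h2 := khintchine (fun i => C i (ω i)) (fun i => hCs i _)
        (lam := 4 * h * z ω + 16 * h * b) (by have := hz0 ω; positivity) hpsd' k
      rwa [Fintype.card_fin] at h2
    have s3 : ∑ ω, z ω ^ (2 * k) ≤
        ∑ ω, (2 : ℝ) ^ (2 * k) * ((2 * k : ℝ) ^ k * (4 * h * z ω + 16 * h * b) ^ k * h) := by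
      refine s1.trans ?_
      rw [← Finset.mul_sum]
      refine mul_le_mul_of_nonneg_left ?_ (by positivity)
      rw [div_le_iff₀ (by positivity), Finset.sum_mul]
      refine Finset.sum_le_sum fun ω _ => (s2 ω).trans (le_of_eq ?_)
      ring
    have s4 : ∑ ω, (2 : ℝ) ^ (2 * k) * ((2 * k : ℝ) ^ k * (4 * h * z ω + 16 * h * b) ^ k * h) ≤
        1 / 2 * ∑ ω, z ω ^ (2 * k) +
          T * (1 / 2 * ((h : ℝ) ^ 2 * (64 * k * h) ^ (2 * k)) + h * (256 * k * h * b) ^ k) := by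
      refine (Finset.sum_le_sum fun ω _ => scalarX hk (hz0 ω) hb0).trans (le_of_eq ?_)
      rw [Finset.sum_add_distrib, ← Finset.mul_sum, Finset.sum_const, card_univ, nsmul_eq_mul, ← hT]
    have s5 := scalarX2 hh hk hb'
    nlinarith [s3.trans s4]
  -- the trace
  rw [div_le_iff₀ hT0]
  have t1 : ∀ ω : ∀ i, Ω i, ((∑ i, C i (ω i)) ^ (2 * k)).trace ≤
      h * 4 ^ k * (z ω ^ (2 * k) + (b * h * δ) ^ (2 * k)) := by
    intro ω
    have hs : (∑ i, C i (ω i)).IsHermitian := by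
      unfold Matrix.IsHermitian
      rw [Matrix.conjTranspose_sum]
      exact Finset.sum_congr rfl fun i _ => hCs _ _
    have h1 := trace_le hs k
    rw [Fintype.card_fin] at h1
    refine h1.trans ?_
    rw [mul_assoc]
    refine mul_le_mul_of_nonneg_left ?_ (by positivity)
    have h2 : nr (∑ i, C i (ω i)) ^ (2 * k) ≤ (z ω + b * h * δ) ^ (2 * k) :=
      pow_le_pow_left₀ (nr_nonneg _) (hO ω) _
    refine h2.trans ((add_pow_le (hz0 ω) (by positivity) (2 * k)).trans ?_)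
    have h3 : (2 : ℝ) ^ (2 * k - 1) ≤ 4 ^ k := by
      calc (2 : ℝ) ^ (2 * k - 1) ≤ 2 ^ (2 * k) := pow_le_pow_right₀ (by norm_num) (by omega)
        _ = 4 ^ k := by rw [pow_mul]; norm_num
    have := hz0 ω
    exact mul_le_mul_of_nonneg_right h3 (by positivity)
  calc ∑ ω : ∀ i, Ω i, ((∑ i, C i (ω i)) ^ (2 * k)).trace
      ≤ ∑ ω, h * 4 ^ k * (z ω ^ (2 * k) + (b * h * δ) ^ (2 * k)) := Finset.sum_le_sum fun ω _ => t1 ω
    _ = h * 4 ^ k * (∑ ω, z ω ^ (2 * k) + T * (b * h * δ) ^ (2 * k)) := by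
        rw [← Finset.mul_sum, Finset.sum_add_distrib, Finset.sum_const, card_univ, nsmul_eq_mul, ← hT]
    _ ≤ h * 4 ^ k * (T * ((200 * k : ℝ) ^ (2 * k) * (h : ℝ) ^ (k + 2) * b ^ k) + T * (b * h * δ) ^ (2 * k)) := by
        gcongr
    _ = _ := by ring

end Pool.Agent.P4f18dfX
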