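import Pool.Agent.Lib.P4f18dfX.Defs
import Pool.Agent.Lib.P4f18dfW.Transfer

/-!
# From the integers to the product model, complex characters

Module X.TransferX: adapt `Lib/P4f18dfW/Transfer.lean` (its `TransferAux` lemmas on `Cls`, `dv`, `crt` can be used as they
are).  The entries of `rc h (φ p) a` are sums of 2 functions of `a` bounded by 1 with period `p` (`ch_per`, `ch_sq`), so the
entries of `Ox h B φ a` are in the class `Cls Q (2P) (2 b)`.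
-/

set_option autoImplicit false

namespace Pool.Agent.P4f18dfX

open Matrix Finset Pool.Agent.P4f18dfQ Pool.Agent.P4f18df Pool.Agent.P4f18dfW

namespace TransferXAux

open TransferAux

theorem vr_per {p h : ℕ} {φ : ℕ → ℂ} (hφ : IsCh p φ) (n : ℕ) : vr h φ (n + p) = vr h φ n := by
  funext i
  unfold vr
  rw [show n + p + 1 + (i : ℕ) = n + 1 + (i : ℕ) + p by ring, ch_per hφ]

theorem vi_per {p h : ℕ} {φ : ℕ → ℂ} (hφ : IsCh p φ) (n : ℕ) : vi h φ (n + p) = vi h φ n := by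
  funext i
  unfold vi
  rw [show n + p + 1 + (i : ℕ) = n + 1 + (i : ℕ) + p by ring, ch_per hφ]

theorem rc_per {p h : ℕ} {φ : ℕ → ℂ} (hφ : IsCh p φ) (n : ℕ) : rc h φ (n + p) = rc h φ n := by
  unfold rc
  rw [vr_per hφ, vi_per hφ]

theorem rc_mod {p h : ℕ} {φ : ℕ → ℂ} (hφ : IsCh p φ) (n : ℕ) : rc h φ (n % p) = rc h φ n := by
  have key : ∀ k m : ℕ, rc h φ (m + p * k) = rc h φ m := by
    intro k
    induction k with
    | zero => intro m; simp
    | succ k ih => intro m; rw [Nat.mul_succ, ← add_assoc, rc_per hφ, ih]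
  conv_rhs => rw [← Nat.mod_add_div n p]
  rw [key]

theorem abs_vr_le {p h : ℕ} {φ : ℕ → ℂ} (hφ : IsCh p φ) (n : ℕ) (i : Fin h) : |vr h φ n i| ≤ 1 :=
  (Complex.abs_re_le_norm _).trans (ch_norm hφ _)

theorem abs_vi_le {p h : ℕ} {φ : ℕ → ℂ} (hφ : IsCh p φ) (n : ℕ) (i : Fin h) : |vi h φ n i| ≤ 1 :=
  (Complex.abs_im_le_norm _).trans (ch_norm hφ _)

theorem rk_cls' {Q P h p : ℕ} (hp : 0 < p) (hpP : p ≤ 2 * P) (hpQ : p ∣ Q) {v : ℕ → Fin h → ℝ}
    (hv : ∀ n i, |v n i| ≤ 1) (hper : ∀ n, v (n + p) = v n) (i j : Fin h) :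
    Cls Q (2 * P) 1 (fun a => rk (v a) i j) := by
  refine Cls.one _ p hp hpP hpQ (fun n => ?_) (fun n => ?_)
  · unfold rk
    simp only [Matrix.of_apply]
    split_ifs
    · simp
    · rw [abs_mul]
      exact mul_le_one₀ (hv _ _) (abs_nonneg _) (hv _ _)
  · simp only [hper]

theorem rc_cls {Q P h p : ℕ} (hp : 0 < p) (hpP : p ≤ 2 * P) (hpQ : p ∣ Q) {φ : ℕ → ℂ}
    (hφ : IsCh p φ) (i j : Fin h) : Cls Q (2 * P) 2 (fun a => rc h φ a i j) :=
  ((rk_cls' hp hpP hpQ (abs_vr_le hφ) (vr_per hφ) i j).add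
    (rk_cls' hp hpP hpQ (abs_vi_le hφ) (vi_per hφ) i j)).congr rfl fun n => by
      unfold rc
      rw [Matrix.add_apply]

theorem Ox_cls {Q P h : ℕ} (B : Finset ℕ) (φ : ℕ → ℕ → ℂ)
    (hB : ∀ p ∈ B, 0 < p ∧ p ≤ 2 * P ∧ p ∣ Q ∧ IsCh p (φ p)) (i j : Fin h) :
    Cls Q (2 * P) (B.card * 2) (fun a => Ox h B φ a i j) := by
  refine (Cls.sum B (fun p a => rc h (φ p) a i j) fun p hp =>
    rc_cls (hB p hp).1 (hB p hp).2.1 (hB p hp).2.2.1 (hB p hp).2.2.2 i j).congr rfl fun n => ?_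
  unfold Ox
  rw [Matrix.sum_apply]

theorem pow_cls' {Q q M h : ℕ} {O : ℕ → Matrix (Fin h) (Fin h) ℝ}
    (hO : ∀ i j, Cls Q q M (fun a => O a i j)) (m : ℕ) (i j : Fin h) :
    Cls Q (q ^ (m + 1)) (h ^ m * M ^ (m + 1)) (fun a => (O a ^ (m + 1)) i j) := by
  induction m generalizing i j with
  | zero => exact ((hO i j).mono (by simp)).congr (by simp) (fun n => by simp)
  | succ m ih =>
    have h1 : ∀ k ∈ (Finset.univ : Finset (Fin h)), Cls Q (q ^ (m + 1) * q)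
        ((h ^ m * M ^ (m + 1)) * M) (fun a => (O a ^ (m + 1)) i k * O a k j) :=
      fun k _ => (ih i k).mul (hO k j)
    have h2 := Cls.sum Finset.univ _ h1
    refine (h2.mono (le_of_eq (pow_succ _ _).symm)).congr ?_ fun n => ?_
    · rw [Finset.card_univ, Fintype.card_fin]
      ring
    · rw [pow_succ (O n) (m + 1), Matrix.mul_apply]

theorem trace_cls' {Q q M h m : ℕ} {O : ℕ → Matrix (Fin h) (Fin h) ℝ}
    (hO : ∀ i j, Cls Q q M (fun a => O a i j)) (hm : 1 ≤ m) :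
    Cls Q (q ^ m) ((h * M) ^ m) (fun a => (O a ^ m).trace) := by
  obtain ⟨k, rfl⟩ : ∃ k, m = k + 1 := ⟨m - 1, by omega⟩
  have h2 := Cls.sum Finset.univ _ fun (i : Fin h) (_ : i ∈ Finset.univ) => pow_cls' hO k i i
  refine h2.congr ?_ fun n => ?_
  · rw [Finset.card_univ, Fintype.card_fin, mul_pow]
    ring
  · rfl

end TransferXAux

open TransferAux TransferXAux

theorem transferX {P h m N : ℕ} (B : Finset ℕ) (φ : ℕ → ℕ → ℂ)
    (hB : ∀ p ∈ B, p.Prime ∧ p ≤ 2 * P ∧ IsCh p (φ p)) (hm : 1 ≤ m)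
    (hN : 1 ≤ N) [∀ p : B, NeZero (p : ℕ)] :
    |(∑ a ∈ Ioc 0 N, (Ox h B φ a ^ m).trace) / N -
      (∑ x : ∀ p : B, ZMod (p : ℕ), ((∑ p : B, rc h (φ p) (x p).val) ^ m).trace) /
        (Fintype.card (∀ p : B, ZMod (p : ℕ)) : ℝ)| ≤
      (2 * (h : ℝ) * B.card) ^ m * (2 * P : ℝ) ^ m / N := by
  classical
  obtain ⟨Q, hQdef⟩ : ∃ Q : ℕ, Q = ∏ p : B, (p : ℕ) := ⟨_, rfl⟩
  have hQ0 : 0 < Q := by
    rw [hQdef]
    exact Finset.prod_pos fun p _ => (hB p.1 p.2).1.pos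
  have hdvd : ∀ p ∈ B, 0 < p ∧ p ≤ 2 * P ∧ p ∣ Q ∧ IsCh p (φ p) := by
    intro p hp
    refine ⟨(hB p hp).1.pos, (hB p hp).2.1, ?_, (hB p hp).2.2⟩
    rw [hQdef]
    exact Finset.dvd_prod_of_mem (fun p : B => (p : ℕ)) (Finset.mem_univ (⟨p, hp⟩ : B))
  have hcls := trace_cls' (Q := Q) (q := 2 * P) (h := h) (m := m)
    (fun i j => Ox_cls B φ hdvd i j) hm
  have hdv := dv_le (N := N) hQ0 hcls
  have hcard : (Fintype.card (∀ p : B, ZMod (p : ℕ)) : ℝ) = (Q : ℝ) := by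
    rw [Fintype.card_pi, hQdef]
    congr 1
    exact Finset.prod_congr rfl fun p _ => ZMod.card _
  have hcrt : ∑ x : ∀ p : B, ZMod (p : ℕ), ((∑ p : B, rc h (φ p) (x p).val) ^ m).trace =
      ∑ n ∈ range Q, (Ox h B φ n ^ m).trace := by
    rw [← crt B (fun p hp => (hB p hp).1)
      (fun x => ((∑ p : B, rc h (φ p) (x p).val) ^ m).trace), hQdef]
    refine Finset.sum_congr rfl fun n _ => ?_
    have h1 : ∑ p : B, rc h (φ p) ((n : ZMod (p : ℕ))).val = Ox h B φ n := by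
      unfold Ox
      rw [← Finset.sum_coe_sort B (fun p => rc h (φ p) n)]
      refine Finset.sum_congr rfl fun p _ => ?_
      rw [ZMod.val_natCast, rc_mod (hB p.1 p.2).2.2]
    rw [h1]
  have hN0 : (0 : ℝ) < N := by exact_mod_cast hN
  have hQr : (0 : ℝ) < Q := by exact_mod_cast hQ0
  rw [hcrt, hcard]
  have e : (∑ a ∈ Ioc 0 N, (Ox h B φ a ^ m).trace) / N -
      (∑ n ∈ range Q, (Ox h B φ n ^ m).trace) / (Q : ℝ) =
      dv Q N (fun a => (Ox h B φ a ^ m).trace) / N := by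
    unfold dv
    field_simp
  rw [e, abs_div, abs_of_pos hN0]
  refine div_le_div_of_nonneg_right (hdv.trans (le_of_eq ?_)) hN0.le
  push_cast
  ring

end Pool.Agent.P4f18dfX
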