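import Pool.Agent.Lib.P4f18dfX.ModelX
import Pool.Agent.Lib.P4f18dfX.TransferX
import Pool.Agent.Lib.P4f18dfX.CharsX

/-!
# The trace moment over the integers, complex characters

Module X.MomX.  `transferX` with `m = 2k`, `modelX` with `Ω p = ZMod p`, `x p w = vr h (φ p) w.val`, `y p w = vi h (φ p) w.val`,
`δ = 1 / P` (`jacX`: the mean is `-1 / p`), `ch_sq`.
-/

set_option autoImplicit false

namespace Pool.Agent.P4f18dfX

open Matrix Finset Pool.Agent.P4f18dfQ Pool.Agent.P4f18dfW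

theorem momX {P h k N : ℕ} (B : Finset ℕ) (φ : ℕ → ℕ → ℂ) (hB : B ⊆ PP P)
    (hφ : ∀ p ∈ B, IsCh p (φ p)) (hP : 2 ≤ P) (hh : 1 ≤ h)
    (hhP : h ≤ P) (hk : 1 ≤ k) (hN : 1 ≤ N) (hb : h ≤ B.card) :
    (∑ a ∈ Ioc 0 N, (Ox h B φ a ^ (2 * k)).trace) / N ≤
      h * 4 ^ k * ((200 * k : ℝ) ^ (2 * k) * (h : ℝ) ^ (k + 2) * (B.card : ℝ) ^ k +
        ((B.card : ℝ) * h / P) ^ (2 * k)) +
        (2 * (h : ℝ) * B.card) ^ (2 * k) * (2 * P : ℝ) ^ (2 * k) / N := by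
  classical
  have hpr : ∀ p ∈ B, p.Prime ∧ P < p ∧ p ≤ 2 * P := fun p hp => by
    have := mem_PP.1 (hB hp)
    exact ⟨this.2, this.1.1, this.1.2⟩
  haveI : ∀ p : B, NeZero (p : ℕ) := fun p => ⟨(hpr p.1 p.2).1.ne_zero⟩
  haveI : ∀ p : B, Nonempty (ZMod (p : ℕ)) := fun p => ⟨0⟩
  have hP0 : (0 : ℝ) < P := by exact_mod_cast (by omega : 0 < P)
  have h1 := transferX (P := P) (h := h) (m := 2 * k) (N := N) B φ
    (fun p hp => ⟨(hpr p hp).1, (hpr p hp).2.2, hφ p hp⟩) (by omega) hN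
  have h2 := modelX (ι := B) (Ω := fun p : B => ZMod (p : ℕ)) (h := h) (k := k) hh hk
    (fun p x => vr h (φ p) x.val) (fun p x => vi h (φ p) x.val) (fun p x j => by
      show vr h (φ p) x.val j ^ 2 + vi h (φ p) x.val j ^ 2 ≤ 1
      unfold vr vi
      exact ch_sq (hφ p.1 p.2) _) (δ := 1 / P) (by positivity)
    (by rw [mul_one_div, div_le_one hP0]; exact_mod_cast hhP)
    (fun p j j' hj => by
      have hp := hpr p.1 p.2
      rw [jacX hp.1 (hφ p.1 p.2) (by omega) hj, abs_div, ZMod.card]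
      rw [abs_neg, abs_one, abs_of_nonneg (by positivity)]
      refine one_div_le_one_div_of_le hP0 ?_
      exact_mod_cast hp.2.1.le) (by rw [Fintype.card_coe]; exact hb)
  rw [Fintype.card_coe] at h2
  have h3 := (abs_le.1 h1).2
  have e : ((B.card : ℝ) * h * (1 / P)) = (B.card : ℝ) * h / P := by ring
  rw [e] at h2
  unfold rc at h3
  linarith

end Pool.Agent.P4f18dfX
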