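import Pool.Agent.Lib.P4f18dfX.OneD
import Pool.Agent.Lib.P4f18dfX.InterpX
import Pool.Agent.Lib.P4f18dfQ.BadV

/-!
# The exceptional characters modulo `q` for all lengths and scales

Module X.NetD: as `Lib/P4f18dfW/NetS.lean` (helper73), with `t` (`2^t ≤ N < 2^(t+1)`) up to `3 q^c` and `Uk_all2`.  Let `c₀` be the constant of
`oneD (ε / 2)`, `c ≤ c₁` small in terms of `c₀`, `ε`.  For each `t` use nets: lengths `Net s E₁` with
`2^(E₁ - 1) ≤ 2 min ((2^(t+1))^(1-ε)) (q^(1/2-ε)) < 2^E₁`, scales `Net s (t + 3)`, `2^s ≈ q^(6c)`, `N₀ = 2^(t-1)`.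
-/

set_option autoImplicit false

namespace Pool.Agent.P4f18dfX

open Finset Pool.Agent.P4f18dfQ Pool.Agent.P4f18df

namespace NetDAux

theorem card_bU {α β : Type*} [DecidableEq β] {s : Finset α} {f : α → Finset β} {x : ℝ}
    (h : ∀ a ∈ s, ((f a).card : ℝ) ≤ x) : ((s.biUnion f).card : ℝ) ≤ s.card * x := by
  have h1 : ((s.biUnion f).card : ℝ) ≤ ∑ a ∈ s, ((f a).card : ℝ) := by
    exact_mod_cast Finset.card_biUnion_le
  refine h1.trans ((Finset.sum_le_sum h).trans ?_)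
  rw [Finset.sum_const, nsmul_eq_mul]

/-- the length of the net for the scale `2^t` -/
theorem exists_E1 (A : ℝ) (hA : 1 ≤ A) (δ : ℝ) (hδ : 0 ≤ δ) :
    ∃ E : ℕ → ℕ, ∀ t : ℕ, 2 * min (((2 : ℝ) ^ (t + 1)) ^ δ) A < 2 ^ E t ∧
      (2 : ℝ) ^ E t ≤ 4 * min (((2 : ℝ) ^ (t + 1)) ^ δ) A := by
  have h1 : ∀ t : ℕ, ∃ E : ℕ, 2 * min (((2 : ℝ) ^ (t + 1)) ^ δ) A < 2 ^ E ∧
      (2 : ℝ) ^ E ≤ 4 * min (((2 : ℝ) ^ (t + 1)) ^ δ) A := by
    intro t
    have h2 : (1 : ℝ) ≤ min (((2 : ℝ) ^ (t + 1)) ^ δ) A :=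
      le_min (Real.one_le_rpow (one_le_pow₀ (by norm_num)) hδ) hA
    obtain ⟨e₀, he₀, he₀'⟩ := exists_nat_pow_near
      (show (1 : ℝ) ≤ 2 * min (((2 : ℝ) ^ (t + 1)) ^ δ) A by linarith) (by norm_num : (1 : ℝ) < 2)
    refine ⟨e₀ + 1, he₀', ?_⟩
    rw [pow_succ]
    linarith
  choose E hE using h1
  exact ⟨E, hE⟩

end NetDAux

theorem bad_d (ε : ℝ) (hε : 0 < ε) (hε1 : ε < 1 / 2) : ∃ c₁ : ℝ, 0 < c₁ ∧
    ∀ c : ℝ, 0 < c → c ≤ c₁ → ∃ Q₀ : ℕ, ∀ q : ℕ, Q₀ ≤ q → q.Prime →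
      ∃ B : Finset (DirichletCharacter ℂ q), (B.card : ℝ) ≤ (q : ℝ) ^ (1 - c) ∧
        ∀ χ : DirichletCharacter ℂ q, χ ∉ B → ∀ m N : ℕ, 1 ≤ m → (m : ℝ) ≤ (N : ℝ) ^ (1 - ε) →
          (m : ℝ) ≤ (q : ℝ) ^ (1 / 2 - ε) → (q : ℝ) ^ ε ≤ N → (N : ℝ) ≤ 2 * Real.exp ((q : ℝ) ^ c) →
            |Uc (fun n => χ (n : ZMod q)) m N - c2 * m * N| ≤ (q : ℝ) ^ (-(2 * c)) * m * N := by
  classical
  obtain ⟨c₀, hc₀, Q₁, hone⟩ := oneD (ε / 2) (by linarith) (by linarith)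
  refine ⟨min (c₀ / 20) (ε ^ 2 / 20), by positivity, ?_⟩
  intro c hc hc1
  have hcc : c ≤ c₀ / 20 := hc1.trans (min_le_left _ _)
  have hce : c ≤ ε ^ 2 / 20 := hc1.trans (min_le_right _ _)
  have hce' : c ≤ ε / 20 := by nlinarith
  have hlim : ∀ᶠ P : ℕ in Filter.atTop, (1000 : ℝ) ≤ (P : ℝ) ^ c :=
    ((tendsto_rpow_atTop hc).comp tendsto_natCast_atTop_atTop).eventually_ge_atTop _
  have hlog : ∀ᶠ P : ℕ in Filter.atTop, Real.log P ≤ (1 / 10) * (P : ℝ) ^ c := by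
    have h1 := (isLittleO_log_rpow_atTop hc).bound (show (0 : ℝ) < 1 / 10 by norm_num)
    have h2 := (tendsto_natCast_atTop_atTop (R := ℝ)).eventually h1
    filter_upwards [h2] with P hP
    rw [Real.norm_eq_abs, Real.norm_eq_abs,
      abs_of_nonneg (Real.rpow_nonneg (Nat.cast_nonneg P) c)] at hP
    exact (le_abs_self _).trans hP
  obtain ⟨P₀, hP₀⟩ := Filter.eventually_atTop.1 (hlim.and hlog)
  refine ⟨max P₀ (max Q₁ 3), fun P hP hPprime => ?_⟩
  have : NeZero P := ⟨hPprime.ne_zero⟩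
  have hP1 : P₀ ≤ P := (le_max_left _ _).trans hP
  have hP2 : Q₁ ≤ P := (le_max_left _ _).trans ((le_max_right _ _).trans hP)
  have hP3 : 3 ≤ P := (le_max_right _ _).trans ((le_max_right _ _).trans hP)
  have hP3r : (3 : ℝ) ≤ P := by exact_mod_cast hP3
  have hPr : (1 : ℝ) ≤ P := by linarith
  have hPpos : (0 : ℝ) < P := by linarith
  obtain ⟨hTM, hTlog⟩ := hP₀ P hP1
  -- powers of `P`
  have hPneg : (P : ℝ) ^ (-(2 * c)) = 1 / ((P : ℝ) ^ c) ^ 2 := by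
    rw [Real.rpow_neg hPpos.le, one_div, ← Real.rpow_natCast, ← Real.rpow_mul hPpos.le]
    congr 2
    push_cast
    ring
  have hneg3 : (P : ℝ) ^ (-c₀) ≤ 1 / ((P : ℝ) ^ c) ^ 3 := by
    have e1 : 1 / ((P : ℝ) ^ c) ^ 3 = (P : ℝ) ^ (-(3 * c)) := by
      rw [Real.rpow_neg hPpos.le, one_div, ← Real.rpow_natCast, ← Real.rpow_mul hPpos.le]
      congr 2
      push_cast
      ring
    rw [e1]
    exact Real.rpow_le_rpow_of_exponent_le hPr (by linarith)
  have hlen : ((P : ℝ) ^ c) ^ 7 * (P : ℝ) ^ (1 / 2 - ε) ≤ (P : ℝ) ^ (1 / 2 - ε / 2) := by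
    rw [← Real.rpow_natCast, ← Real.rpow_mul hPpos.le, ← Real.rpow_add hPpos]
    refine Real.rpow_le_rpow_of_exponent_le hPr ?_
    push_cast
    linarith
  have hlen2 : ((P : ℝ) ^ c) ^ 7 ≤ ((P : ℝ) ^ ε) ^ (ε / 2) := by
    rw [← Real.rpow_natCast, ← Real.rpow_mul hPpos.le, ← Real.rpow_mul hPpos.le]
    refine Real.rpow_le_rpow_of_exponent_le hPr ?_
    push_cast
    nlinarith
  have hcnt : ((P : ℝ) ^ c) ^ 16 * (P : ℝ) ^ (1 - c₀) ≤ (P : ℝ) ^ (1 - c) := by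
    rw [← Real.rpow_natCast, ← Real.rpow_mul hPpos.le, ← Real.rpow_add hPpos]
    refine Real.rpow_le_rpow_of_exponent_le hPr ?_
    push_cast
    linarith
  have hqe : (P : ℝ) ^ (ε / 2) * (P : ℝ) ^ c ≤ (P : ℝ) ^ ε := by
    rw [← Real.rpow_add hPpos]
    exact Real.rpow_le_rpow_of_exponent_le hPr (by linarith)
  have hK0 : 0 ≤ (P : ℝ) ^ (1 - c₀) := Real.rpow_nonneg hPpos.le _
  have hA1 : 1 ≤ (P : ℝ) ^ (1 / 2 - ε) := Real.one_le_rpow hPr (by linarith)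
  have hAP0 : (P : ℝ) ^ (1 / 2 - ε) ≤ P := by
    calc (P : ℝ) ^ (1 / 2 - ε) ≤ (P : ℝ) ^ (1 : ℝ) :=
          Real.rpow_le_rpow_of_exponent_le hPr (by linarith)
      _ = P := Real.rpow_one _
  have hG1 : 1 ≤ (P : ℝ) ^ (ε / 2) := Real.one_le_rpow hPr (by linarith)
  rw [hPneg]
  set T : ℝ := (P : ℝ) ^ c with hT
  set A : ℝ := (P : ℝ) ^ (1 / 2 - ε) with hA
  set K : ℝ := (P : ℝ) ^ (1 - c₀) with hK
  set G : ℝ := (P : ℝ) ^ (ε / 2) with hG
  have hA0 : 0 < A := by linarith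
  have hT100 : 1000 ≤ T := hTM
  have hT1 : 1 ≤ T := by linarith
  have hT0 : 0 < T := by linarith
  have hTpow : ∀ j : ℕ, 1 ≤ T ^ j := fun j => one_le_pow₀ hT1
  obtain ⟨s₀, hs₀, hs₀'⟩ := exists_nat_pow_near (hTpow 6) (by norm_num : (1 : ℝ) < 2)
  obtain ⟨E₁, hE1⟩ := NetDAux.exists_E1 A hA1 (1 - ε) (by linarith)
  obtain ⟨E, hE2, hE2'⟩ := BadV.exists_E hT0.le
  set s : ℕ := s₀ + 1 with hs
  have hs1 : T ^ 6 ≤ 2 ^ s := hs₀'.le
  have hs2 : (2 : ℝ) ^ s ≤ 2 * T ^ 6 := by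
    rw [hs, pow_succ]
    linarith
  have hs3 : (2 : ℝ) ^ (s + 1) ≤ 4 * T ^ 6 := by
    rw [pow_succ]
    linarith
  have hs4 : 2 ≤ s := by
    by_contra hlt
    have h1 : (2 : ℝ) ^ s ≤ 2 ^ 1 := pow_le_pow_right₀ (by norm_num) (by omega)
    have h2 : T ≤ T ^ 6 := by
      calc T = T ^ 1 := (pow_one T).symm
        _ ≤ T ^ 6 := pow_le_pow_right₀ hT1 (by norm_num)
    linarith
  have hE1T : ∀ t, (E₁ t : ℝ) + 1 ≤ T := by
    intro t
    have h0 : (2 : ℝ) ^ E₁ t ≤ 4 * P :=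
      (hE1 t).2.trans (by linarith [min_le_right (((2 : ℝ) ^ (t + 1)) ^ (1 - ε)) A])
    have h1 : Real.log ((2 : ℝ) ^ E₁ t) ≤ Real.log (4 * P) :=
      Real.log_le_log (by positivity) h0
    rw [Real.log_pow, Real.log_mul (by norm_num) hPpos.ne'] at h1
    have h2 : Real.log 4 = 2 * Real.log 2 := by
      rw [show (4 : ℝ) = 2 ^ 2 by norm_num, Real.log_pow]
      norm_num
    have h3 := Real.log_two_gt_d9
    have h4 := Real.log_two_lt_d9
    have h5 : (0 : ℝ) ≤ E₁ t := Nat.cast_nonneg _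
    nlinarith
  -- the hypotheses of `oneD`
  have hm_le : ∀ t : ℕ, (P : ℝ) ^ ε ≤ 2 ^ (t + 1) → ∀ m ∈ Net s (E₁ t), ∀ N : ℕ,
      2 ^ (t - 1) ≤ N → (m : ℝ) ≤ (N : ℝ) ^ (1 - ε / 2) ∧ (m : ℝ) ≤ (P : ℝ) ^ (1 / 2 - ε / 2) ∧
        G ≤ N := by
    intro t ht m hm N hN
    set Y : ℝ := (2 : ℝ) ^ (t + 1) with hY
    have hY1 : 1 ≤ Y := one_le_pow₀ (by norm_num)
    have hY0 : 0 < Y := by linarith
    have hNY : Y / 4 ≤ N := by
      have h1 : (2 : ℝ) ^ (t - 1) ≤ N := by exact_mod_cast hN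
      have h2 : Y ≤ 4 * 2 ^ (t - 1) := by
        rw [hY]
        calc (2 : ℝ) ^ (t + 1) ≤ 2 ^ ((t - 1) + 2) := pow_le_pow_right₀ (by norm_num) (by omega)
          _ = 4 * 2 ^ (t - 1) := by rw [pow_add]; ring
      linarith
    have h0 := BadV.mem_Net_lt hm
    have h1 : (m : ℝ) ≤ (4 * T ^ 6) * (4 * min (Y ^ (1 - ε)) A) :=
      h0.trans (mul_le_mul hs3 (hE1 t).2 (by positivity) (by positivity))
    have hTT : 64 * T ^ 6 ≤ T ^ 7 := by
      calc 64 * T ^ 6 ≤ T * T ^ 6 := mul_le_mul_of_nonneg_right (by linarith) (by positivity)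
        _ = T ^ 7 := by ring
    refine ⟨?_, ?_, ?_⟩
    · have h2 : (m : ℝ) ≤ (16 * T ^ 6) * Y ^ (1 - ε) := by
        refine h1.trans ?_
        have : (4 * T ^ 6) * (4 * min (Y ^ (1 - ε)) A) ≤ (4 * T ^ 6) * (4 * Y ^ (1 - ε)) := by
          apply mul_le_mul_of_nonneg_left _ (by positivity)
          linarith [min_le_left (Y ^ (1 - ε)) A]
        linarith
      have h3 : 64 * T ^ 6 ≤ Y ^ (ε / 2) := by
        refine hTT.trans (hlen2.trans ?_)
        exact Real.rpow_le_rpow (Real.rpow_nonneg hPpos.le _) ht (by linarith)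
      have h4 : Y ^ (1 - ε / 2) = Y ^ (ε / 2) * Y ^ (1 - ε) := by
        rw [← Real.rpow_add hY0]
        congr 1
        ring
      have h5 : Y ^ (1 - ε / 2) / 4 ≤ (Y / 4) ^ (1 - ε / 2) := by
        rw [Real.div_rpow hY0.le (by norm_num)]
        apply div_le_div_of_nonneg_left (Real.rpow_nonneg hY0.le _) (by positivity)
        calc (4 : ℝ) ^ (1 - ε / 2) ≤ (4 : ℝ) ^ (1 : ℝ) :=
              Real.rpow_le_rpow_of_exponent_le (by norm_num) (by linarith)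
          _ = 4 := Real.rpow_one _
      have h6 : (Y / 4) ^ (1 - ε / 2) ≤ (N : ℝ) ^ (1 - ε / 2) :=
        Real.rpow_le_rpow (by positivity) hNY (by linarith)
      have h7 : (64 * T ^ 6) * Y ^ (1 - ε) ≤ Y ^ (ε / 2) * Y ^ (1 - ε) :=
        mul_le_mul_of_nonneg_right h3 (Real.rpow_nonneg hY0.le _)
      linarith
    · refine le_trans ?_ hlen
      have h2 : (4 * T ^ 6) * (4 * min (Y ^ (1 - ε)) A) ≤ (4 * T ^ 6) * (4 * A) := by
        apply mul_le_mul_of_nonneg_left _ (by positivity)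
        linarith [min_le_right (Y ^ (1 - ε)) A]
      have h3 : (64 * T ^ 6) * A ≤ T ^ 7 * A := mul_le_mul_of_nonneg_right hTT hA0.le
      have h4 : (0 : ℝ) ≤ T ^ 6 * A := by positivity
      linarith
    · have h2 : G * 4 ≤ G * T := mul_le_mul_of_nonneg_left (by linarith) (by linarith)
      linarith
  set B : Finset (DirichletCharacter ℂ P) :=
    ((range E).filter (fun t => (P : ℝ) ^ ε ≤ 2 ^ (t + 1))).biUnion fun t =>
    ((Net s (E₁ t)).filter (fun m => 1 ≤ m)).biUnion fun m =>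
    ((Net s (t + 3)).filter (fun N => 2 ^ (t - 1) ≤ N)).biUnion fun N =>
      (univ : Finset (DirichletCharacter ℂ P)).filter (fun χ =>
        (P : ℝ) ^ (-c₀) * m * N < |Uc (fun n => χ (n : ZMod P)) m N - c2 * m * N|)
    with hB
  refine ⟨B, ?_, ?_⟩
  · have hnet_card : ∀ E : ℕ, ∀ y : ℝ, (E : ℝ) + 1 ≤ y → ∀ r : ℕ → Prop, ∀ _ : DecidablePred r,
        (((Net s E).filter r).card : ℝ) ≤ 4 * T ^ 6 * y := by
      intro E y hy r _
      have e1 : (((Net s E).filter r).card : ℝ) ≤ 2 ^ (s + 1) * ((E : ℝ) + 1) := by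
        have := (Finset.card_filter_le (Net s E) r).trans (card_Net_le s E)
        exact_mod_cast this
      refine e1.trans ?_
      exact mul_le_mul hs3 hy (by positivity) (by positivity)
    have c1 : ∀ t ∈ (range E).filter (fun t => (P : ℝ) ^ ε ≤ 2 ^ (t + 1)),
        ∀ m ∈ (Net s (E₁ t)).filter (fun m => 1 ≤ m),
        ∀ N ∈ (Net s (t + 3)).filter (fun N => 2 ^ (t - 1) ≤ N),
        (((univ : Finset (DirichletCharacter ℂ P)).filter (fun χ =>
          (P : ℝ) ^ (-c₀) * m * N < |Uc (fun n => χ (n : ZMod P)) m N - c2 * m * N|)).card : ℝ) ≤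
          K := by
      intro t ht m hm N hN
      rw [mem_filter] at ht hm hN
      obtain ⟨a1, a2, a3⟩ := hm_le t ht.2 m hm.1 N hN.2
      exact hone P hP2 hPprime m N hm.2 a1 a2 a3
    have c2' : ∀ t ∈ (range E).filter (fun t => (P : ℝ) ^ ε ≤ 2 ^ (t + 1)),
        ∀ m ∈ (Net s (E₁ t)).filter (fun m => 1 ≤ m),
        ((((Net s (t + 3)).filter (fun N => 2 ^ (t - 1) ≤ N)).biUnion fun N =>
          (univ : Finset (DirichletCharacter ℂ P)).filter (fun χ =>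
          (P : ℝ) ^ (-c₀) * m * N < |Uc (fun n => χ (n : ZMod P)) m N - c2 * m * N|)).card : ℝ) ≤
          (4 * T ^ 6 * (4 * T)) * K := by
      intro t ht m hm
      refine (NetDAux.card_bU (c1 t ht m hm)).trans ?_
      refine mul_le_mul_of_nonneg_right ?_ hK0
      refine hnet_card (t + 3) (4 * T) ?_ _ _
      rw [mem_filter, mem_range] at ht
      have h1 : (t : ℝ) ≤ E := by exact_mod_cast ht.1.le
      push_cast
      linarith
    have c3 : ∀ t ∈ (range E).filter (fun t => (P : ℝ) ^ ε ≤ 2 ^ (t + 1)),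
        ((((Net s (E₁ t)).filter (fun m => 1 ≤ m)).biUnion fun m =>
        ((Net s (t + 3)).filter (fun N => 2 ^ (t - 1) ≤ N)).biUnion fun N =>
          (univ : Finset (DirichletCharacter ℂ P)).filter (fun χ =>
          (P : ℝ) ^ (-c₀) * m * N < |Uc (fun n => χ (n : ZMod P)) m N - c2 * m * N|)).card : ℝ) ≤
          (4 * T ^ 6 * T) * ((4 * T ^ 6 * (4 * T)) * K) := by
      intro t ht
      refine (NetDAux.card_bU (c2' t ht)).trans ?_
      refine mul_le_mul_of_nonneg_right ?_ (by positivity)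
      exact hnet_card (E₁ t) T (hE1T t) _ _
    have c4 : (B.card : ℝ) ≤ (3 * T) * ((4 * T ^ 6 * T) * ((4 * T ^ 6 * (4 * T)) * K)) := by
      refine (NetDAux.card_bU c3).trans ?_
      refine mul_le_mul_of_nonneg_right ?_ (by positivity)
      have h1 : ((((range E).filter (fun t => (P : ℝ) ^ ε ≤ 2 ^ (t + 1))).card : ℕ) : ℝ) ≤ E := by
        have := Finset.card_filter_le (range E) (fun t => (P : ℝ) ^ ε ≤ 2 ^ (t + 1))
        rw [card_range] at this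
        exact_mod_cast this
      linarith
    refine c4.trans ?_
    have c5 : (3 * T) * ((4 * T ^ 6 * T) * ((4 * T ^ 6 * (4 * T)) * K)) = 192 * (T ^ 15 * K) := by
      ring
    rw [c5]
    have c6 : 0 ≤ T ^ 15 * K := by positivity
    calc 192 * (T ^ 15 * K) ≤ T * (T ^ 15 * K) := mul_le_mul_of_nonneg_right (by linarith) c6
      _ = T ^ 16 * K := by ring
      _ ≤ (P : ℝ) ^ (1 - c) := hcnt
  · intro χ hχB m N hm1 hmN0 hmA hN1 hN2
    have hN0 : N ≠ 0 := by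
      rintro rfl
      have h1 : (1 : ℝ) ≤ (P : ℝ) ^ ε := Real.one_le_rpow hPr hε.le
      rw [Nat.cast_zero] at hN1
      linarith
    set t : ℕ := Nat.log 2 N with ht
    have ht1 : 2 ^ t ≤ N := Nat.pow_log_le_self 2 hN0
    have ht2 : N < 2 ^ (t + 1) := Nat.lt_pow_succ_log_self (by norm_num) N
    have ht1r : (2 : ℝ) ^ t ≤ N := by exact_mod_cast ht1
    have ht2r : (N : ℝ) < 2 ^ (t + 1) := by exact_mod_cast ht2
    have htE : t < E := by
      have h1 : (2 : ℝ) ^ t < 2 ^ E := by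
        have h2 := Real.exp_pos T
        linarith
      exact (pow_lt_pow_iff_right₀ (by norm_num : (1 : ℝ) < 2)).1 h1
    have htP : (P : ℝ) ^ ε ≤ 2 ^ (t + 1) := hN1.trans ht2r.le
    have ht0 : 1 ≤ t := by
      by_contra hlt
      have h0 : t = 0 := by omega
      rw [h0] at htP
      have h1 : (1000 : ℝ) ≤ (P : ℝ) ^ ε := by
        have h2 : G * 1 ≤ G * T := mul_le_mul_of_nonneg_left hT1 (by linarith)
        have h3 : 1 * T ≤ G * T := mul_le_mul_of_nonneg_right hG1 hT0.le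
        linarith
      norm_num at htP
      linarith
    have hnet : ∀ m ∈ Net s (E₁ t), 1 ≤ m → ∀ N ∈ Net s (t + 3), 2 ^ (t - 1) ≤ N →
        |Uk (fr (fun n => χ (n : ZMod P))) m N + Uk (fi (fun n => χ (n : ZMod P))) m N -
          c2 * m * N| ≤ (1 / T ^ 3) * m * N := by
      intro m hm h1m N hN hN0
      have h1 : |Uc (fun n => χ (n : ZMod P)) m N - c2 * m * N| ≤ (P : ℝ) ^ (-c₀) * m * N := by
        by_contra hlt
        push Not at hlt
        apply hχB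
        rw [hB]
        simp only [mem_biUnion]
        exact ⟨t, mem_filter.2 ⟨mem_range.2 htE, htP⟩, m, mem_filter.2 ⟨hm, h1m⟩, N,
          mem_filter.2 ⟨hN, hN0⟩, mem_filter.2 ⟨mem_univ _, hlt⟩⟩
      refine le_trans (le_of_eq rfl) (h1.trans ?_)
      have h2 : (0 : ℝ) ≤ (m : ℝ) * N := by positivity
      calc (P : ℝ) ^ (-c₀) * m * N = (P : ℝ) ^ (-c₀) * ((m : ℝ) * N) := by ring
        _ ≤ (1 / T ^ 3) * ((m : ℝ) * N) := mul_le_mul_of_nonneg_right hneg3 h2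
        _ = 1 / T ^ 3 * m * N := by ring
    have hN8' : 2 * 2 ^ (t - 1) ≤ N := by
      refine le_trans (le_of_eq ?_) ht1
      rw [← pow_succ']
      congr 1
      omega
    have hE2N : 4 * N < 2 ^ (s + (t + 3)) := by
      have h2 : 2 ^ (t + 3) ≤ 2 ^ (s + (t + 3)) := Nat.pow_le_pow_right (by norm_num) (by omega)
      have h3 : 2 ^ (t + 3) = 4 * 2 ^ (t + 1) := by rw [show t + 3 = t + 1 + 2 by ring, pow_add]; ring
      omega
    have hNr0 : (0 : ℝ) < N := by exact_mod_cast Nat.pos_of_ne_zero hN0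
    have hN1r : (1 : ℝ) ≤ N := by exact_mod_cast Nat.one_le_iff_ne_zero.2 hN0
    have hmE : m < 2 ^ (E₁ t) := by
      have h1 : (m : ℝ) ≤ min (((2 : ℝ) ^ (t + 1)) ^ (1 - ε)) A := by
        refine le_min (hmN0.trans ?_) hmA
        exact Real.rpow_le_rpow hNr0.le ht2r.le (by linarith)
      have h2 : (m : ℝ) < 2 ^ (E₁ t) := by
        have h3 := (hE1 t).1
        have h4 : (0 : ℝ) ≤ m := Nat.cast_nonneg _
        linarith
      exact_mod_cast h2
    have hmN : m ≤ N := by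
      have h1 : (N : ℝ) ^ (1 - ε) ≤ (N : ℝ) ^ (1 : ℝ) :=
        Real.rpow_le_rpow_of_exponent_le hN1r (by linarith)
      rw [Real.rpow_one] at h1
      exact_mod_cast hmN0.trans h1
    have hT3 : (1 : ℝ) ≤ T ^ 3 := hTpow 3
    have h := Uk_all2 (f := fr (fun n => χ (n : ZMod P))) (g := fi (fun n => χ (n : ZMod P)))
      (s := s) (E₁ := E₁ t) (E₂ := t + 3) (N₀ := 2 ^ (t - 1)) (lam := 1 / T ^ 3)
      hs4 (by positivity) (by rw [div_le_one (by positivity)]; exact hT3) hnet m hm1 hmE N hN8'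
      hE2N hmN
    refine le_trans (le_of_eq rfl) (h.trans ?_)
    have h5 : Real.sqrt (1 / 2 ^ s) ≤ 1 / T ^ 3 := by
      rw [Real.sqrt_le_left (by positivity), div_pow, one_pow]
      refine one_div_le_one_div_of_le (by positivity) ?_
      calc (T ^ 3) ^ 2 = T ^ 6 := by ring
        _ ≤ 2 ^ s := hs1
    have h6 : 2 * (1 / T ^ 3) + 100 * Real.sqrt (1 / 2 ^ s) ≤ 1 / T ^ 2 := by
      have e1 : 2 * (1 / T ^ 3) + 100 * (1 / T ^ 3) = 102 / T ^ 3 := by ring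
      have e2 : 102 / T ^ 3 ≤ 1 / T ^ 2 := by
        rw [div_le_div_iff₀ (by positivity) (by positivity), one_mul]
        calc 102 * T ^ 2 ≤ T * T ^ 2 := by
              refine mul_le_mul_of_nonneg_right ?_ (by positivity)
              linarith
          _ = T ^ 3 := by ring
      linarith
    have h7 : (0 : ℝ) ≤ (m : ℝ) * N := by positivity
    calc (2 * (1 / T ^ 3) + 100 * Real.sqrt (1 / 2 ^ s)) * m * N
        = (2 * (1 / T ^ 3) + 100 * Real.sqrt (1 / 2 ^ s)) * ((m : ℝ) * N) := by ring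
      _ ≤ (1 / T ^ 2) * ((m : ℝ) * N) := mul_le_mul_of_nonneg_right h6 h7
      _ = 1 / T ^ 2 * m * N := by ring

end Pool.Agent.P4f18dfX
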