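import Pool.Agent.Lib.P4f18dfX.SecD
import Pool.Agent.Lib.P4f18dfW.Quad

/-!
# The exceptional characters modulo `q` for one length and one scale

Chebyshev with `lam = q^(-c)`, `c = ε² / 10`, from `secD` and `countD (ε² / 4)` (`L = N + h ≤ 2 N`, `2 h ≤ q`):
the number is `≤ 16 C q^(2c + ε²/4) (q h / N + h²)` and `q h / N ≤ q N^(-ε) ≤ q^(1 - ε²)`, `h² ≤ q^(1 - 2ε)`.  The diagonal:
`|DgD q h N - c2 h N| ≤ 10 h √N + 4 h N / q`, and `√N ≥ q^(ε/2)`.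
-/

set_option autoImplicit false

namespace Pool.Agent.P4f18dfX

open Finset Pool.Agent.P4f18dfQ Pool.Agent.P4f18df

namespace OneDAux

open Pool.Agent.P4f18dfW Pool.Agent.P4f18dfW.QuadAux

theorem DgD_eq {q : ℕ} (hq : q.Prime) (h N : ℕ) : DgD q h N = ∑ a ∈ Ioc 0 N, dg h q a := by
  unfold DgD
  refine Finset.sum_congr rfl fun a _ => ?_
  rw [dg_eq hq, ← sum_Ioc_eq (fun n => if Squarefree n ∧ ¬ q ∣ n then (1 : ℝ) else 0),
    Finset.card_filter]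
  push_cast
  rfl

theorem abs_DgD {q h N : ℕ} (hq : q.Prime) (hq3 : 3 ≤ q) (hhN : h ≤ N) :
    |DgD q h N - c2 * h * N| ≤ 10 * h * Real.sqrt N + 4 * h * N / q := by
  rw [DgD_eq hq]
  have h1 : q ∈ PP (q - 1) := mem_PP.2 ⟨⟨by omega, by omega⟩, hq⟩
  refine (abs_diag h1 (by omega) hhN).trans ?_
  have h2 : ((q - 1 : ℕ) : ℝ) = q - 1 := by
    rw [Nat.cast_sub (by omega), Nat.cast_one]
  have h3 : (3 : ℝ) ≤ q := by exact_mod_cast hq3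
  have h4 : (2 * h * N / ((q - 1 : ℕ) : ℝ) : ℝ) ≤ 4 * h * N / q := by
    rw [h2, div_le_div_iff₀ (by linarith) (by linarith)]
    have h5 : (0 : ℝ) ≤ h * N := by positivity
    nlinarith
  linarith

/-- Chebyshev -/
theorem cheb {ι : Type*} [Fintype ι] (s : Finset ι) (f : ι → ℝ) {t M : ℝ} (ht : 0 < t)
    (hs : ∀ i ∈ s, t ≤ |f i|) (hM : ∑ i, f i ^ 2 ≤ M) : (s.card : ℝ) ≤ M / t ^ 2 := by
  rw [le_div_iff₀ (by positivity)]
  refine le_trans ?_ hM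
  calc (s.card : ℝ) * t ^ 2 = ∑ _i ∈ s, t ^ 2 := by rw [Finset.sum_const, nsmul_eq_mul]
    _ ≤ ∑ i ∈ s, f i ^ 2 := by
        refine Finset.sum_le_sum fun i hi => ?_
        rw [← sq_abs (f i)]
        exact pow_le_pow_left₀ ht.le (hs i hi) 2
    _ ≤ ∑ i, f i ^ 2 := Finset.sum_le_sum_of_subset_of_nonneg (Finset.subset_univ _)
        fun i _ _ => sq_nonneg _

/-- the exponents -/
theorem final_bound {ε C Q h N : ℝ} (hε : 0 < ε) (hε1 : ε < 1 / 2) (hC : 0 < C) (hQ : 1 ≤ Q)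
    (hh : 1 ≤ h) (hN : 1 ≤ N) (h1 : h ≤ N ^ (1 - ε)) (h2 : h ≤ Q ^ (1 / 2 - ε)) (h3 : Q ^ ε ≤ N)
    (h4 : 32 * C ≤ Q ^ (9 * ε ^ 2 / 20)) :
    Q * h ^ 2 * (C * Q ^ (ε ^ 2 / 4) * (h * (2 * N) + (h * (2 * N)) ^ 2 / Q)) /
      (Q ^ (-(ε ^ 2 / 10)) * h * N / 2) ^ 2 ≤ Q ^ (1 - ε ^ 2 / 10) := by
  have hQ0 : 0 < Q := by linarith
  have hh0 : 0 < h := by linarith
  have hN0 : 0 < N := by linarith
  have hc : 0 < Q ^ (-(ε ^ 2 / 10)) := Real.rpow_pos_of_pos hQ0 _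
  have e1 : Q * h ^ 2 * (C * Q ^ (ε ^ 2 / 4) * (h * (2 * N) + (h * (2 * N)) ^ 2 / Q)) /
      (Q ^ (-(ε ^ 2 / 10)) * h * N / 2) ^ 2 =
      C * Q ^ (ε ^ 2 / 4) / (Q ^ (-(ε ^ 2 / 10))) ^ 2 * (8 * (Q * (h / N)) + 16 * h ^ 2) := by
    field_simp
    ring
  have e2 : Q ^ (ε ^ 2 / 4) / (Q ^ (-(ε ^ 2 / 10))) ^ 2 = Q ^ (9 * ε ^ 2 / 20) := by
    rw [← Real.rpow_natCast (Q ^ (-(ε ^ 2 / 10))) 2, ← Real.rpow_mul hQ0.le, ← Real.rpow_sub hQ0]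
    congr 1
    push_cast
    ring
  have e3 : Q * (h / N) ≤ Q ^ (1 - ε ^ 2) := by
    have h5 : h / N ≤ N ^ (-ε) := by
      rw [div_le_iff₀ hN0]
      calc h ≤ N ^ (1 - ε) := h1
        _ = N ^ (-ε) * N := by
          rw [show (1 - ε) = -ε + 1 by ring, Real.rpow_add hN0, Real.rpow_one]
    have h6 : N ^ (-ε) ≤ Q ^ (-ε ^ 2) := by
      rw [Real.rpow_neg hN0.le, show (-ε ^ 2) = -(ε * ε) by ring, Real.rpow_neg hQ0.le,
        Real.rpow_mul hQ0.le]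
      exact inv_anti₀ (Real.rpow_pos_of_pos (Real.rpow_pos_of_pos hQ0 _) _)
        (Real.rpow_le_rpow (Real.rpow_nonneg hQ0.le _) h3 hε.le)
    calc Q * (h / N) ≤ Q * Q ^ (-ε ^ 2) := mul_le_mul_of_nonneg_left (h5.trans h6) hQ0.le
      _ = Q ^ (1 - ε ^ 2) := by
        rw [show (1 - ε ^ 2) = 1 + (-ε ^ 2) by ring, Real.rpow_add hQ0, Real.rpow_one]
  have e4 : h ^ 2 ≤ Q ^ (1 - ε ^ 2) := by
    calc h ^ 2 ≤ (Q ^ (1 / 2 - ε)) ^ 2 := pow_le_pow_left₀ hh0.le h2 2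
      _ = Q ^ (1 - 2 * ε) := by
        rw [← Real.rpow_natCast (Q ^ (1 / 2 - ε)) 2, ← Real.rpow_mul hQ0.le]
        congr 1
        push_cast
        ring
      _ ≤ Q ^ (1 - ε ^ 2) := Real.rpow_le_rpow_of_exponent_le hQ (by nlinarith)
  rw [e1, mul_div_assoc, e2]
  have h7 : 0 < Q ^ (9 * ε ^ 2 / 20) := Real.rpow_pos_of_pos hQ0 _
  have h8 : 0 < Q ^ (1 - ε ^ 2) := Real.rpow_pos_of_pos hQ0 _
  calc C * Q ^ (9 * ε ^ 2 / 20) * (8 * (Q * (h / N)) + 16 * h ^ 2)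
      ≤ C * Q ^ (9 * ε ^ 2 / 20) * (24 * Q ^ (1 - ε ^ 2)) := by
        apply mul_le_mul_of_nonneg_left _ (by positivity)
        linarith
    _ = (24 * C) * (Q ^ (9 * ε ^ 2 / 20) * Q ^ (1 - ε ^ 2)) := by ring
    _ ≤ Q ^ (9 * ε ^ 2 / 20) * (Q ^ (9 * ε ^ 2 / 20) * Q ^ (1 - ε ^ 2)) := by
        apply mul_le_mul_of_nonneg_right _ (by positivity)
        linarith
    _ = Q ^ (1 - ε ^ 2 / 10) := by
        rw [← Real.rpow_add hQ0, ← Real.rpow_add hQ0]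
        congr 1
        ring

/-- the error of the diagonal -/
theorem diag_bound {ε Q h N : ℝ} (hε : 0 < ε) (hε1 : ε < 1 / 2) (hQ : 1 ≤ Q)
    (hh : 1 ≤ h) (hN : 1 ≤ N) (h3 : Q ^ ε ≤ N) (h4 : 28 ≤ Q ^ (ε / 4)) :
    10 * h * Real.sqrt N + 4 * h * N / Q ≤ Q ^ (-(ε ^ 2 / 10)) * h * N / 2 := by
  have hQ0 : 0 < Q := by linarith
  have hh0 : 0 < h := by linarith
  have hN0 : 0 < N := by linarith
  have hs : 0 < Real.sqrt N := Real.sqrt_pos.mpr hN0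
  have hss : Real.sqrt N * Real.sqrt N = N := Real.mul_self_sqrt hN0.le
  have h5 : Q ^ (ε / 2) ≤ Real.sqrt N := by
    rw [Real.le_sqrt (Real.rpow_nonneg hQ0.le _) hN0.le, ← Real.rpow_natCast (Q ^ (ε / 2)) 2,
      ← Real.rpow_mul hQ0.le]
    push_cast
    rw [show ε / 2 * 2 = ε by ring]
    exact h3
  have hc : 0 < Q ^ (-(ε ^ 2 / 10)) := Real.rpow_pos_of_pos hQ0 _
  have h6 : 28 ≤ Q ^ (-(ε ^ 2 / 10)) * Q ^ (ε / 2) := by
    rw [← Real.rpow_add hQ0]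
    exact h4.trans (Real.rpow_le_rpow_of_exponent_le hQ (by nlinarith))
  have h7 : 28 ≤ Q ^ (-(ε ^ 2 / 10)) * Real.sqrt N :=
    h6.trans (mul_le_mul_of_nonneg_left h5 hc.le)
  have h8 : 28 ≤ Q ^ (-(ε ^ 2 / 10)) * Q := by
    refine h6.trans (mul_le_mul_of_nonneg_left ?_ hc.le)
    calc Q ^ (ε / 2) ≤ Q ^ (1 : ℝ) := Real.rpow_le_rpow_of_exponent_le hQ (by linarith)
      _ = Q := Real.rpow_one Q
  have h9 : 10 * h * Real.sqrt N ≤ 10 / 28 * (Q ^ (-(ε ^ 2 / 10)) * h * N) := by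
    have : 28 * (h * Real.sqrt N) ≤ Q ^ (-(ε ^ 2 / 10)) * Real.sqrt N * (h * Real.sqrt N) :=
      mul_le_mul_of_nonneg_right h7 (by positivity)
    have h10 : Q ^ (-(ε ^ 2 / 10)) * Real.sqrt N * (h * Real.sqrt N) =
        Q ^ (-(ε ^ 2 / 10)) * h * N := by
      calc Q ^ (-(ε ^ 2 / 10)) * Real.sqrt N * (h * Real.sqrt N)
          = Q ^ (-(ε ^ 2 / 10)) * h * (Real.sqrt N * Real.sqrt N) := by ring
        _ = _ := by rw [hss]
    rw [h10] at this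
    linarith
  have h11 : 4 * h * N / Q ≤ 4 / 28 * (Q ^ (-(ε ^ 2 / 10)) * h * N) := by
    rw [div_le_iff₀ hQ0]
    have : 28 * (h * N) ≤ Q ^ (-(ε ^ 2 / 10)) * Q * (h * N) :=
      mul_le_mul_of_nonneg_right h8 (by positivity)
    nlinarith
  have h12 : 0 < Q ^ (-(ε ^ 2 / 10)) * h * N := by positivity
  linarith

end OneDAux

open OneDAux

open Classical in
theorem oneD (ε : ℝ) (hε : 0 < ε) (hε1 : ε < 1 / 2) : ∃ c : ℝ, 0 < c ∧ ∃ Q₀ : ℕ,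
    ∀ q : ℕ, Q₀ ≤ q → q.Prime → ∀ [NeZero q], ∀ h N : ℕ, 1 ≤ h → (h : ℝ) ≤ (N : ℝ) ^ (1 - ε) →
      (h : ℝ) ≤ (q : ℝ) ^ (1 / 2 - ε) → (q : ℝ) ^ ε ≤ N →
      (((univ : Finset (DirichletCharacter ℂ q)).filter (fun χ =>
        (q : ℝ) ^ (-c) * h * N < |Uc (fun n => χ (n : ZMod q)) h N - c2 * h * N|)).card : ℝ) ≤
        (q : ℝ) ^ (1 - c) := by
  obtain ⟨C, hC, hcount⟩ := countD (ε ^ 2 / 4) (by positivity)
  have t1 : ∀ᶠ q : ℕ in Filter.atTop, 28 ≤ (q : ℝ) ^ (ε / 4) :=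
    ((tendsto_rpow_atTop (by positivity : 0 < ε / 4)).comp
      tendsto_natCast_atTop_atTop).eventually_ge_atTop 28
  have t2 : ∀ᶠ q : ℕ in Filter.atTop, 32 * C ≤ (q : ℝ) ^ (9 * ε ^ 2 / 20) :=
    ((tendsto_rpow_atTop (by positivity : 0 < 9 * ε ^ 2 / 20)).comp
      tendsto_natCast_atTop_atTop).eventually_ge_atTop (32 * C)
  obtain ⟨Q₀, hQ₀⟩ := Filter.eventually_atTop.1 (t1.and (t2.and (Filter.eventually_ge_atTop 4)))
  refine ⟨ε ^ 2 / 10, by positivity, Q₀, ?_⟩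
  intro q hq0 hq _ h N hh h1 h2 h3
  obtain ⟨b1, b2, b3⟩ := hQ₀ q hq0
  have hQ1 : (1 : ℝ) ≤ q := by exact_mod_cast hq.one_lt.le
  have hQ4 : (4 : ℝ) ≤ q := by exact_mod_cast b3
  have hQ0 : (0 : ℝ) < q := by linarith
  have hhr : (1 : ℝ) ≤ h := by exact_mod_cast hh
  have hNr : (1 : ℝ) ≤ N := (Real.one_le_rpow hQ1 hε.le).trans h3
  have hN0 : (0 : ℝ) < N := by linarith
  have hh0 : (0 : ℝ) < h := by linarith
  have hhN : h ≤ N := by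
    have : (h : ℝ) ≤ N := by
      calc (h : ℝ) ≤ (N : ℝ) ^ (1 - ε) := h1
        _ ≤ (N : ℝ) ^ (1 : ℝ) := Real.rpow_le_rpow_of_exponent_le hNr (by linarith)
        _ = N := Real.rpow_one _
    exact_mod_cast this
  have h2q : 2 * h ≤ q := by
    have h5 : (h : ℝ) ≤ Real.sqrt q := by
      rw [Real.sqrt_eq_rpow]
      exact h2.trans (Real.rpow_le_rpow_of_exponent_le hQ1 (by linarith))
    have h6 : (2 : ℝ) ≤ Real.sqrt q := by
      rw [Real.le_sqrt (by norm_num) hQ0.le]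
      linarith
    have h7 : Real.sqrt q * Real.sqrt q = q := Real.mul_self_sqrt hQ0.le
    have h8 : (2 * h : ℝ) ≤ q := by nlinarith
    exact_mod_cast h8
  have hcheb := cheb ((univ : Finset (DirichletCharacter ℂ q)).filter (fun χ =>
        (q : ℝ) ^ (-(ε ^ 2 / 10)) * h * N < |Uc (fun n => χ (n : ZMod q)) h N - c2 * h * N|))
    (fun χ => Uc (fun n => χ (n : ZMod q)) h N - DgD q h N)
    (t := (q : ℝ) ^ (-(ε ^ 2 / 10)) * h * N / 2)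
    (by
      have : 0 < (q : ℝ) ^ (-(ε ^ 2 / 10)) := Real.rpow_pos_of_pos hQ0 _
      positivity)
    (by
      intro χ hχ
      rw [Finset.mem_filter] at hχ
      have h5 := abs_DgD hq (by omega) hhN
      have h6 := diag_bound hε hε1 hQ1 hhr hNr h3 b1
      have h7 : |Uc (fun n => χ (n : ZMod q)) h N - c2 * h * N| ≤
          |Uc (fun n => χ (n : ZMod q)) h N - DgD q h N| + |DgD q h N - c2 * h * N| :=
        abs_sub_le _ _ _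
      linarith [hχ.2])
    (secD hq hh hhN)
  refine hcheb.trans ?_
  refine le_trans ?_ (final_bound hε hε1 hC hQ1 hhr hNr h1 h2 h3 b2)
  have hcc : 0 < (q : ℝ) ^ (-(ε ^ 2 / 10)) := Real.rpow_pos_of_pos hQ0 _
  apply div_le_div_of_nonneg_right _ (by positivity)
  apply mul_le_mul_of_nonneg_left _ (by positivity)
  refine (hcount q (N + h) h hq (by omega) hh (by omega) h2q).trans ?_
  have h5 : ((N + h : ℕ) : ℝ) ≤ 2 * N := by
    have : N + h ≤ 2 * N := by omega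
    exact_mod_cast this
  have h6 : (0 : ℝ) ≤ ((N + h : ℕ) : ℝ) := Nat.cast_nonneg _
  apply mul_le_mul_of_nonneg_left _ (by positivity)
  have h7 : (h : ℝ) * ((N + h : ℕ) : ℝ) ≤ h * (2 * N) := mul_le_mul_of_nonneg_left h5 hh0.le
  have h8 : ((h : ℝ) * ((N + h : ℕ) : ℝ)) ^ 2 ≤ (h * (2 * N)) ^ 2 :=
    pow_le_pow_left₀ (by positivity) h7 2
  have h9 : ((h : ℝ) * ((N + h : ℕ) : ℝ)) ^ 2 / q ≤ (h * (2 * N)) ^ 2 / q :=
    div_le_div_of_nonneg_right h8 hQ0.le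
  linarith

end Pool.Agent.P4f18dfX
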