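import Pool.Agent.Lib.P4f18dfX.CntD

/-!
# The second moment over the characters modulo `q`

Module X.SecD.  For every character `χ` (also the principal one) and `φ n = χ n`:
`Uc φ h N = ∑_a |∑_(a < n ≤ a+h) μ(n) χ(n)|² = diagonal + S_χ`, `S_χ = ∑_(z ∈ PrD q (N+h) h) w(z) μ(z.1) μ(z.2) χ(z.1) conj χ(z.2)`,
`w(z) = #{a ∈ Ioc 0 N : z.1, z.2 ∈ Ioc a (a+h)} ≤ h` (the diagonal: `μ(n)² |χ(n)|² = 1` iff `n` is squarefree and prime to `q`; the terms
with `q ∣ z.1` or `q ∣ z.2` vanish).  `S_χ` is real.  `∑_χ |S_χ|² = ∑_(z,z') w w' μ μ μ μ ∑_χ χ(z.1 z'.2) conj χ(z.2 z'.1)` and the inner sum is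
`φ(q)` if `z.1 z'.2 ≡ z.2 z'.1 (mod q)` and `0` otherwise (`DirichletCharacter.sum_char_inv_mul_char_eq`).
-/

set_option autoImplicit false

namespace Pool.Agent.P4f18dfX

open Finset Pool.Agent.P4f18dfQ Pool.Agent.P4f18df

/-- the diagonal -/
noncomputable def DgD (q h N : ℕ) : ℝ :=
  ∑ a ∈ Ioc 0 N, (((Ioc a (a + h)).filter (fun n => Squarefree n ∧ ¬ q ∣ n)).card : ℝ)

namespace SecDAux

/-- number of windows containing both -/
def wt (h N : ℕ) (z : ℕ × ℕ) : ℕ :=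
  ((Ioc 0 N).filter (fun a => z.1 ∈ Ioc a (a + h) ∧ z.2 ∈ Ioc a (a + h))).card

theorem wt_le (h N : ℕ) (z : ℕ × ℕ) : wt h N z ≤ h := by
  unfold wt
  have h1 : (Ioc 0 N).filter (fun a => z.1 ∈ Ioc a (a + h) ∧ z.2 ∈ Ioc a (a + h)) ⊆
      Ico (z.1 - h) z.1 := by
    intro a ha
    simp only [mem_filter, mem_Ioc, mem_Ico] at ha ⊢
    omega
  refine (card_le_card h1).trans ?_
  rw [Nat.card_Ico]
  omega

/-- coefficient of a pair -/
noncomputable def cf (h N : ℕ) (z : ℕ × ℕ) : ℝ :=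
  (wt h N z : ℝ) * ((ArithmeticFunction.moebius z.1 : ℝ) * (ArithmeticFunction.moebius z.2 : ℝ))

theorem abs_cf (h N : ℕ) (z : ℕ × ℕ) : |cf h N z| ≤ h := by
  unfold cf
  rw [abs_mul, abs_mul]
  have h1 : |((wt h N z : ℕ) : ℝ)| ≤ h := by
    rw [abs_of_nonneg (Nat.cast_nonneg _)]
    exact_mod_cast wt_le h N z
  have h2 := abs_moebius_le z.1
  have h3 := abs_moebius_le z.2
  calc _ ≤ (h : ℝ) * (1 * 1) := by gcongr
    _ = h := by ring

theorem sum_pairs (q h N : ℕ) (F : ℕ → ℕ → ℝ) (hF1 : ∀ n m, q ∣ n → F n m = 0)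
    (hF2 : ∀ n m, q ∣ m → F n m = 0) :
    ∑ a ∈ Ioc 0 N, ∑ n ∈ Ioc a (a + h), ∑ m ∈ Ioc a (a + h), (if n = m then 0 else F n m) =
      ∑ z ∈ PrD q (N + h) h, (wt h N z : ℝ) * F z.1 z.2 := by
  have h1 : ∀ a ∈ Ioc 0 N, ∑ n ∈ Ioc a (a + h), ∑ m ∈ Ioc a (a + h), (if n = m then 0 else F n m) =
      ∑ z ∈ PrD q (N + h) h, (if z.1 ∈ Ioc a (a + h) ∧ z.2 ∈ Ioc a (a + h) then F z.1 z.2 else 0) := by
    intro a ha
    rw [← sum_product' (s := Ioc a (a + h)) (t := Ioc a (a + h))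
      (f := fun n m => if n = m then 0 else F n m)]
    rw [← sum_filter]
    symm
    apply sum_subset_zero_on_sdiff
    · intro z hz
      simp only [mem_filter, mem_product] at hz ⊢
      exact hz.2
    · intro z hz
      simp only [mem_sdiff, mem_product, mem_filter] at hz
      obtain ⟨⟨hz1, hz2⟩, hz3⟩ := hz
      by_cases he : z.1 = z.2
      · simp [he]
      rw [if_neg he]
      by_cases hq1 : q ∣ z.1
      · exact hF1 _ _ hq1
      by_cases hq2 : q ∣ z.2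
      · exact hF2 _ _ hq2
      exfalso
      apply hz3
      refine ⟨?_, hz1, hz2⟩
      unfold PrD
      simp only [mem_filter, mem_product, mem_Icc, mem_Ioc] at ha hz1 hz2 ⊢
      refine ⟨⟨⟨by omega, by omega⟩, by omega, by omega⟩, he, hq1, hq2, by omega, by omega⟩
    · intro z hz
      simp only [mem_filter] at hz
      have hne : z.1 ≠ z.2 := by
        have := hz.1
        unfold PrD at this
        simp only [mem_filter] at this
        exact this.2.1
      rw [if_neg hne]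
  rw [sum_congr rfl h1, sum_comm]
  apply sum_congr rfl
  intro z hz
  rw [← sum_filter, sum_const, nsmul_eq_mul]
  rfl

/-- the off-diagonal sum -/
noncomputable def TT {q : ℕ} (χ : DirichletCharacter ℂ q) (h N : ℕ) : ℂ :=
  ∑ z ∈ PrD q (N + h) h, (cf h N z : ℂ) *
    (χ (z.1 : ZMod q) * (starRingEnd ℂ) (χ (z.2 : ZMod q)))

theorem re_mul_conj (u v : ℂ) : (u * (starRingEnd ℂ) v).re = u.re * v.re + u.im * v.im := by
  simp [Complex.mul_re]

theorem chi_dvd {q : ℕ} (hq : q.Prime) (χ : DirichletCharacter ℂ q) {n : ℕ} (hn : q ∣ n) :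
    χ (n : ZMod q) = 0 := by
  rw [(ZMod.natCast_eq_zero_iff n q).2 hn]
  have : Fact q.Prime := ⟨hq⟩
  exact χ.map_nonunit (by simp)

theorem unit_of {q : ℕ} (hq : q.Prime) {n : ℕ} (hn : ¬ q ∣ n) : IsUnit (n : ZMod q) := by
  have : Fact q.Prime := ⟨hq⟩
  rw [isUnit_iff_ne_zero]
  exact fun h0 => hn ((ZMod.natCast_eq_zero_iff n q).1 h0)

theorem chi_norm {q : ℕ} (hq : q.Prime) (χ : DirichletCharacter ℂ q) {n : ℕ} (hn : ¬ q ∣ n) :
    ‖χ (n : ZMod q)‖ = 1 := by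
  obtain ⟨u, hu⟩ := unit_of hq hn
  rw [← hu]
  exact χ.unit_norm_eq_one u

theorem diff_eq {q : ℕ} (hq : q.Prime) (χ : DirichletCharacter ℂ q) (h N : ℕ) :
    Uc (fun n => χ (n : ZMod q)) h N - DgD q h N = (TT χ h N).re := by
  classical
  set φ : ℕ → ℂ := fun n => χ (n : ZMod q) with hφ
  set F : ℕ → ℕ → ℝ := fun n m => ((ArithmeticFunction.moebius n : ℝ) *
    (ArithmeticFunction.moebius m : ℝ)) * (φ n * (starRingEnd ℂ) (φ m)).re with hF
  have h1 : Uc φ h N = ∑ a ∈ Ioc 0 N, ∑ n ∈ Ioc a (a + h), ∑ m ∈ Ioc a (a + h), F n m := by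
    unfold Uc Uk Wd
    rw [← sum_add_distrib]
    apply sum_congr rfl
    intro a _
    rw [sq, sq, sum_mul_sum, sum_mul_sum, ← sum_add_distrib]
    apply sum_congr rfl
    intro n _
    rw [← sum_add_distrib]
    apply sum_congr rfl
    intro m _
    simp only [hF, fr, fi, re_mul_conj]
    ring
  have h2 : DgD q h N = ∑ a ∈ Ioc 0 N, ∑ n ∈ Ioc a (a + h), ∑ m ∈ Ioc a (a + h),
      (if n = m then F n m else 0) := by
    unfold DgD
    apply sum_congr rfl
    intro a _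
    rw [card_filter]
    push_cast
    apply sum_congr rfl
    intro n hn
    rw [sum_ite_eq, if_pos hn]
    simp only [hF, re_mul_conj]
    by_cases hqn : q ∣ n
    · have : φ n = 0 := chi_dvd hq χ hqn
      rw [this]
      simp [hqn]
    · have h3 : ‖φ n‖ = 1 := chi_norm hq χ hqn
      have h4 : (φ n).re * (φ n).re + (φ n).im * (φ n).im = 1 := by
        have h5 : ‖φ n‖ ^ 2 = (φ n).re ^ 2 + (φ n).im ^ 2 := by
          rw [Complex.sq_norm, Complex.normSq_apply]; ring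
        rw [h3] at h5
        nlinarith
      rw [h4, mul_one]
      by_cases hs : Squarefree n
      · rw [if_pos ⟨hs, hqn⟩]
        rcases ArithmeticFunction.moebius_ne_zero_iff_eq_or.1
          (ArithmeticFunction.moebius_ne_zero_iff_squarefree.2 hs) with h6 | h6 <;> rw [h6] <;> norm_num
      · rw [if_neg (fun h7 => hs h7.1), ArithmeticFunction.moebius_eq_zero_of_not_squarefree hs]
        simp
  have h3 : Uc φ h N - DgD q h N = ∑ a ∈ Ioc 0 N, ∑ n ∈ Ioc a (a + h), ∑ m ∈ Ioc a (a + h),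
      (if n = m then 0 else F n m) := by
    rw [h1, h2, ← sum_sub_distrib]
    apply sum_congr rfl
    intro a _
    rw [← sum_sub_distrib]
    apply sum_congr rfl
    intro n _
    rw [← sum_sub_distrib]
    apply sum_congr rfl
    intro m _
    split_ifs <;> simp
  rw [h3, sum_pairs q h N F]
  · unfold TT
    rw [Complex.re_sum]
    apply sum_congr rfl
    intro z _
    rw [Complex.re_ofReal_mul]
    simp only [hF, cf]
    ring
  · intro n m hn
    simp only [hF]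
    rw [show φ n = 0 from chi_dvd hq χ hn]
    simp
  · intro n m hm
    simp only [hF]
    rw [show φ m = 0 from chi_dvd hq χ hm]
    simp

theorem chi_conj {q : ℕ} (hq : q.Prime) (χ : DirichletCharacter ℂ q) {n : ℕ} (hn : ¬ q ∣ n) :
    (starRingEnd ℂ) (χ (n : ZMod q)) = χ ((n : ZMod q)⁻¹) := by
  have : Fact q.Prime := ⟨hq⟩
  have h1 := chi_norm hq χ hn
  have h2 : (n : ZMod q) ≠ 0 := fun h0 => hn ((ZMod.natCast_eq_zero_iff n q).1 h0)
  have h3 : χ ((n : ZMod q)⁻¹) * χ (n : ZMod q) = 1 := by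
    rw [← map_mul, inv_mul_cancel₀ h2, map_one]
  have h4 : (starRingEnd ℂ) (χ (n : ZMod q)) * χ (n : ZMod q) = 1 := by
    rw [mul_comm, Complex.mul_conj, Complex.normSq_eq_norm_sq, h1]
    norm_num
  have h5 : χ (n : ZMod q) ≠ 0 := by
    intro h0
    rw [h0] at h4
    simp at h4
  exact mul_right_cancel₀ h5 (h4.trans h3.symm)

/-- orthogonality -/
theorem orth {q : ℕ} (hq : q.Prime) [NeZero q] {a b c d : ℕ} (ha : ¬ q ∣ a) (hb : ¬ q ∣ b)
    (hc : ¬ q ∣ c) (hd : ¬ q ∣ d) :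
    ∑ χ : DirichletCharacter ℂ q, (χ (a : ZMod q) * (starRingEnd ℂ) (χ (b : ZMod q))) *
      (starRingEnd ℂ) (χ (c : ZMod q) * (starRingEnd ℂ) (χ (d : ZMod q))) =
      if (a * d) % q = (b * c) % q then ((q.totient : ℕ) : ℂ) else 0 := by
  have : Fact q.Prime := ⟨hq⟩
  have hbc : ¬ q ∣ b * c := fun h0 => by
    rcases (Nat.Prime.dvd_mul hq).1 h0 with h1 | h1
    · exact hb h1
    · exact hc h1
  have h1 : ∀ χ : DirichletCharacter ℂ q, (χ (a : ZMod q) * (starRingEnd ℂ) (χ (b : ZMod q))) *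
      (starRingEnd ℂ) (χ (c : ZMod q) * (starRingEnd ℂ) (χ (d : ZMod q))) =
      χ (((b * c : ℕ) : ZMod q)⁻¹) * χ ((a * d : ℕ) : ZMod q) := by
    intro χ
    rw [map_mul, Complex.conj_conj, ← chi_conj hq χ hbc]
    push_cast
    rw [map_mul, map_mul, map_mul]
    ring
  rw [sum_congr rfl (fun χ _ => h1 χ)]
  rw [DirichletCharacter.sum_char_inv_mul_char_eq (R := ℂ) (unit_of hq hbc)]
  have h2 : (((b * c : ℕ) : ZMod q) = ((a * d : ℕ) : ZMod q)) ↔ (a * d) % q = (b * c) % q := by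
    rw [ZMod.natCast_eq_natCast_iff']
    exact eq_comm
  by_cases h3 : (a * d) % q = (b * c) % q
  · rw [if_pos h3, if_pos (h2.2 h3)]
  · rw [if_neg h3, if_neg (fun h4 => h3 (h2.1 h4))]

end SecDAux

open SecDAux

theorem secD {q h N : ℕ} (hq : q.Prime) [NeZero q] (hh : 1 ≤ h) (hhN : h ≤ N) :
    ∑ χ : DirichletCharacter ℂ q, (Uc (fun n => χ (n : ZMod q)) h N - DgD q h N) ^ 2 ≤
      q * (h : ℝ) ^ 2 * ((((PrD q (N + h) h) ×ˢ (PrD q (N + h) h)).filter
        (fun w => (w.1.1 * w.2.2) % q = (w.1.2 * w.2.1) % q)).card : ℝ) := by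
  classical
  set P := PrD q (N + h) h with hP
  have hmem : ∀ z ∈ P, ¬ q ∣ z.1 ∧ ¬ q ∣ z.2 := by
    intro z hz
    rw [hP] at hz
    unfold PrD at hz
    simp only [mem_filter] at hz
    exact ⟨hz.2.2.1, hz.2.2.2.1⟩
  have h1 : ∑ χ : DirichletCharacter ℂ q, (Uc (fun n => χ (n : ZMod q)) h N - DgD q h N) ^ 2 ≤
      ∑ χ : DirichletCharacter ℂ q, Complex.normSq (TT χ h N) := by
    apply sum_le_sum
    intro χ _
    rw [diff_eq hq χ h N, Complex.normSq_apply]
    nlinarith [mul_self_nonneg (TT χ h N).im]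
  refine h1.trans ?_
  have h2 : ((∑ χ : DirichletCharacter ℂ q, Complex.normSq (TT χ h N) : ℝ) : ℂ) =
      ((∑ w ∈ P ×ˢ P, (cf h N w.1 * cf h N w.2) *
        (if (w.1.1 * w.2.2) % q = (w.1.2 * w.2.1) % q then ((q.totient : ℕ) : ℝ) else 0) : ℝ) : ℂ) := by
    push_cast
    have h3 : ∀ χ : DirichletCharacter ℂ q, ((Complex.normSq (TT χ h N) : ℝ) : ℂ) =
        ∑ w ∈ P ×ˢ P, ((cf h N w.1 : ℂ) * (cf h N w.2 : ℂ)) *
          ((χ (w.1.1 : ZMod q) * (starRingEnd ℂ) (χ (w.1.2 : ZMod q))) *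
          (starRingEnd ℂ) (χ (w.2.1 : ZMod q) * (starRingEnd ℂ) (χ (w.2.2 : ZMod q)))) := by
      intro χ
      rw [← Complex.mul_conj]
      unfold TT
      rw [map_sum, sum_mul_sum, ← sum_product']
      apply sum_congr rfl
      intro w _
      rw [map_mul, Complex.conj_ofReal]
      ring
    rw [sum_congr rfl (fun χ _ => h3 χ), sum_comm]
    apply sum_congr rfl
    intro w hw
    rw [mem_product] at hw
    rw [← mul_sum, orth hq (hmem _ hw.1).1 (hmem _ hw.1).2 (hmem _ hw.2).1 (hmem _ hw.2).2]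
    split_ifs <;> simp
  have h4 := Complex.ofReal_injective h2
  rw [h4]
  calc ∑ w ∈ P ×ˢ P, (cf h N w.1 * cf h N w.2) *
        (if (w.1.1 * w.2.2) % q = (w.1.2 * w.2.1) % q then ((q.totient : ℕ) : ℝ) else 0)
      ≤ ∑ w ∈ P ×ˢ P, (if (w.1.1 * w.2.2) % q = (w.1.2 * w.2.1) % q then (q : ℝ) * (h : ℝ) ^ 2 else 0) := by
        apply sum_le_sum
        intro w _
        split_ifs
        · have h5 := abs_cf h N w.1
          have h6 := abs_cf h N w.2
          have h7 : cf h N w.1 * cf h N w.2 ≤ (h : ℝ) ^ 2 := by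
            calc cf h N w.1 * cf h N w.2 ≤ |cf h N w.1 * cf h N w.2| := le_abs_self _
              _ = |cf h N w.1| * |cf h N w.2| := abs_mul _ _
              _ ≤ h * h := mul_le_mul h5 h6 (abs_nonneg _) (Nat.cast_nonneg _)
              _ = (h : ℝ) ^ 2 := (sq _).symm
          have h8 : ((q.totient : ℕ) : ℝ) ≤ q := by exact_mod_cast Nat.totient_le q
          calc cf h N w.1 * cf h N w.2 * ((q.totient : ℕ) : ℝ) ≤ (h : ℝ) ^ 2 * ((q.totient : ℕ) : ℝ) :=
                mul_le_mul_of_nonneg_right h7 (Nat.cast_nonneg _)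
            _ ≤ (h : ℝ) ^ 2 * q := mul_le_mul_of_nonneg_left h8 (by positivity)
            _ = q * (h : ℝ) ^ 2 := by ring
        · simp
    _ = q * (h : ℝ) ^ 2 * (((P ×ˢ P).filter
        (fun w => (w.1.1 * w.2.2) % q = (w.1.2 * w.2.1) % q)).card : ℝ) := by
        rw [← sum_filter, sum_const, nsmul_eq_mul]
        ring

end Pool.Agent.P4f18dfX
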